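import Mathlib
import Pool.Agent.Lib.MP_bf61d2_nt.Trim.Artin.Defs63
import Pool.Agent.Lib.MP_bf61d2_nt.Trim.Artin.L.PSL88
import Pool.Agent.Lib.MP_bf61d2_nt.Trim.Artin.L.StmtsL63
import Pool.Agent.Lib.MP_bf61d2_nt.Trim.Artin.LA.DefsLA63
import Pool.Agent.Lib.MP_bf61d2_nt.Trim.Artin.N2373
import Pool.Agent.Lib.MP_bf61d2_nt.Trim.Artin.N4h3
import Pool.Agent.Lib.MP_bf61d2_nt.Trim.Artin.R.DefsR
import Pool.Agent.Lib.MP_bf61d2_nt.Trim.Artin.Z69
import Pool.Agent.Lib.MP_bf61d2_nt.Trim.Places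
import Pool.Agent.Lib.MP_bf61d2_nt.Trim.PrimeSum

set_option autoImplicit false

/-!
LOCAL ARTIN (MP_bf61d2_nt), module CHARL: the sums over the places with an even Dirichlet character of
the norm, with the weights `log (N v) * (N v) ^ (-σ)`.
-/

namespace NumberField
end NumberField

namespace Pool.Agent.Lib.MP_bf61d2_nt.Perm
end Pool.Agent.Lib.MP_bf61d2_nt.Perm

namespace Pool.Agent.Lib.MP_bf61d2_nt.Artin.LA

open NumberField IsDedekindDomain Filter Topology Polynomial Module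

open Pool.Agent.Lib.MP_bf61d2_nt.Perm

open scoped Classical nonZeroDivisors

namespace LA1

/-! ### Logarithmic derivatives near a point -/

lemma bdd_zero {f G : ℂ → ℂ} {u : ℝ} (hG : AnalyticAt ℂ G (1 + u * Complex.I))
    (h0 : G (1 + u * Complex.I) ≠ 0)
    (h : ∀ᶠ s in 𝓝 (1 + u * Complex.I : ℂ), 1 < s.re → G s = f s) :
    ∃ C : ℝ, ∀ᶠ σ : ℝ in 𝓝[>] 1, ‖logDeriv f (σ + u * Complex.I)‖ ≤ C := by
  have hmap : Tendsto (fun σ : ℝ => (σ + u * Complex.I : ℂ)) (𝓝[>] 1)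
      (𝓝 (1 + u * Complex.I)) := by
    have : Continuous fun σ : ℝ => (σ + u * Complex.I : ℂ) := by fun_prop
    have h1 := this.tendsto 1
    rw [Complex.ofReal_one] at h1
    exact h1.mono_left nhdsWithin_le_nhds
  have hc : ContinuousAt (logDeriv G) (1 + u * Complex.I) :=
    (hG.deriv.continuousAt).div hG.continuousAt h0
  refine ⟨‖logDeriv G (1 + u * Complex.I)‖ + 1, ?_⟩
  have h1 := (hc.tendsto.comp hmap).norm.eventually_lt_const
    (lt_add_one ‖logDeriv G (1 + u * Complex.I)‖)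
  have h2 := hmap.eventually h.eventually_nhds
  filter_upwards [h1, h2, self_mem_nhdsWithin] with σ h1 h2 hσ
  have hσ' : 1 < σ := hσ
  have hre : 1 < ((σ : ℂ) + u * Complex.I).re := by simpa using hσ'
  have hopen : IsOpen {s : ℂ | 1 < s.re} := isOpen_lt continuous_const Complex.continuous_re
  have h3 : f =ᶠ[𝓝 ((σ : ℂ) + u * Complex.I)] G := by
    filter_upwards [h2, hopen.mem_nhds hre] with s h4 h5
    exact (h4 h5).symm
  rw [logDeriv_apply, h3.deriv_eq, h3.eq_of_nhds, ← logDeriv_apply]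
  exact h1.le

lemma bdd_one {f G : ℂ → ℂ} (hG : AnalyticAt ℂ G 1) (h0 : G 1 ≠ 0)
    (h : ∀ᶠ s in 𝓝 (1 : ℂ), 1 < s.re → G s = (s - 1) * f s)
    (hf : ∀ s : ℂ, 1 < s.re → DifferentiableAt ℂ f s ∧ f s ≠ 0) :
    ∃ C : ℝ, ∀ᶠ σ : ℝ in 𝓝[>] 1, ‖logDeriv f σ + ((1 / (σ - 1) : ℝ) : ℂ)‖ ≤ C := by
  have hmap : Tendsto (fun σ : ℝ => (σ : ℂ)) (𝓝[>] 1) (𝓝 1) := by
    have : Continuous fun σ : ℝ => (σ : ℂ) := by fun_prop
    have h1 := this.tendsto 1
    rw [Complex.ofReal_one] at h1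
    exact h1.mono_left nhdsWithin_le_nhds
  have hc : ContinuousAt (logDeriv G) 1 := (hG.deriv.continuousAt).div hG.continuousAt h0
  refine ⟨‖logDeriv G 1‖ + 1, ?_⟩
  have h1 := (hc.tendsto.comp hmap).norm.eventually_lt_const (lt_add_one ‖logDeriv G 1‖)
  have h2 := hmap.eventually h.eventually_nhds
  filter_upwards [h1, h2, self_mem_nhdsWithin] with σ h1 h2 hσ
  have hσ' : 1 < σ := hσ
  have hre : 1 < (σ : ℂ).re := by simpa using hσ'
  have hopen : IsOpen {s : ℂ | 1 < s.re} := isOpen_lt continuous_const Complex.continuous_re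
  have h3 : G =ᶠ[𝓝 (σ : ℂ)] fun s => (s - 1) * f s := by
    filter_upwards [h2, hopen.mem_nhds hre] with s h4 h5
    exact h4 h5
  obtain ⟨hd, hne⟩ := hf σ hre
  have hs1 : (σ : ℂ) - 1 ≠ 0 := by
    rw [sub_ne_zero]
    intro h4
    have : σ = 1 := by exact_mod_cast h4
    exact hσ'.ne' this
  have h4 : logDeriv G σ = 1 / ((σ : ℂ) - 1) + logDeriv f σ := by
    have h5 := logDeriv_mul (f := fun s : ℂ => s - 1) (g := f) (σ : ℂ) hs1 hne
      (differentiableAt_id.sub_const 1) hd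
    have h6 : logDeriv (fun s : ℂ => s - 1) (σ : ℂ) = 1 / ((σ : ℂ) - 1) := by
      rw [logDeriv_apply, deriv_sub_const, deriv_id'']
    rw [← h6, ← h5, logDeriv_apply, logDeriv_apply, h3.deriv_eq, h3.eq_of_nhds]
  have h5 : logDeriv f σ + ((1 / (σ - 1) : ℝ) : ℂ) = logDeriv G σ := by
    rw [h4]
    push_cast
    ring
  rw [h5]
  exact h1.le

/-! ### The character of the ideals -/

section Psi

variable {F : Type*} [Field F] [NumberField F] {m : ℕ} [NeZero m]

/-- The character of the norm. -/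
noncomputable def psi (hm : 1 < m) (χ : DirichletCharacter ℂ m) : Ideal (𝓞 F) →*₀ ℂ where
  toFun I := χ (Ideal.absNorm I : ZMod m)
  map_zero' := by
    have : Nontrivial (ZMod m) := ZMod.nontrivial_iff.mpr hm.ne'
    rw [map_zero, Nat.cast_zero]
    exact MulChar.map_zero χ
  map_one' := by
    rw [map_one, Nat.cast_one]
    exact map_one χ
  map_mul' I J := by
    rw [map_mul, Nat.cast_mul, map_mul]

lemma norm_psi_le (hm : 1 < m) (χ : DirichletCharacter ℂ m) (I : Ideal (𝓞 F)) :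
    ‖psi hm χ I‖ ≤ 1 := DirichletCharacter.norm_le_one χ _

lemma LI_psi (hm : 1 < m) (χ : DirichletCharacter ℂ m) {s : ℂ} (hs : 1 < s.re) :
    Ray.LI (psi (F := F) hm χ : Ideal (𝓞 F) → ℂ) s = LF F (fun n => χ n) s := by
  rw [Z69.LF_eq_tsum (K := F) (f := fun n : ℕ => χ (n : ZMod m)) (B := 1)
    (fun n => DirichletCharacter.norm_le_one χ _) hs, Ray.LI]
  rfl

end Psi

/-! ### Upper and lower bounds of the series near the line -/

section Bounds

variable {F L : Type*} [Field F] [NumberField F] [Field L] [NumberField L] [Algebra F L]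
  [IsGalois F L] {m : ℕ} [NeZero m]

lemma lf_bounds (hm : 2 < m) {ζ : L} (hζ : IsPrimitiveRoot ζ m)
    (χ : DirichletCharacter ℂ m) (hχ : χ.Even) (u : ℝ) :
    ∃ C : ℝ, ∀ᶠ σ : ℝ in 𝓝[>] 1,
      |Real.log ‖LF F (fun n => χ n) (σ + u * Complex.I)‖ -
        (if u = 0 ∧ ∀ g : Gal(L/F), χ ((hζ.autToPow F g : (ZMod m)ˣ) : ZMod m) = 1 then
          Real.log (1 / (σ - 1)) else 0)| ≤ C ∧
      LF F (fun n => χ n) (σ + u * Complex.I) ≠ 0 := by
  obtain ⟨C, -, hC⟩ := charsum F L hm hζ χ hχ u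
  obtain ⟨Λ, -, hΛ⟩ := euler_log F χ u
  refine ⟨C + sqC F, ?_⟩
  filter_upwards [hC, self_mem_nhdsWithin] with σ h1 hσ
  obtain ⟨h2, h3⟩ := hΛ σ hσ
  rw [← h2]
  refine ⟨?_, Complex.exp_ne_zero _⟩
  rw [Complex.norm_exp, Real.log_exp]
  have h4 := (Complex.abs_re_le_norm _).trans ((norm_add_le _ _).trans (add_le_add h3 h1))
  rw [sub_add_sub_cancel, Complex.sub_re] at h4
  have h5 : (if u = 0 ∧ ∀ g : Gal(L/F), χ ((hζ.autToPow F g : (ZMod m)ˣ) : ZMod m) = 1 then
          ((Real.log (1 / (σ - 1)) : ℝ) : ℂ) else 0).re =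
        (if u = 0 ∧ ∀ g : Gal(L/F), χ ((hζ.autToPow F g : (ZMod m)ˣ) : ZMod m) = 1 then
          Real.log (1 / (σ - 1)) else 0) := by
    split_ifs
    · exact Complex.ofReal_re _
    · exact Complex.zero_re
  rw [h5] at h4
  linarith

end Bounds

end LA1

/-- LA1: the sums over the places with an even Dirichlet character of the norm, with logarithms. -/
theorem charsumL (F L : Type*) [Field F] [NumberField F] [Field L] [NumberField L] [Algebra F L]
    [IsGalois F L] {m : ℕ} [NeZero m] (hm : 2 < m) {ζ : L} (hζ : IsPrimitiveRoot ζ m)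
    (χ : DirichletCharacter ℂ m) (hχ : χ.Even) (u : ℝ) :
    ∃ C : ℝ, 0 ≤ C ∧ ∀ᶠ σ : ℝ in 𝓝[>] 1,
      ‖SD (K := F) σ (fun v => χ (nm v) * ph u (nm v)) -
        (if u = 0 ∧ ∀ g : Gal(L/F), χ ((hζ.autToPow F g : (ZMod m)ˣ) : ZMod m) = 1 then
          ((1 / (σ - 1) : ℝ) : ℂ) else 0)‖ ≤ C := by
  have hm1 : 1 < m := by omega
  have hψ : ∀ x : ZMod m, χ (-x) = χ x := fun x => hχ.eval_neg _ x
  obtain ⟨C₀, hC₀, hP⟩ := Ray.stPSL F
  obtain ⟨C₁, hC₁⟩ := LA1.lf_bounds (F := F) hm hζ χ hχ u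
  set f : ℂ → ℂ := Ray.LI (LA1.psi (F := F) hm1 χ : Ideal (𝓞 F) → ℂ) with hf
  have hfL : ∀ s : ℂ, 1 < s.re → f s = LF F (fun n => χ n) s := fun s hs => LA1.LI_psi hm1 χ hs
  have hPs := fun s hs => hP (LA1.psi (F := F) hm1 χ) (LA1.norm_psi_le hm1 χ) s hs
  have hre : ∀ σ : ℝ, ((σ : ℂ) + u * Complex.I).re = σ := fun σ => by simp
  have him : ∀ σ : ℝ, ((σ : ℂ) + u * Complex.I).im = u := fun σ => by simp
  -- the prime sum
  have hS : ∀ σ : ℝ, Ray.PSL (LA1.psi (F := F) hm1 χ) (σ - 1) u =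
      SD (K := F) σ (fun v => χ (nm v) * ph u (nm v)) := by
    intro σ
    rw [Ray.PSL, Ray.WL, SD]
    refine tsum_congr fun v => ?_
    rw [Ray.wl, add_sub_cancel]
    rfl
  -- it is enough to bound the logarithmic derivative
  suffices h : ∃ C : ℝ, ∀ᶠ σ : ℝ in 𝓝[>] 1, ‖logDeriv f (σ + u * Complex.I) +
      (if u = 0 ∧ ∀ g : Gal(L/F), χ ((hζ.autToPow F g : (ZMod m)ˣ) : ZMod m) = 1 then
          ((1 / (σ - 1) : ℝ) : ℂ) else 0)‖ ≤ C by
    obtain ⟨C, hC⟩ := h
    refine ⟨C₀ + |C|, by positivity, ?_⟩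
    filter_upwards [hC, self_mem_nhdsWithin] with σ h1 hσ
    have hσ' : 1 < σ := hσ
    obtain ⟨-, -, h2⟩ := hPs ((σ : ℂ) + u * Complex.I) (by rw [hre]; exact hσ')
    rw [hre, him, hS] at h2
    have h3 := (norm_sub_le _ _).trans (add_le_add h2 h1)
    rw [add_sub_add_left_eq_sub] at h3
    exact h3.trans (by linarith [le_abs_self C])
  have hmap : Tendsto (fun σ : ℝ => (σ + u * Complex.I : ℂ)) (𝓝[>] 1)
      (𝓝 (1 + u * Complex.I)) := by
    have : Continuous fun σ : ℝ => (σ + u * Complex.I : ℂ) := by fun_prop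
    have h1 := this.tendsto 1
    rw [Complex.ofReal_one] at h1
    exact h1.mono_left nhdsWithin_le_nhds
  -- a continuous function with a lower bound
  have hlow : ∀ {G : ℂ → ℂ} {c : ℝ}, ContinuousAt G (1 + u * Complex.I) → 0 < c →
      (∀ᶠ σ : ℝ in 𝓝[>] 1, c ≤ ‖G (σ + u * Complex.I)‖) → G (1 + u * Complex.I) ≠ 0 := by
    intro G c hG hc h h0
    have h2 := (hG.tendsto.comp hmap).norm
    rw [h0, norm_zero] at h2
    exact absurd (ge_of_tendsto h2 h) (not_le.mpr hc)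
  have hexp : ∀ {x C : ℝ}, |Real.log x - 0| ≤ C → 0 < x → Real.exp (-C) ≤ x ∧ x ≤ Real.exp C := by
    intro x C h hx
    rw [sub_zero, abs_le] at h
    constructor
    · rw [← Real.le_log_iff_exp_le hx]
      exact h.1
    · rw [← Real.log_le_iff_le_exp hx]
      exact h.2
  by_cases h : u = 0 ∧ ∀ g : Gal(L/F), χ ((hζ.autToPow F g : (ZMod m)ˣ) : ZMod m) = 1
  · -- a pole
    simp only [if_pos h] at hC₁ ⊢
    obtain ⟨hu, -⟩ := h
    subst hu
    simp only [Complex.ofReal_zero, zero_mul, add_zero] at hC₁ ⊢ hmap hlow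
    obtain ⟨G, hG, hGe⟩ := LF_pole F m (fun x => χ x) hψ
    have hGe' : ∀ᶠ s in 𝓝 (1 : ℂ), 1 < s.re → G s = (s - 1) * f s := by
      filter_upwards [hGe] with s h1 h2
      rw [h1 h2, hfL s h2]
    have h0 : G 1 ≠ 0 := by
      refine hlow hG.continuousAt (Real.exp_pos (-C₁)) ?_
      filter_upwards [hC₁, hmap.eventually hGe, self_mem_nhdsWithin] with σ h1 h2 hσ
      have hσ' : 1 < σ := hσ
      have hσ0 : 0 < σ - 1 := by linarith
      obtain ⟨h3, h4⟩ := h1
      have h5 : ‖G σ‖ = (σ - 1) * ‖LF F (fun n => χ n) σ‖ := by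
        rw [h2 (by rw [Complex.ofReal_re]; exact hσ'), norm_mul]
        have : ((σ : ℂ) - 1) = ((σ - 1 : ℝ) : ℂ) := by push_cast; ring
        rw [this, Complex.norm_real, Real.norm_eq_abs, abs_of_pos hσ0]
      have h6 : 0 < ‖LF F (fun n => χ n) σ‖ := norm_pos_iff.mpr h4
      rw [h5]
      refine (hexp (x := (σ - 1) * ‖LF F (fun n => χ n) σ‖) (C := C₁) ?_ (by positivity)).1
      rw [Real.log_mul hσ0.ne' h6.ne', sub_zero]
      have h7 : Real.log (1 / (σ - 1)) = -Real.log (σ - 1) := by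
        rw [one_div, Real.log_inv]
      rw [h7] at h3
      rw [add_comm]
      simpa using h3
    exact LA1.bdd_one hG h0 hGe' fun s hs => ⟨(hPs s hs).2.1, (hPs s hs).1⟩
  · simp only [if_neg h, add_zero] at hC₁ ⊢
    by_cases hu : u = 0
    · subst hu
      obtain ⟨G, hG, hGe⟩ := LF_pole F m (fun x => χ x) hψ
      have hmap' : Tendsto (fun σ : ℝ => (σ : ℂ)) (𝓝[>] 1) (𝓝 1) := by
        simpa using hmap
      have hG1 : G 1 = 0 := by
        have h2 : Tendsto (fun σ : ℝ => ‖G σ‖) (𝓝[>] 1) (𝓝 ‖G 1‖) :=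
          (hG.continuousAt.tendsto.comp hmap').norm
        have h3 : Tendsto (fun σ : ℝ => (σ - 1) * Real.exp C₁) (𝓝[>] 1) (𝓝 0) := by
          have h4 : Continuous fun σ : ℝ => (σ - 1) * Real.exp C₁ := by fun_prop
          have h5 := (h4.tendsto 1).mono_left (nhdsWithin_le_nhds (s := Set.Ioi 1))
          simpa using h5
        have h4 : ‖G 1‖ ≤ 0 := by
          refine le_of_tendsto_of_tendsto h2 h3 ?_
          filter_upwards [hC₁, hmap'.eventually hGe, self_mem_nhdsWithin] with σ h1 h2 hσ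
          have hσ' : 1 < σ := hσ
          have hσ0 : 0 < σ - 1 := by linarith
          obtain ⟨h5, h6⟩ := h1
          simp only [Complex.ofReal_zero, zero_mul, add_zero] at h5 h6
          rw [h2 (by rw [Complex.ofReal_re]; exact hσ'), norm_mul]
          have : ((σ : ℂ) - 1) = ((σ - 1 : ℝ) : ℂ) := by push_cast; ring
          rw [this, Complex.norm_real, Real.norm_eq_abs, abs_of_pos hσ0]
          refine mul_le_mul_of_nonneg_left ?_ hσ0.le
          exact (hexp (by rw [sub_zero] at h5 ⊢; exact h5) (norm_pos_iff.mpr h6)).2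
        exact norm_le_zero_iff.mp h4
      obtain ⟨p, hp⟩ := hG
      have hd : AnalyticAt ℂ (dslope G 1) 1 := ⟨_, hp.has_fpower_series_dslope_fslope⟩
      have hde : ∀ᶠ s in 𝓝 (1 : ℂ), 1 < s.re → dslope G 1 s = f s := by
        filter_upwards [hGe] with s h1 h2
        have hne : s ≠ 1 := by
          rintro rfl
          rw [Complex.one_re] at h2
          exact lt_irrefl _ h2
        rw [dslope_of_ne _ hne, slope_def_field, hG1, sub_zero, h1 h2, mul_comm, mul_div_assoc,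
          div_self (sub_ne_zero.mpr hne), mul_one, hfL s h2]
      have h0 : dslope G 1 (1 + (0 : ℝ) * Complex.I) ≠ 0 := by
        refine hlow (by simpa using hd.continuousAt) (Real.exp_pos (-C₁)) ?_
        filter_upwards [hC₁, hmap'.eventually hde, self_mem_nhdsWithin] with σ h1 h2 hσ
        have hσ' : 1 < σ := hσ
        obtain ⟨h5, h6⟩ := h1
        have h7 := h2 (by rw [Complex.ofReal_re]; exact hσ')
        simp only [Complex.ofReal_zero, zero_mul, add_zero] at h5 h6 ⊢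
        rw [h7, hfL _ (by rw [Complex.ofReal_re]; exact hσ')]
        exact (hexp (by rw [sub_zero] at h5 ⊢; exact h5) (norm_pos_iff.mpr h6)).1
      refine LA1.bdd_zero (G := dslope G 1) (by simpa using hd) h0 ?_
      simpa using hde
    · obtain ⟨G, hG, hGe⟩ := LF_continuation F m (fun x => χ x) hψ hu
      have hGe' : ∀ᶠ s in 𝓝 (1 + u * Complex.I : ℂ), 1 < s.re → G s = f s := by
        filter_upwards [hGe] with s h1 h2
        rw [h1 h2, hfL s h2]
      have h0 : G (1 + u * Complex.I) ≠ 0 := by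
        refine hlow hG.continuousAt (Real.exp_pos (-C₁)) ?_
        filter_upwards [hC₁, hmap.eventually hGe, self_mem_nhdsWithin] with σ h1 h2 hσ
        obtain ⟨h5, h6⟩ := h1
        rw [h2 (by rw [hre]; exact hσ)]
        exact (hexp h5 (norm_pos_iff.mpr h6)).1
      exact LA1.bdd_zero hG h0 hGe'

universe u

end Pool.Agent.Lib.MP_bf61d2_nt.Artin.LA
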