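import Mathlib
import Pool.Agent.Lib.MP_bf61d2_nt.Trim.Artin.Defs63
import Pool.Agent.Lib.MP_bf61d2_nt.Trim.Artin.F40
import Pool.Agent.Lib.MP_bf61d2_nt.Trim.Artin.H19
import Pool.Agent.Lib.MP_bf61d2_nt.Trim.Artin.LA.CHARL88
import Pool.Agent.Lib.MP_bf61d2_nt.Trim.Artin.LA.DefsLA63
import Pool.Agent.Lib.MP_bf61d2_nt.Trim.Artin.LA.REGL77
import Pool.Agent.Lib.MP_bf61d2_nt.Trim.Perm.Defs
import Pool.Agent.Lib.MP_bf61d2_nt.Trim.Perm.FixField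
import Pool.Agent.Lib.MP_bf61d2_nt.Trim.Perm.Frob
import Pool.Agent.Lib.MP_bf61d2_nt.Trim.Places
import Pool.Agent.Lib.MP_bf61d2_nt.Trim.Quad

set_option autoImplicit false

/-!
ARTIN EDGE, local form (MP_bf61d2_nt), module H19L: equidistribution of the products of a
permutation character and an even Dirichlet character of the cyclotomic character.
-/

namespace NumberField
end NumberField

namespace Pool.Agent.Lib.MP_bf61d2_nt.Perm
end Pool.Agent.Lib.MP_bf61d2_nt.Perm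

namespace Pool.Agent.Lib.MP_bf61d2_nt.Artin
end Pool.Agent.Lib.MP_bf61d2_nt.Artin

namespace Pool.Agent.Lib.MP_bf61d2_nt.Artin.H19
end Pool.Agent.Lib.MP_bf61d2_nt.Artin.H19

namespace Pool.Agent.Lib.MP_bf61d2_nt.Artin.LA

open NumberField IsDedekindDomain Filter Topology Polynomial Module

open Pool.Agent.Lib.MP_bf61d2_nt.Perm

open Pool.Agent.Lib.MP_bf61d2_nt.Artin

open scoped Classical nonZeroDivisors

open H19

variable {K L : Type*} [Field K] [NumberField K] [Field L] [NumberField L] [Algebra K L]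
  [IsGalois K L] [Fintype Gal(L/K)]

/-- H19L -/
theorem ceq_fp_charL {Fr : HeightOneSpectrum (𝓞 K) → Gal(L/K)} (hFr : ∀ v, IsFr v (Fr v))
    {m : ℕ} [NeZero m] (hm : 2 < m) {ζ : L} (hζ : IsPrimitiveRoot ζ m) (H : Subgroup Gal(L/K))
    (χ : DirichletCharacter ℂ m) (hχ : χ.Even) :
    CEqL Fr (fun g => (fp (Gal(L/K) ⧸ H) g : ℂ) * χ ((hζ.autToPow K g : (ZMod m)ˣ) : ZMod m)) := by
  intro u
  have hfd : FiniteDimensional K L := Module.Finite.of_restrictScalars_finite ℚ K L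
  set F := IntermediateField.fixedField H with hF
  obtain ⟨C₁, h10, h1⟩ := swapL (K := K) (M := L) (Fr := Fr) (F := F) (finite_fx hFr F)
  obtain ⟨C₂, h20, h2⟩ := regroupL (K := K) (L := F) (a := fun _ => 1) (b := fun _ => 1) (A := 1)
    (fun _ => by simp) (fun _ => by simp) ∅ (fun _ _ _ => rfl)
  obtain ⟨C₃, h30, h3⟩ := charsumL F L hm hζ χ hχ u
  set S := (finite_cyc (K := K) hζ).toFinset with hS
  set ψ : Gal(L/K) →* ℂ := (χ.toMonoidHom : ZMod m →* ℂ).comp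
    ((Units.coeHom (ZMod m)).comp (hζ.autToPow K)) with hψ
  have hψ' : ∀ g, χ ((hζ.autToPow K g : (ZMod m)ˣ) : ZMod m) = ψ g := fun g => rfl
  set A : ℝ := ∑ g : Gal(L/K), (fp (Gal(L/K) ⧸ H) g : ℝ) with hA
  have hA0 : 0 ≤ A := Finset.sum_nonneg fun g _ => Nat.cast_nonneg _
  have hfA : ∀ g, (fp (Gal(L/K) ⧸ H) g : ℝ) ≤ A := fun g =>
    Finset.single_le_sum (f := fun g : Gal(L/K) => (fp (Gal(L/K) ⧸ H) g : ℝ))
      (fun g _ => Nat.cast_nonneg _) (Finset.mem_univ _)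
  refine ⟨C₁ + C₂ + C₃ + S.card * (2 * A), by positivity, ?_⟩
  filter_upwards [h3, self_mem_nhdsWithin] with σ h3 hσ
  have hσ' : 1 < σ := hσ
  -- the four sums
  set T₀ : ℂ := SD σ (fun v : HeightOneSpectrum (𝓞 K) =>
    (fp (Gal(L/K) ⧸ H) (Fr v) : ℂ) * χ ((hζ.autToPow K (Fr v) : (ZMod m)ˣ) : ZMod m) *
      ph u (nm v)) with hT₀
  set T₁ : ℂ := SD σ (fun v : HeightOneSpectrum (𝓞 K) =>
    (fx F (Fr v) : ℂ) * GG χ u (nm v)) with hT₁
  set T₂ : ℂ := SD σ (fun v : HeightOneSpectrum (𝓞 K) => (r1 F v : ℂ) * GG χ u (nm v)) with hT₂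
  set T₃ : ℂ := SD σ (fun w : HeightOneSpectrum (𝓞 F) => GG χ u (nm w)) with hT₃
  have hG := norm_GG_le χ u
  have efx : ∀ g, fx F g = fp (Gal(L/K) ⧸ H) g := fun g => by rw [hF, fx_fixedField]
  have b1 : ∀ v : HeightOneSpectrum (𝓞 K), ‖(fx F (Fr v) : ℂ) * GG χ u (nm v)‖ ≤ A := fun v => by
    rw [norm_mul, Complex.norm_natCast, efx]
    calc (fp (Gal(L/K) ⧸ H) (Fr v) : ℝ) * ‖GG χ u (nm v)‖ ≤ A * 1 :=
          mul_le_mul (hfA _) (hG _) (norm_nonneg _) hA0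
      _ = A := mul_one A
  -- T₀ and T₁
  have d0 : ‖T₀ - T₁‖ ≤ S.card * (2 * A) := by
    have e : ∀ v : HeightOneSpectrum (𝓞 K),
        (fp (Gal(L/K) ⧸ H) (Fr v) : ℂ) * χ ((hζ.autToPow K (Fr v) : (ZMod m)ˣ) : ZMod m) *
          ph u (nm v) - (fx F (Fr v) : ℂ) * GG χ u (nm v) = (fp (Gal(L/K) ⧸ H) (Fr v) : ℂ) *
          ((χ ((hζ.autToPow K (Fr v) : (ZMod m)ˣ) : ZMod m) - χ (nm v)) * ph u (nm v)) := by
      intro v
      rw [efx, GG]
      ring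
    have b0 : ∀ v : HeightOneSpectrum (𝓞 K),
        ‖(fp (Gal(L/K) ⧸ H) (Fr v) : ℂ) * χ ((hζ.autToPow K (Fr v) : (ZMod m)ˣ) : ZMod m) *
          ph u (nm v)‖ ≤ A := fun v => by
      rw [norm_mul, norm_ph, mul_one, norm_mul, Complex.norm_natCast]
      calc (fp (Gal(L/K) ⧸ H) (Fr v) : ℝ) *
            ‖χ ((hζ.autToPow K (Fr v) : (ZMod m)ˣ) : ZMod m)‖ ≤ A * 1 :=
            mul_le_mul (hfA _) (χ.norm_le_one _) (norm_nonneg _) hA0
        _ = A := mul_one A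
    rw [hT₀, hT₁, SD_sub hσ' b0 b1]
    simp_rw [e]
    refine norm_SD_finite hσ' (fun v => ?_) S fun v hv => ?_
    · rw [norm_mul, norm_mul, norm_ph, mul_one, Complex.norm_natCast]
      have h4 : ‖χ ((hζ.autToPow K (Fr v) : (ZMod m)ˣ) : ZMod m) - χ (nm v)‖ ≤ 2 := by
        refine (norm_sub_le _ _).trans ?_
        have := χ.norm_le_one ((hζ.autToPow K (Fr v) : (ZMod m)ˣ) : ZMod m)
        have := χ.norm_le_one (nm v : ZMod m)
        linarith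
      calc (fp (Gal(L/K) ⧸ H) (Fr v) : ℝ) *
            ‖χ ((hζ.autToPow K (Fr v) : (ZMod m)ˣ) : ZMod m) - χ (nm v)‖ ≤ A * 2 :=
            mul_le_mul (hfA _) h4 (norm_nonneg _) hA0
        _ = 2 * A := mul_comm _ _
    · have h4 : ((hζ.autToPow K (Fr v) : (ZMod m)ˣ) : ZMod m) = (nm v : ZMod m) := by
        by_contra hcon
        exact hv ((finite_cyc (K := K) hζ).mem_toFinset.mpr ⟨Fr v, hFr v, hcon⟩)
      rw [h4, sub_self, zero_mul, mul_zero]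
  -- T₁ and T₂
  have d1 : ‖T₂ - T₁‖ ≤ C₁ :=
    h1 σ hσ' (fun v => GG χ u (nm v)) fun v => (hG _).trans (by norm_num)
  -- T₂ and T₃
  have d2 : ‖T₃ - T₂‖ ≤ C₂ := by
    have h5 := h2 (fun n => GG χ u n) hG σ hσ'
    simp only [one_mul] at h5
    exact h5
  -- the mean value
  have hmean : (if u = 0 then (∑ g : Gal(L/K), (fp (Gal(L/K) ⧸ H) g : ℂ) *
      χ ((hζ.autToPow K g : (ZMod m)ˣ) : ZMod m)) / Fintype.card Gal(L/K) else 0) *
      ((1 / (σ - 1) : ℝ) : ℂ) =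
      if u = 0 ∧ ∀ g : Gal(L/F), χ ((hζ.autToPow F g : (ZMod m)ˣ) : ZMod m) = 1 then
          ((1 / (σ - 1) : ℝ) : ℂ) else 0 := by
    have h4 : (∀ g : Gal(L/F), χ ((hζ.autToPow F g : (ZMod m)ˣ) : ZMod m) = 1) ↔
        ∀ h ∈ H, ψ h = 1 := forall_iff hζ H (fun x => χ (x : ZMod m) = 1)
    have h5 := mean_fp_mul H ψ
    simp only [hψ']
    rw [h5]
    simp only [h4]
    by_cases hu : u = 0
    · by_cases hh : ∀ h ∈ H, ψ h = 1
      · rw [if_pos hu, if_pos hh, if_pos ⟨hu, hh⟩, one_mul]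
      · rw [if_pos hu, if_neg hh, if_neg (fun h => hh h.2), zero_mul]
    · rw [if_neg hu, if_neg (fun h => hu h.1), zero_mul]
  rw [hmean]
  have d3 : ‖T₃ - if u = 0 ∧ ∀ g : Gal(L/F), χ ((hζ.autToPow F g : (ZMod m)ˣ) : ZMod m) = 1 then
      ((1 / (σ - 1) : ℝ) : ℂ) else 0‖ ≤ C₃ := h3
  set R : ℂ := if u = 0 ∧ ∀ g : Gal(L/F), χ ((hζ.autToPow F g : (ZMod m)ˣ) : ZMod m) = 1 then
      ((1 / (σ - 1) : ℝ) : ℂ) else 0 with hR
  have e : T₀ - R = (T₀ - T₁) - (T₂ - T₁) - (T₃ - T₂) + (T₃ - R) := by ring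
  show ‖T₀ - R‖ ≤ _
  rw [e]
  calc ‖(T₀ - T₁) - (T₂ - T₁) - (T₃ - T₂) + (T₃ - R)‖ ≤
        ‖T₀ - T₁‖ + ‖T₂ - T₁‖ + ‖T₃ - T₂‖ + ‖T₃ - R‖ := by
        refine (norm_add_le _ _).trans (add_le_add_left ?_ _)
        refine (norm_sub_le _ _).trans (add_le_add_left ?_ _)
        exact norm_sub_le _ _
    _ ≤ _ := by linarith

end Pool.Agent.Lib.MP_bf61d2_nt.Artin.LA
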