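import Mathlib
import Pool.Agent.Lib.MP_bf61d2_nt.Trim.Artin.C38
import Pool.Agent.Lib.MP_bf61d2_nt.Trim.Artin.Defs63
import Pool.Agent.Lib.MP_bf61d2_nt.Trim.Artin.E38
import Pool.Agent.Lib.MP_bf61d2_nt.Trim.Artin.F40
import Pool.Agent.Lib.MP_bf61d2_nt.Trim.Artin.G38
import Pool.Agent.Lib.MP_bf61d2_nt.Trim.Artin.LA.DefsLA63
import Pool.Agent.Lib.MP_bf61d2_nt.Trim.Artin.LA.H19L77
import Pool.Agent.Lib.MP_bf61d2_nt.Trim.Artin.LA.REGL77
import Pool.Agent.Lib.MP_bf61d2_nt.Trim.Bessel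
import Pool.Agent.Lib.MP_bf61d2_nt.Trim.Perm.Defs
import Pool.Agent.Lib.MP_bf61d2_nt.Trim.Places

set_option autoImplicit false

/-!
ARTIN EDGE, local form (MP_bf61d2_nt), module CHEBL: the theorem of Chebotarev with the twists
`n ^ (-i u)`, with the weights `log (N v) * (N v) ^ (-σ)`.
-/

namespace NumberField
end NumberField

namespace Pool.Agent.Lib.MP_bf61d2_nt.Perm
end Pool.Agent.Lib.MP_bf61d2_nt.Perm

namespace Pool.Agent.Lib.MP_bf61d2_nt.Artin
end Pool.Agent.Lib.MP_bf61d2_nt.Artin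

namespace Pool.Agent.Lib.MP_bf61d2_nt.Artin.X38
end Pool.Agent.Lib.MP_bf61d2_nt.Artin.X38

namespace Pool.Agent.Lib.MP_bf61d2_nt.Artin.LA

open NumberField IsDedekindDomain Filter Topology Polynomial Module

open Pool.Agent.Lib.MP_bf61d2_nt.Perm

open Pool.Agent.Lib.MP_bf61d2_nt.Artin

open scoped Classical nonZeroDivisors

universe u

/-! ### Closure properties -/

section

variable {K M : Type*} [Field K] [NumberField K] [Field M] [NumberField M] [Algebra K M]
  [Fintype Gal(M/K)]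

lemma CEqL.add {Fr : HeightOneSpectrum (𝓞 K) → Gal(M/K)} {f g : Gal(M/K) → ℂ} (hf : CEqL Fr f)
    (hg : CEqL Fr g) : CEqL Fr (f + g) := by
  intro u
  obtain ⟨C₁, h10, h1⟩ := hf u
  obtain ⟨C₂, h20, h2⟩ := hg u
  refine ⟨C₁ + C₂, by positivity, ?_⟩
  filter_upwards [h1, h2, self_mem_nhdsWithin] with σ h1 h2 hσ
  have hσ' : 1 < σ := hσ
  have e1 : SD σ (fun v => (f + g) (Fr v) * ph u (nm v)) =
      SD σ (fun v => f (Fr v) * ph u (nm v)) + SD σ (fun v => g (Fr v) * ph u (nm v)) := by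
    unfold SD
    rw [← (summable_SD hσ' (bdd_fr Fr f u)).tsum_add (summable_SD hσ' (bdd_fr Fr g u))]
    refine tsum_congr fun v => ?_
    simp only [Pi.add_apply]
    ring
  have e2 : (if u = 0 then (∑ x, (f + g) x) / (Fintype.card Gal(M/K) : ℂ) else 0) =
      (if u = 0 then (∑ x, f x) / (Fintype.card Gal(M/K) : ℂ) else 0) +
      (if u = 0 then (∑ x, g x) / (Fintype.card Gal(M/K) : ℂ) else 0) := by
    split_ifs
    · simp only [Pi.add_apply, Finset.sum_add_distrib]
      ring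
    · ring
  rw [e1, e2, add_mul, add_sub_add_comm]
  exact (norm_add_le _ _).trans (add_le_add h1 h2)

lemma CEqL.smul {Fr : HeightOneSpectrum (𝓞 K) → Gal(M/K)} {f : Gal(M/K) → ℂ} (a : ℂ)
    (hf : CEqL Fr f) : CEqL Fr (a • f) := by
  intro u
  obtain ⟨C₁, h10, h1⟩ := hf u
  refine ⟨‖a‖ * C₁, by positivity, ?_⟩
  filter_upwards [h1] with σ h1
  have e1 : SD σ (fun v => (a • f) (Fr v) * ph u (nm v)) =
      a * SD σ (fun v => f (Fr v) * ph u (nm v)) := by
    unfold SD
    rw [← tsum_mul_left]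
    refine tsum_congr fun v => ?_
    simp only [Pi.smul_apply, smul_eq_mul]
    ring
  have e2 : (if u = 0 then (∑ x, (a • f) x) / (Fintype.card Gal(M/K) : ℂ) else 0) =
      a * (if u = 0 then (∑ x, f x) / (Fintype.card Gal(M/K) : ℂ) else 0) := by
    split_ifs
    · simp only [Pi.smul_apply, smul_eq_mul, ← Finset.mul_sum]
      ring
    · ring
  rw [e1, e2, mul_assoc, ← mul_sub, norm_mul]
  exact mul_le_mul_of_nonneg_left h1 (norm_nonneg _)

lemma CEqL.zero (Fr : HeightOneSpectrum (𝓞 K) → Gal(M/K)) : CEqL Fr (0 : Gal(M/K) → ℂ) := by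
  intro u
  refine ⟨0, le_rfl, Filter.Eventually.of_forall fun σ => ?_⟩
  simp [SD]

lemma CEqL.sum {Fr : HeightOneSpectrum (𝓞 K) → Gal(M/K)} {ι : Type*} (s : Finset ι)
    (F : ι → Gal(M/K) → ℂ) (hF : ∀ i ∈ s, CEqL Fr (F i)) : CEqL Fr (∑ i ∈ s, F i) := by
  classical
  induction s using Finset.induction_on with
  | empty => simpa using CEqL.zero Fr
  | insert a s ha ih =>
    rw [Finset.sum_insert ha]
    exact (hF a (Finset.mem_insert_self a s)).add
      (ih fun i hi => hF i (Finset.mem_insert_of_mem hi))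

end

section

variable {K L : Type*} [Field K] [NumberField K] [Field L] [NumberField L] [Algebra K L]
  [IsGalois K L] [Fintype Gal(L/K)]

theorem ceq_classL {Fr : HeightOneSpectrum (𝓞 K) → Gal(L/K)} (hFr : ∀ v, IsFr v (Fr v))
    {m : ℕ} [NeZero m] (hm : 2 < m) {ζ : L} (hζ : IsPrimitiveRoot ζ m) {g₀ : Gal(L/K)}
    (hg : Star (hζ.autToPow K) g₀) : CEqL Fr (fun g => if IsConj g₀ g then 1 else 0) := by
  obtain ⟨κ, hκ0, hκ⟩ := class_indicator (hζ.autToPow K) hg
  set c : Gal(L/K) →* (ZMod m)ˣ := hζ.autToPow K with hc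
  set a : (ZMod m)ˣ := c g₀ with ha
  have hκ0' : (κ : ℂ) ≠ 0 := Nat.cast_ne_zero.mpr hκ0
  have hφ0 : (m.totient : ℂ) ≠ 0 := Nat.cast_ne_zero.mpr (Nat.totient_pos.2 (by omega)).ne'
  have hne : a ≠ -a := by
    intro h
    have : Fact (2 < m) := ⟨hm⟩
    have h1 : (a : ZMod m) = -(a : ZMod m) := by
      conv_lhs => rw [h]
      push_cast
      rfl
    have h2 : (-1 : ZMod m) = 1 := by
      have h3 : (a : ZMod m) * ((a⁻¹ : (ZMod m)ˣ) : ZMod m) = 1 := Units.mul_inv a
      calc (-1 : ZMod m) = -((a : ZMod m) * ((a⁻¹ : (ZMod m)ˣ) : ZMod m)) := by rw [h3]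
        _ = (-(a : ZMod m)) * ((a⁻¹ : (ZMod m)ˣ) : ZMod m) := by ring
        _ = (a : ZMod m) * ((a⁻¹ : (ZMod m)ˣ) : ZMod m) := by rw [← h1]
        _ = 1 := h3
    exact ZMod.neg_one_ne_one h2
  have e : (fun g : Gal(L/K) => if IsConj g₀ g then (1 : ℂ) else 0) =
      ∑ χ : DirichletCharacter ℂ m, (2 / (m.totient * κ) * ((1 + χ (-1)) / 2 *
        χ ((a⁻¹ : (ZMod m)ˣ) : ZMod m))) •
        (fun g : Gal(L/K) => (fp (Gal(L/K) ⧸ Subgroup.zpowers g₀) g : ℂ) * χ ((c g : (ZMod m)ˣ) : ZMod m)) := by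
    funext x
    rw [Finset.sum_apply]
    have h1 : ∀ χ : DirichletCharacter ℂ m, ((2 / (m.totient * κ) * ((1 + χ (-1)) / 2 *
        χ ((a⁻¹ : (ZMod m)ˣ) : ZMod m))) •
        (fun g : Gal(L/K) => (fp (Gal(L/K) ⧸ Subgroup.zpowers g₀) g : ℂ) *
          χ ((c g : (ZMod m)ˣ) : ZMod m))) x =
        (2 / (m.totient * κ) * (fp (Gal(L/K) ⧸ Subgroup.zpowers g₀) x : ℂ)) *
        (((1 + χ (-1)) / 2 * χ ((a⁻¹ : (ZMod m)ˣ) : ZMod m)) * χ ((c x : (ZMod m)ˣ) : ZMod m)) := by
      intro χ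
      rw [Pi.smul_apply, smul_eq_mul]
      ring
    rw [Finset.sum_congr rfl fun χ _ => h1 χ, ← Finset.mul_sum, X38.sum_even]
    have h2 := hκ x
    have h3 : (c x = a ∨ c x = -a) ↔ (a = c x ∨ a = -c x) := by
      constructor
      · rintro (h | h)
        · exact Or.inl h.symm
        · right; rw [h, neg_neg]
      · rintro (h | h)
        · exact Or.inl h.symm
        · right; rw [h, neg_neg]
    have h4 : ((if a = c x then (1 : ℂ) else 0) + (if a = -c x then 1 else 0)) =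
        if (c x = a ∨ c x = -a) then 1 else 0 := by
      by_cases h5 : a = c x
      · have h6 : a ≠ -c x := by rw [← h5]; exact hne
        rw [if_pos h5, if_neg h6, if_pos (h3.2 (Or.inl h5)), add_zero]
      · by_cases h6 : a = -c x
        · rw [if_neg h5, if_pos h6, if_pos (h3.2 (Or.inr h6)), zero_add]
        · rw [if_neg h5, if_neg h6, if_neg (fun h => (h3.1 h).elim h5 h6), add_zero]
    rw [h4]
    by_cases hcx : c x = a ∨ c x = -a
    · rw [if_pos hcx] at h2 ⊢
      rw [h2]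
      by_cases hj : IsConj g₀ x
      · rw [if_pos hj, if_pos hj]
        field_simp
      · rw [if_neg hj, if_neg hj]
        simp
    · rw [if_neg hcx] at h2 ⊢
      have hj : ¬ IsConj g₀ x := by
        intro hj
        rw [if_pos hj] at h2
        exact hκ0 h2.symm
      rw [if_neg hj]
      simp
  rw [e]
  refine CEqL.sum _ _ fun χ _ => ?_
  rcases DirichletCharacter.even_or_odd χ with hχ | hχ
  · exact (ceq_fp_charL hFr hm hζ _ χ hχ).smul _
  · have h1 : χ (-1) = -1 := hχ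
    have h2 : (2 / (m.totient * κ) * ((1 + χ (-1)) / 2 *
        χ ((a⁻¹ : (ZMod m)ˣ) : ZMod m)) : ℂ) = 0 := by
      rw [h1]; ring
    rw [h2, zero_smul]
    exact CEqL.zero Fr

end

namespace X38

open Pool.Agent.Lib.MP_bf61d2_nt.Artin.X38

/-- Functions that agree outside a finite set of places. -/
lemma SD_congr_fin38 {K : Type*} [Field K] [NumberField K] {a b : HeightOneSpectrum (𝓞 K) → ℂ}
    {A : ℝ} (ha : ∀ v, ‖a v‖ ≤ A) (hb : ∀ v, ‖b v‖ ≤ A) (h : {v | a v ≠ b v}.Finite) :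
    ∃ C : ℝ, 0 ≤ C ∧ ∀ σ : ℝ, 1 < σ → ‖SD σ a - SD σ b‖ ≤ C := by
  refine ⟨|(h.toFinset.card : ℝ) * (2 * A)|, abs_nonneg _, fun σ hσ => ?_⟩
  refine (SD_congr_fin ha hb h.toFinset (fun v hv => ?_) hσ).trans (le_abs_self _)
  by_contra hcon
  exact hv (h.mem_toFinset.mpr hcon)

section

variable {K L : Type*} [Field K] [NumberField K] [Field L] [NumberField L] [Algebra K L]
  [IsGalois K L] [Fintype Gal(L/K)]

/-- Class functions supported on the separated elements. -/
lemma ceq_starL {Fr : HeightOneSpectrum (𝓞 K) → Gal(L/K)} (hFr : ∀ v, IsFr v (Fr v))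
    {m : ℕ} [NeZero m] (hm : 2 < m) {ζ : L} (hζ : IsPrimitiveRoot ζ m) {F : Gal(L/K) → ℂ}
    (hF : IsClassFn F) : CEqL Fr (fun g => if Star (hζ.autToPow K) g then F g else 0) := by
  set c := hζ.autToPow K with hc
  set N : Gal(L/K) → ℕ := fun g => (Finset.univ.filter fun x : Gal(L/K) => IsConj g x).card with hN
  have hN0 : ∀ g, N g ≠ 0 := fun g => by
    have : g ∈ Finset.univ.filter fun x : Gal(L/K) => IsConj g x :=
      Finset.mem_filter.2 ⟨Finset.mem_univ _, IsConj.refl g⟩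
    exact Finset.card_ne_zero_of_mem this
  have hNc : ∀ g h, IsConj g h → N g = N h := by
    intro g h hgh
    rw [hN]
    simp only
    congr 1
    ext x
    simp only [Finset.mem_filter, Finset.mem_univ, true_and]
    exact ⟨fun hx => hgh.symm.trans hx, fun hx => hgh.trans hx⟩
  have e : (fun g : Gal(L/K) => if Star c g then F g else 0) =
      ∑ g₀ ∈ Finset.univ.filter (fun g₀ : Gal(L/K) => Star c g₀), (F g₀ / N g₀) •
        (fun g : Gal(L/K) => if IsConj g₀ g then (1 : ℂ) else 0) := by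
    funext g
    rw [Finset.sum_apply]
    simp only [Pi.smul_apply, smul_eq_mul, mul_ite, mul_one, mul_zero]
    by_cases hg : Star c g
    · rw [if_pos hg, ← Finset.sum_filter]
      have h1 : (Finset.univ.filter (fun g₀ : Gal(L/K) => Star c g₀)).filter
          (fun g₀ => IsConj g₀ g) = Finset.univ.filter fun x : Gal(L/K) => IsConj g x := by
        ext x
        simp only [Finset.mem_filter, Finset.mem_univ, true_and]
        exact ⟨fun hx => hx.2.symm, fun hx => ⟨star_conj hx hg, hx.symm⟩⟩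
      rw [h1]
      have h2 : ∀ x ∈ Finset.univ.filter (fun x : Gal(L/K) => IsConj g x),
          F x / N x = F g / N g := by
        intro x hx
        rw [Finset.mem_filter] at hx
        rw [isConj_class hF hx.2, hNc _ _ hx.2]
      rw [Finset.sum_congr rfl h2, Finset.sum_const, nsmul_eq_mul]
      have h3 : ((Finset.univ.filter (fun x : Gal(L/K) => IsConj g x)).card : ℂ) = N g := rfl
      rw [h3]
      have h4 : (N g : ℂ) ≠ 0 := Nat.cast_ne_zero.mpr (hN0 g)
      field_simp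
    · rw [if_neg hg]
      symm
      refine Finset.sum_eq_zero fun g₀ hg₀ => ?_
      rw [Finset.mem_filter] at hg₀
      rw [if_neg]
      intro h
      exact hg (star_conj h hg₀.2)
  rw [e]
  refine CEqL.sum _ _ fun g₀ hg₀ => ?_
  rw [Finset.mem_filter] at hg₀
  exact (ceq_classL hFr hm hζ hg₀.2).smul _

/-- The total weight. -/
noncomputable def PD38 (K : Type*) [Field K] [NumberField K] (σ : ℝ) : ℝ :=
  ∑' v : HeightOneSpectrum (𝓞 K), wd σ v

lemma PSL_bound38 {Fr : HeightOneSpectrum (𝓞 K) → Gal(L/K)} (hFr : ∀ v, IsFr v (Fr v))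
    {m : ℕ} [NeZero m] (hm : 2 < m) {ζ : L} (hζ : IsPrimitiveRoot ζ m) :
    ∃ C : ℝ, 0 ≤ C ∧ ∀ᶠ σ : ℝ in 𝓝[>] 1, |PD38 K σ - 1 / (σ - 1)| ≤ C := by
  have hev : (1 : DirichletCharacter ℂ m).Even := by
    show (1 : DirichletCharacter ℂ m) (-1) = 1
    exact MulChar.one_apply isUnit_one.neg
  obtain ⟨C, hC0, hC⟩ := ceq_fp_charL hFr hm hζ ⊤ 1 hev 0
  refine ⟨C, hC0, ?_⟩
  filter_upwards [hC] with σ h1
  have hfp : ∀ g : Gal(L/K), fp (Gal(L/K) ⧸ (⊤ : Subgroup Gal(L/K))) g = 1 := by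
    intro g
    unfold fp
    have h2 : Subsingleton (Gal(L/K) ⧸ (⊤ : Subgroup Gal(L/K))) :=
      QuotientGroup.subsingleton_quotient_top
    rw [Nat.card_eq_one_iff_unique]
    refine ⟨⟨fun x y => Subtype.ext (Subsingleton.elim _ _)⟩, ⟨⟨(1 : Gal(L/K)), ?_⟩⟩⟩
    exact Subsingleton.elim _ _
  have hone : ∀ g : Gal(L/K), (fp (Gal(L/K) ⧸ (⊤ : Subgroup Gal(L/K))) g : ℂ) *
      (1 : DirichletCharacter ℂ m) ((hζ.autToPow K g : (ZMod m)ˣ) : ZMod m) = 1 := by
    intro g
    rw [hfp, MulChar.one_apply_coe]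
    simp
  have hn : (Fintype.card Gal(L/K) : ℂ) ≠ 0 := Nat.cast_ne_zero.mpr Fintype.card_ne_zero
  simp only [hone] at h1
  rw [if_pos trivial, Finset.sum_const, Finset.card_univ, nsmul_eq_mul, mul_one, div_self hn,
    one_mul] at h1
  have h3 : SD σ (fun v : HeightOneSpectrum (𝓞 K) => (1 : ℂ) * ph 0 (nm v)) =
      ((PD38 K σ : ℝ) : ℂ) := by
    rw [SD, PD38, Complex.ofReal_tsum]
    refine tsum_congr fun v => ?_
    simp [ph]
  rw [h3, ← Complex.ofReal_sub, Complex.norm_real, Real.norm_eq_abs] at h1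
  exact h1

end

lemma tendsto_inv_atTop38 : Tendsto (fun σ : ℝ => (1 / (σ - 1))) (𝓝[>] 1) atTop := by
  have h1 : Tendsto (fun σ : ℝ => σ - 1) (𝓝[>] 1) (𝓝[>] 0) := by
    refine tendsto_nhdsWithin_iff.2 ⟨?_, ?_⟩
    · have : Tendsto (fun σ : ℝ => σ - 1) (𝓝 1) (𝓝 (1 - 1)) := tendsto_id.sub_const 1
      rw [sub_self] at this
      exact this.mono_left nhdsWithin_le_nhds
    · filter_upwards [self_mem_nhdsWithin] with σ hσ
      have : (1 : ℝ) < σ := hσ
      exact sub_pos.2 this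
  have h2 := tendsto_inv_nhdsGT_zero.comp h1
  refine h2.congr fun σ => ?_
  rw [one_div]
  rfl

section

variable {K M : Type*} [Field K] [NumberField K] [Field M] [NumberField M] [Algebra K M]
  [IsGalois K M] [Fintype Gal(M/K)]

/-- The step from an extension with a large cyclotomic part. -/
lemma cheb_stepL {L : Type*} [Field L] [NumberField L] [Algebra K L] [Algebra M L]
    [IsScalarTower K M L] [IsGalois K L] [Fintype Gal(L/K)]
    {Fr : HeightOneSpectrum (𝓞 K) → Gal(M/K)} (hFr : ∀ v, IsFr v (Fr v))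
    {FrL : HeightOneSpectrum (𝓞 K) → Gal(L/K)} (hFrL : ∀ v, IsFr v (FrL v))
    {m : ℕ} [NeZero m] (hm : 2 < m) {ζ : L} (hζ : IsPrimitiveRoot ζ m)
    {f : Gal(M/K) → ℂ} (hf : IsClassFn f) {A η : ℝ} (hA : 0 < A) (hfA : ∀ g, ‖f g‖ ≤ A)
    (hη : 0 ≤ η) (hcard : (Nat.card {g : Gal(L/K) // ¬ Star (hζ.autToPow K) g} : ℝ) ≤
      η * Nat.card Gal(L/K)) (u : ℝ) :
    ∃ C : ℝ, 0 ≤ C ∧ ∀ᶠ σ : ℝ in 𝓝[>] 1,
      ‖SD σ (fun v => f (Fr v) * ph u (nm v)) -
        (if u = 0 then (∑ g, f g) / Fintype.card Gal(M/K) else 0) * ((1 / (σ - 1) : ℝ) : ℂ)‖ ≤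
      2 * A * η * (1 / (σ - 1)) + C := by
  have hfd : FiniteDimensional K M := Module.Finite.of_restrictScalars_finite ℚ K M
  have hfd2 : FiniteDimensional K L := Module.Finite.of_restrictScalars_finite ℚ K L
  set c := hζ.autToPow K with hc
  set res : Gal(L/K) →* Gal(M/K) := AlgEquiv.restrictNormalHom M with hres
  have hsurj : Function.Surjective res := AlgEquiv.restrictNormalHom_surjective L
  set F : Gal(L/K) → ℂ := fun g => f (res g) with hFdef
  have hF : IsClassFn F := fun g h => by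
    rw [hFdef]
    simp only [map_mul, map_inv]
    exact hf _ _
  have hFA : ∀ g, ‖F g‖ ≤ A := fun g => hfA _
  -- finitely many exceptions
  obtain ⟨C₀, hC₀0, hC₀⟩ := SD_congr_fin38 (K := K) (a := fun v => f (Fr v) * ph u (nm v))
    (b := fun v => F (FrL v) * ph u (nm v)) (A := A)
    (fun v => by rw [norm_mul, ph_norm, mul_one]; exact hfA _)
    (fun v => by rw [norm_mul, ph_norm, mul_one]; exact hFA _)
    (by
      refine (finite_not_conj K M).subset fun v hv => ?_
      refine ⟨Fr v, res (FrL v), hFr v, isFr_restrict (hFrL v), fun hcon => hv ?_⟩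
      show f (Fr v) * ph u (nm v) = f (res (FrL v)) * ph u (nm v)
      rw [isConj_class hf hcon])
  -- the separated part
  set F1 : Gal(L/K) → ℂ := fun g => if Star c g then F g else 0 with hF1
  set F2 : Gal(L/K) → ℂ := fun g => if Star c g then 0 else F g with hF2
  set I1 : Gal(L/K) → ℂ := fun g => if Star c g then 1 else 0 with hI1
  obtain ⟨C₁, hC₁0, hC₁⟩ := ceq_starL hFrL hm hζ hF u
  obtain ⟨C₂, hC₂0, hC₂⟩ := ceq_starL hFrL hm hζ (F := fun _ => 1) (fun _ _ => rfl) 0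
  obtain ⟨C₃, hC₃0, hC₃⟩ := PSL_bound38 hFrL hm hζ
  refine ⟨C₀ + C₁ + A * (C₂ + C₃), by positivity, ?_⟩
  have hlog := (tendsto_inv_atTop38.eventually_ge_atTop 0)
  filter_upwards [hC₁, hC₂, hC₃, hlog, self_mem_nhdsWithin] with σ h1 h2 h3 hlog hσ
  have hσ' : 1 < σ := hσ
  set Lg : ℝ := (1 / (σ - 1)) with hLg
  set n : ℝ := (Fintype.card Gal(L/K) : ℝ) with hn
  have hn0 : 0 < n := by rw [hn]; exact_mod_cast Fintype.card_pos
  -- densities
  set k : ℝ := (Nat.card {g : Gal(L/K) // ¬ Star c g} : ℝ) with hk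
  have hkn : k / n ≤ η := by
    rw [div_le_iff₀ hn0, hn, ← Nat.card_eq_fintype_card]
    exact hcard
  have hk2 : k = ∑ g : Gal(L/K), if Star c g then (0 : ℝ) else 1 := by
    have h4 : Nat.card {g : Gal(L/K) // ¬ Star c g} =
        (Finset.univ.filter fun g : Gal(L/K) => ¬ Star c g).card := by
      rw [Nat.card_eq_fintype_card, Fintype.card_subtype]
    rw [hk, h4, Finset.card_filter]
    push_cast
    refine Finset.sum_congr rfl fun g _ => ?_
    by_cases hg : Star c g <;> simp [hg]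
  have hk3 : ∑ g : Gal(L/K), (if Star c g then (1 : ℝ) else 0) = n - k := by
    rw [hk2, hn, ← Finset.card_univ, eq_sub_iff_add_eq, ← Finset.sum_add_distrib]
    have : ∀ g ∈ (Finset.univ : Finset Gal(L/K)),
        ((if Star c g then (1 : ℝ) else 0) + if Star c g then 0 else 1) = 1 := by
      intro g _
      split_ifs <;> norm_num
    rw [Finset.sum_congr rfl this]
    simp
  -- the sums
  set X : ℂ := SD σ (fun v => f (Fr v) * ph u (nm v)) with hX
  set Y : ℂ := SD σ (fun v => F (FrL v) * ph u (nm v)) with hY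
  set Y1 : ℂ := SD σ (fun v => F1 (FrL v) * ph u (nm v)) with hY1
  set Y2 : ℂ := SD σ (fun v => F2 (FrL v) * ph u (nm v)) with hY2
  have hYY : Y = Y1 + Y2 := by
    rw [hY, hY1, hY2]
    unfold SD
    rw [← (summable_SD hσ' (bdd_fr FrL F1 u)).tsum_add (summable_SD hσ' (bdd_fr FrL F2 u))]
    refine tsum_congr fun v => ?_
    have h4 : F (FrL v) = F1 (FrL v) + F2 (FrL v) := by
      rw [hF1, hF2]
      simp only
      split_ifs <;> simp
    show (wd σ v : ℂ) * (F (FrL v) * ph u (nm v)) = _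
    rw [h4]
    ring
  have hd0 : ‖X - Y‖ ≤ C₀ := hC₀ σ hσ'
  -- the rest
  have hY2b : ‖Y2‖ ≤ A * (η * Lg + C₂ + C₃) := by
    set Z : ℂ := SD σ (fun v => (if Star c (FrL v) then (1 : ℂ) else 0) * ph 0 (nm v)) with hZ
    have hph0 : ∀ n : ℕ, ph 0 n = 1 := fun n => by simp [ph]
    have hsZ : Summable fun v : HeightOneSpectrum (𝓞 K) =>
        wd σ v * (if Star c (FrL v) then (1 : ℝ) else 0) :=
      summable_mul_bdd (summable_wd (K := K) hσ') (fun v => (wd_pos σ v).le) (B := 1) fun v => by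
        split_ifs <;> norm_num
    have hsZ2 : Summable fun v : HeightOneSpectrum (𝓞 K) =>
        wd σ v * (if Star c (FrL v) then (0 : ℝ) else 1) :=
      summable_mul_bdd (summable_wd (K := K) hσ') (fun v => (wd_pos σ v).le) (B := 1) fun v => by
        split_ifs <;> norm_num
    have hZr : Z = ((∑' v : HeightOneSpectrum (𝓞 K),
        wd σ v * (if Star c (FrL v) then (1 : ℝ) else 0) : ℝ) : ℂ) := by
      rw [hZ, SD, Complex.ofReal_tsum]
      refine tsum_congr fun v => ?_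
      rw [hph0]
      push_cast
      split_ifs <;> simp
    have hsplit : PD38 K σ = ∑' v : HeightOneSpectrum (𝓞 K),
        wd σ v * (if Star c (FrL v) then (1 : ℝ) else 0) +
        ∑' v : HeightOneSpectrum (𝓞 K), wd σ v * (if Star c (FrL v) then (0 : ℝ) else 1) := by
      rw [← hsZ.tsum_add hsZ2, PD38]
      refine tsum_congr fun v => ?_
      split_ifs <;> ring
    have hmean : (∑ g : Gal(L/K), (if Star c g then (fun _ => (1 : ℂ)) g else 0)) /
        (Fintype.card Gal(L/K) : ℂ) = ((1 - k / n : ℝ) : ℂ) := by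
      have h4 : (∑ g : Gal(L/K), (if Star c g then (fun _ => (1 : ℂ)) g else 0)) =
          ((n - k : ℝ) : ℂ) := by
        rw [← hk3]
        push_cast
        refine Finset.sum_congr rfl fun g _ => ?_
        split_ifs <;> simp
      rw [h4]
      have h5 : (Fintype.card Gal(L/K) : ℂ) = ((n : ℝ) : ℂ) := by rw [hn]; push_cast; rfl
      rw [h5, ← Complex.ofReal_div, sub_div, div_self hn0.ne']
    have h4 : |(∑' v : HeightOneSpectrum (𝓞 K),
        wd σ v * (if Star c (FrL v) then (1 : ℝ) else 0)) - (1 - k / n) * Lg| ≤ C₂ := by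
      have h5 := h2
      rw [if_pos rfl, hmean] at h5
      rw [hZr, ← Complex.ofReal_mul, ← Complex.ofReal_sub, Complex.norm_real,
        Real.norm_eq_abs] at h5
      exact h5
    have h5 : ‖Y2‖ ≤ A * ∑' v : HeightOneSpectrum (𝓞 K),
        wd σ v * (if Star c (FrL v) then (0 : ℝ) else 1) := by
      rw [hY2, SD]
      refine tsum_of_norm_bounded (hsZ2.hasSum.mul_left A) fun v => ?_
      rw [norm_mul, norm_mul, ph_norm, mul_one, Complex.norm_real, Real.norm_eq_abs,
        abs_of_pos (wd_pos σ v), hF2]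
      simp only
      split_ifs
      · simp
      · rw [mul_one, mul_comm A]
        exact mul_le_mul_of_nonneg_left (hFA _) (wd_pos σ v).le
    refine h5.trans (mul_le_mul_of_nonneg_left ?_ hA.le)
    have h6 := abs_le.1 h4
    have h7 := abs_le.1 h3
    have h8 : k / n * Lg ≤ η * Lg := mul_le_mul_of_nonneg_right hkn hlog
    nlinarith [h6.1, h6.2, h7.1, h7.2]
  -- the mean values
  have hmd : ‖(if u = 0 then (∑ g, F1 g) / (Fintype.card Gal(L/K) : ℂ) else 0) * (Lg : ℂ) -
      (if u = 0 then (∑ g, f g) / (Fintype.card Gal(M/K) : ℂ) else 0) * (Lg : ℂ)‖ ≤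
      A * η * Lg := by
    rw [← sub_mul, norm_mul, Complex.norm_real, Real.norm_eq_abs, abs_of_nonneg hlog]
    refine mul_le_mul_of_nonneg_right ?_ hlog
    split_ifs with hu
    · rw [← sum_comp_surj res hsurj f, ← sub_div, norm_div]
      have h4 : ‖(Fintype.card Gal(L/K) : ℂ)‖ = n := by
        rw [Complex.norm_natCast]
      rw [h4, div_le_iff₀ hn0]
      have h5 : ‖∑ g, F1 g - ∑ g, f (res g)‖ ≤ A * k := by
        rw [← Finset.sum_sub_distrib]
        refine (norm_sum_le _ _).trans ?_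
        rw [hk2, Finset.mul_sum]
        refine Finset.sum_le_sum fun g _ => ?_
        rw [hF1]
        simp only
        split_ifs
        · rw [hFdef]; simp
        · rw [zero_sub, norm_neg, mul_one]
          exact hfA _
      refine h5.trans ?_
      have h6 : k ≤ η * n := by rwa [div_le_iff₀ hn0] at hkn
      nlinarith
    · rw [sub_self, norm_zero]
      positivity
  calc ‖X - (if u = 0 then (∑ g, f g) / (Fintype.card Gal(M/K) : ℂ) else 0) * (Lg : ℂ)‖
      = ‖(X - Y) + (Y1 - (if u = 0 then (∑ g, F1 g) / (Fintype.card Gal(L/K) : ℂ) else 0) *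
          (Lg : ℂ)) + Y2 + ((if u = 0 then (∑ g, F1 g) / (Fintype.card Gal(L/K) : ℂ) else 0) *
          (Lg : ℂ) - (if u = 0 then (∑ g, f g) / (Fintype.card Gal(M/K) : ℂ) else 0) *
          (Lg : ℂ))‖ := by
        congr 1
        rw [hYY]
        ring
    _ ≤ ‖X - Y‖ + ‖Y1 - (if u = 0 then (∑ g, F1 g) / (Fintype.card Gal(L/K) : ℂ) else 0) *
          (Lg : ℂ)‖ + ‖Y2‖ + ‖(if u = 0 then (∑ g, F1 g) / (Fintype.card Gal(L/K) : ℂ) else 0) *
          (Lg : ℂ) - (if u = 0 then (∑ g, f g) / (Fintype.card Gal(M/K) : ℂ) else 0) *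
          (Lg : ℂ)‖ := by
        refine (norm_add_le _ _).trans (add_le_add ?_ le_rfl)
        refine (norm_add_le _ _).trans (add_le_add ?_ le_rfl)
        exact norm_add_le _ _
    _ ≤ C₀ + C₁ + A * (η * Lg + C₂ + C₃) + A * η * Lg := by
        refine add_le_add (add_le_add (add_le_add hd0 ?_) hY2b) hmd
        exact h1
    _ = 2 * A * η * Lg + (C₀ + C₁ + A * (C₂ + C₃)) := by ring

end

end X38

section

variable {K M : Type*} [Field K] [NumberField K] [Field M] [NumberField M] [Algebra K M]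
  [IsGalois K M] [Fintype Gal(M/K)]

/-- C: the theorem of Chebotarev with the twists `n ^ (-i u)`. -/
theorem chebL {Fr : HeightOneSpectrum (𝓞 K) → Gal(M/K)} (hFr : ∀ v, IsFr v (Fr v))
    {f : Gal(M/K) → ℂ} (hf : IsClassFn f) : WEqL Fr f := by
  intro u ε hε
  set A : ℝ := ∑ g, ‖f g‖ + 1 with hA
  have hA0 : 0 < A := by
    have : 0 ≤ ∑ g, ‖f g‖ := Finset.sum_nonneg fun _ _ => norm_nonneg _
    linarith
  have hfA : ∀ g, ‖f g‖ ≤ A := fun g => by
    have := Finset.single_le_sum (f := fun g => ‖f g‖) (fun g _ => norm_nonneg _)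
      (Finset.mem_univ g)
    linarith
  obtain ⟨m, hm, hstar⟩ := exists_star K M (ε := ε / (4 * A)) (by positivity)
  have hm0 : NeZero m := ⟨by omega⟩
  have hgal : IsGalois K (CyclotomicField m M) := isGalois_cyc K M m
  have hζ : IsPrimitiveRoot (IsCyclotomicExtension.zeta m M (CyclotomicField m M)) m :=
    IsCyclotomicExtension.zeta_spec m M (CyclotomicField m M)
  have hcard := hstar hm0 (CyclotomicField m M) _ hζ fun g h1 h2 => ext_cyc K M m hζ g h1 h2
  have hfd2 : FiniteDimensional K (CyclotomicField m M) :=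
    Module.Finite.of_restrictScalars_finite ℚ K _
  have : Fintype Gal((CyclotomicField m M)/K) := Fintype.ofFinite _
  choose FrL hFrL using fun v : HeightOneSpectrum (𝓞 K) =>
    exists_isFr (K := K) (M := CyclotomicField m M) v
  obtain ⟨C, hC0, hC⟩ := X38.cheb_stepL hFr hFrL hm hζ hf hA0 hfA (by positivity) hcard u
  have hlog := X38.tendsto_inv_atTop38.eventually_ge_atTop (2 * C / ε)
  filter_upwards [hC, hlog] with σ h1 h2
  refine h1.trans ?_
  rw [div_le_iff₀ hε] at h2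
  have h3 : 2 * A * (ε / (4 * A)) = ε / 2 := by field_simp; ring
  rw [h3]
  linarith

end

/-- CHEBL -/
theorem stCHEBL (K M : Type*) [Field K] [NumberField K] [Field M] [NumberField M] [Algebra K M]
    [IsGalois K M] [Fintype Gal(M/K)] : StCHEBL K M :=
  fun _ hFr _ hf => chebL hFr hf

end Pool.Agent.Lib.MP_bf61d2_nt.Artin.LA
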