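import Mathlib
import Pool.Agent.Lib.MP_bf61d2_nt.Trim.Artin.D1x63
import Pool.Agent.Lib.MP_bf61d2_nt.Trim.Artin.Defs63
import Pool.Agent.Lib.MP_bf61d2_nt.Trim.Artin.LA.DefsLA63
import Pool.Agent.Lib.MP_bf61d2_nt.Trim.Artin.V70
import Pool.Agent.Lib.MP_bf61d2_nt.Trim.Places

set_option autoImplicit false

/-!
Artin twists at the edge: the zonoid bound.
-/

namespace NumberField
end NumberField

namespace Pool.Agent.Lib.MP_bf61d2_nt.Perm
end Pool.Agent.Lib.MP_bf61d2_nt.Perm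

namespace Pool.Agent.Lib.MP_bf61d2_nt.Artin
end Pool.Agent.Lib.MP_bf61d2_nt.Artin

namespace Pool.Agent.Lib.MP_bf61d2_nt.Artin.LA

open NumberField IsDedekindDomain Filter Topology Polynomial Module

open Pool.Agent.Lib.MP_bf61d2_nt.Perm

open Pool.Agent.Lib.MP_bf61d2_nt.Artin

section D1

variable {K M : Type*} [Field K] [NumberField K] [Field M] [NumberField M] [Algebra K M]

lemma summable_SDL {σ : ℝ} (hσ : 1 < σ) {f : HeightOneSpectrum (𝓞 K) → ℂ} {C : ℝ}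
    (hf : ∀ v, ‖f v‖ ≤ C) : Summable fun v => (wd σ v : ℂ) * f v := by
  refine Summable.of_norm_bounded ((summable_wd (K := K) hσ).mul_left C) fun v => ?_
  rw [norm_mul, Complex.norm_real, Real.norm_eq_abs, abs_of_pos (wd_pos _ v), mul_comm]
  exact mul_le_mul_of_nonneg_right (hf v) (wd_pos σ v).le

lemma re_SDL {σ : ℝ} (hσ : 1 < σ) {f : HeightOneSpectrum (𝓞 K) → ℂ} {C : ℝ}
    (hf : ∀ v, ‖f v‖ ≤ C) : (SD (K := K) σ f).re = ∑' v, wd σ v * (f v).re := by
  rw [SD, Complex.re_tsum (summable_SDL hσ hf)]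
  exact tsum_congr fun v => Complex.re_ofReal_mul _ _

variable [Fintype Gal(M/K)]

/-- D1 (from `cheb`, `exists_mean_abs`), uniformly in the coefficients. -/
theorem zonoid_boundU (hch : StCHEBL K M) {Fr : HeightOneSpectrum (𝓞 K) → Gal(M/K)}
    (hFr : ∀ v, IsFr v (Fr v)) {n : ℕ} (f : Fin n → Gal(M/K) → ℂ)
    (hf : ∀ j, IsClassFn (f j)) (t : Fin n → ℝ) :
    ∃ B : ℝ, Tendsto (fun X : ℝ => X⁻¹ * ∫ u in (0 : ℝ)..X,
        (∑ g : Gal(M/K), |(∑ j, f j g * Complex.exp (((-(t j * u) : ℝ) : ℂ) * Complex.I)).re|) /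
          Fintype.card Gal(M/K)) atTop (𝓝 B) ∧
      ∀ ε : ℝ, 0 < ε → ∀ᶠ σ : ℝ in 𝓝[>] 1,
        ∀ c : HeightOneSpectrum (𝓞 K) → ℝ, (∀ v, |c v| ≤ 2) →
        |(∑ j, SD (K := K) σ (fun v => (c v : ℂ) * (f j (Fr v) * ph (t j) (nm v)))).re| ≤
          (2 * B + ε) * (1 / (σ - 1)) := by
  obtain ⟨B, hB, happ⟩ := exists_mean_abs f hf t
  refine ⟨B, hB, fun ε hε => ?_⟩
  obtain ⟨N, F, τ, hF, hle, hmean⟩ := happ (ε / 4) (by linarith)
  set η : ℝ := ε / (4 * (N + 1)) with hη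
  have hN : (0 : ℝ) < N + 1 := by positivity
  have hη0 : 0 < η := by positivity
  have h1 : ∀ᶠ σ : ℝ in 𝓝[>] 1, ∀ k, ‖SD (K := K) σ (fun v => F k (Fr v) * ph (τ k) (nm v)) -
      (if τ k = 0 then (∑ g, F k g) / Fintype.card Gal(M/K) else 0) *
        ((1 / (σ - 1)) : ℝ)‖ ≤ η * (1 / (σ - 1)) :=
    eventually_all.mpr fun k => hch Fr hFr (F k) (hF k) (τ k) η hη0
  have h2 : ∀ᶠ σ : ℝ in 𝓝[>] 1, 0 ≤ (1 / (σ - 1)) := by
    filter_upwards [self_mem_nhdsWithin, Ioo_mem_nhdsGT (show (1 : ℝ) < 2 by norm_num)] with σ h h'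
    have h3 : (1 : ℝ) < σ := h
    have h4 : 0 < σ - 1 := by linarith
    positivity
  filter_upwards [h1, h2, self_mem_nhdsWithin] with σ h1 h2 hσ c hc
  have hσ' : 1 < σ := hσ
  set L : ℝ := (1 / (σ - 1)) with hL
  -- bounds
  have hbf : ∀ j v, ‖(c v : ℂ) * (f j (Fr v) * ph (t j) (nm v))‖ ≤ 2 * ∑ g, ‖f j g‖ := by
    intro j v
    rw [norm_mul, norm_mul, norm_ph63, mul_one, Complex.norm_real, Real.norm_eq_abs]
    exact mul_le_mul (hc v) (Finset.single_le_sum (f := fun g => ‖f j g‖)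
      (fun g _ => norm_nonneg _) (Finset.mem_univ _)) (norm_nonneg _) zero_le_two
  have hbF : ∀ k v, ‖F k (Fr v) * ph (τ k) (nm v)‖ ≤ ∑ g, ‖F k g‖ := by
    intro k v
    rw [norm_mul, norm_ph63, mul_one]
    exact Finset.single_le_sum (f := fun g => ‖F k g‖)
      (fun g _ => norm_nonneg _) (Finset.mem_univ _)
  have hs : ∀ (m : ℕ) (φ : Fin m → HeightOneSpectrum (𝓞 K) → ℂ) (C : Fin m → ℝ),
      (∀ k v, ‖φ k v‖ ≤ C k) →
      (Summable fun v => wd σ v * (∑ k, φ k v).re) ∧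
      (∑ k, SD (K := K) σ (φ k)).re = ∑' v, wd σ v * (∑ k, φ k v).re := by
    intro m φ C hφ
    have hsum : ∀ k, Summable fun v => wd σ v * (φ k v).re := fun k => by
      have := (Complex.hasSum_re (summable_SDL hσ' (hφ k)).hasSum).summable
      simpa only [Complex.re_ofReal_mul] using this
    have e : ∀ v, wd σ v * (∑ k, φ k v).re = ∑ k, wd σ v * (φ k v).re := fun v => by
      rw [Complex.re_sum, Finset.mul_sum]
    constructor
    · simp_rw [e]
      exact summable_sum fun k _ => hsum k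
    · simp_rw [e]
      rw [Summable.tsum_finsetSum fun k _ => hsum k, Complex.re_sum]
      exact Finset.sum_congr rfl fun k _ => re_SDL hσ' (hφ k)
  obtain ⟨hs1, he1⟩ := hs n (fun j v => (c v : ℂ) * (f j (Fr v) * ph (t j) (nm v))) _ hbf
  obtain ⟨hs2, he2⟩ := hs N (fun k v => F k (Fr v) * ph (τ k) (nm v)) _ hbF
  have hpt : ∀ v, |wd σ v * (∑ j, (c v : ℂ) * (f j (Fr v) * ph (t j) (nm v))).re| ≤
      2 * (wd σ v * (∑ k, F k (Fr v) * ph (τ k) (nm v)).re) := by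
    intro v
    rw [← Finset.mul_sum, Complex.re_ofReal_mul, abs_mul, abs_mul, abs_of_pos (wd_pos σ v)]
    have h3 := hle (Fr v) (Real.log (nm v))
    have h4 : |(∑ j, f j (Fr v) * ph (t j) (nm v)).re| ≤
        (∑ k, F k (Fr v) * ph (τ k) (nm v)).re := h3
    have h5 := (abs_nonneg _).trans h4
    calc wd σ v * (|c v| * |(∑ j, f j (Fr v) * ph (t j) (nm v)).re|) ≤
          wd σ v * (2 * (∑ k, F k (Fr v) * ph (τ k) (nm v)).re) := by
          have := wd_pos σ v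
          have := hc v
          gcongr
      _ = _ := by ring
  have h6 : |(∑ j, SD (K := K) σ (fun v => (c v : ℂ) * (f j (Fr v) * ph (t j) (nm v)))).re| ≤
      2 * (∑ k, SD (K := K) σ (fun v => F k (Fr v) * ph (τ k) (nm v))).re := by
    rw [he1, he2, ← tsum_mul_left]
    have h7 := norm_tsum_le_tsum_norm hs1.norm
    simp only [Real.norm_eq_abs] at h7
    refine h7.trans (Summable.tsum_le_tsum hpt hs1.abs (hs2.mul_left 2))
  refine h6.trans ?_
  have h8 : (∑ k, SD (K := K) σ (fun v => F k (Fr v) * ph (τ k) (nm v))).re ≤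
      (∑ k, if τ k = 0 then (∑ g, F k g) / Fintype.card Gal(M/K) else 0).re * L + N * (η * L) := by
    rw [Complex.re_sum, Complex.re_sum, Finset.sum_mul]
    calc ∑ k, (SD (K := K) σ (fun v => F k (Fr v) * ph (τ k) (nm v))).re ≤
          ∑ k, ((if τ k = 0 then (∑ g, F k g) / Fintype.card Gal(M/K) else 0 : ℂ).re * L +
            η * L) := by
          refine Finset.sum_le_sum fun k _ => ?_
          have h9 := (Complex.re_le_norm _).trans (h1 k)
          rw [Complex.sub_re, Complex.re_mul_ofReal] at h9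
          linarith
      _ = _ := by
          rw [Finset.sum_add_distrib, Finset.sum_const, Finset.card_univ, Fintype.card_fin,
            nsmul_eq_mul]
  have h10 : N * (η * L) ≤ ε / 4 * L := by
    rw [← mul_assoc]
    refine mul_le_mul_of_nonneg_right ?_ h2
    rw [hη, mul_div_assoc', div_le_div_iff₀ (by positivity) (by norm_num)]
    nlinarith
  have h11 : (∑ k, if τ k = 0 then (∑ g, F k g) / Fintype.card Gal(M/K) else 0 : ℂ).re * L ≤
      (B + ε / 4) * L := mul_le_mul_of_nonneg_right hmean h2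
  nlinarith

/-- D1 for one family of coefficients. -/
theorem zonoid_boundL (hch : StCHEBL K M) {Fr : HeightOneSpectrum (𝓞 K) → Gal(M/K)}
    (hFr : ∀ v, IsFr v (Fr v))
    {c : HeightOneSpectrum (𝓞 K) → ℝ} (hc : ∀ v, |c v| ≤ 2) {n : ℕ} (f : Fin n → Gal(M/K) → ℂ)
    (hf : ∀ j, IsClassFn (f j)) (t : Fin n → ℝ) :
    ∃ B : ℝ, Tendsto (fun X : ℝ => X⁻¹ * ∫ u in (0 : ℝ)..X,
        (∑ g : Gal(M/K), |(∑ j, f j g * Complex.exp (((-(t j * u) : ℝ) : ℂ) * Complex.I)).re|) /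
          Fintype.card Gal(M/K)) atTop (𝓝 B) ∧
      ∀ ε : ℝ, 0 < ε → ∀ᶠ σ : ℝ in 𝓝[>] 1,
        |(∑ j, SD (K := K) σ (fun v => (c v : ℂ) * (f j (Fr v) * ph (t j) (nm v)))).re| ≤
          (2 * B + ε) * (1 / (σ - 1)) := by
  obtain ⟨B, hB, h⟩ := zonoid_boundU hch hFr f hf t
  exact ⟨B, hB, fun ε hε => (h ε hε).mono fun σ h => h c hc⟩

end D1

end Pool.Agent.Lib.MP_bf61d2_nt.Artin.LA
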