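import Mathlib
import Pool.Agent.Lib.MP_bf61d2_nt.Trim.Analytic
import Pool.Agent.Lib.MP_bf61d2_nt.Trim.Artin.Defs63
import Pool.Agent.Lib.MP_bf61d2_nt.Trim.Artin.L.LELOG36
import Pool.Agent.Lib.MP_bf61d2_nt.Trim.Artin.L.StmtsL63
import Pool.Agent.Lib.MP_bf61d2_nt.Trim.Artin.LA.DefsLA63
import Pool.Agent.Lib.MP_bf61d2_nt.Trim.Artin.R.DefsR
import Pool.Agent.Lib.MP_bf61d2_nt.Trim.Artin.R.LOGR84
import Pool.Agent.Lib.MP_bf61d2_nt.Trim.Artin.T.LTX84
import Pool.Agent.Lib.MP_bf61d2_nt.Trim.LocalCurve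
import Pool.Agent.Lib.MP_bf61d2_nt.Trim.Places
import Pool.Agent.Lib.MP_bf61d2_nt.Trim.Structure

set_option autoImplicit false

/-!
ARTIN EDGE, local form (MP_bf61d2_nt), module ELL: the logarithmic derivative of the L-series of an
elliptic curve.
-/

namespace NumberField
end NumberField

namespace Pool.Agent.Lib.MP_bf61d2_nt.Artin.LA

open NumberField IsDedekindDomain Filter Topology

universe u

section

variable {K : Type u} [Field K] [NumberField K]

lemma zw_one42 (W : WeierstrassCurve K) (v : HeightOneSpectrum (𝓞 K)) (s : ℂ) :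
    LTX84.zw W v 1 s = zv W v s := by
  simp only [LTX84.zw, zv, one_mul]

/-- The L-series is the Euler product without twist. -/
theorem LE_one42 (W : WeierstrassCurve K) {s : ℂ} (hs : 3 / 2 < s.re) :
    Ray.LE W (fun _ => 1) s = W.LSeries s := by
  have h := Ray.LOGR84.hasProd W (f := fun _ => 1) (fun _ => by simp) hs
  rw [Ray.LE, h.tprod_eq, lseries_eq_exp W hs]
  congr 1
  refine tsum_congr fun v => ?_
  rw [lam, zw_one42]

theorem LE_one_eventually42 (W : WeierstrassCurve K) {s : ℂ} (hs : 3 / 2 < s.re) :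
    Ray.LE W (fun _ => 1) =ᶠ[𝓝 s] W.LSeries := by
  have h1 : {z : ℂ | 3 / 2 < z.re} ∈ 𝓝 s :=
    (isOpen_lt continuous_const Complex.continuous_re).mem_nhds hs
  filter_upwards [h1] with z hz
  exact LE_one42 W hz

end

/-- ELL. -/
theorem logDeriv_LSeries (K : Type u) [Field K] [NumberField K] :
    ∃ A : ℝ, 0 ≤ A ∧ ∀ (E : WeierstrassCurve K) (δ t : ℝ), 0 < δ →
      E.LSeries ((3 / 2 + δ : ℝ) + t * Complex.I) ≠ 0 ∧
      DifferentiableAt ℂ E.LSeries ((3 / 2 + δ : ℝ) + t * Complex.I) ∧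
      ‖logDeriv E.LSeries ((3 / 2 + δ : ℝ) + t * Complex.I) +
        SD (1 + δ) (fun v => (cc E v : ℂ) * ph t (nm v))‖ ≤ A := by
  obtain ⟨A, hA, h⟩ := Ray.stLELOG K
  refine ⟨A, hA, fun E δ t hδ => ?_⟩
  obtain ⟨h1, h2, h3⟩ := h E (fun _ => 1) (fun _ => by simp) δ t hδ
  have hs : 3 / 2 < (((3 / 2 + δ : ℝ) : ℂ) + t * Complex.I).re := by
    simp only [Complex.add_re, Complex.ofReal_re, Complex.mul_re, Complex.I_re, mul_zero,
      Complex.ofReal_im, Complex.I_im, mul_one, sub_self, add_zero]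
    linarith
  have he := LE_one_eventually42 E hs
  refine ⟨?_, ?_, ?_⟩
  · rw [← LE_one42 E hs]
    exact h1
  · exact h2.congr_of_eventuallyEq he.symm
  · have h4 : logDeriv (Ray.LE E (fun _ => 1)) (((3 / 2 + δ : ℝ) : ℂ) + t * Complex.I) =
        logDeriv E.LSeries (((3 / 2 + δ : ℝ) : ℂ) + t * Complex.I) := by
      rw [logDeriv_apply, logDeriv_apply, he.deriv_eq, he.eq_of_nhds]
    rw [h4] at h3
    have h5 : Ray.CRL (fun v => cc E v) (fun _ => 1) δ t =
        SD (1 + δ) (fun v => (cc E v : ℂ) * ph t (nm v)) := by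
      rw [SD_eq_WL, Ray.CRL]
      congr 1
      funext v
      rw [one_mul]
    rwa [h5] at h3

end Pool.Agent.Lib.MP_bf61d2_nt.Artin.LA
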