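import Mathlib
import Pool.Agent.Lib.MP_bf61d2_nt.Trim.Artin.Defs63
import Pool.Agent.Lib.MP_bf61d2_nt.Trim.Artin.K1x63
import Pool.Agent.Lib.MP_bf61d2_nt.Trim.Artin.LA.DefsLA63
import Pool.Agent.Lib.MP_bf61d2_nt.Trim.LocalCurve
import Pool.Agent.Lib.MP_bf61d2_nt.Trim.Places
import Pool.Agent.Lib.MP_bf61d2_nt.Trim.PrimeSum
import Pool.Agent.Lib.MP_bf61d2_nt.Trim.Structure

set_option autoImplicit false

/-!
LOCAL ARTIN (MP_bf61d2_nt), module KSL: the prime sums with logarithms of a base change, of a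
quadratic twist and of a conjugate of an elliptic curve.
-/

namespace NumberField
end NumberField

namespace WeierstrassCurve
end WeierstrassCurve

namespace Pool.Agent.Lib.MP_bf61d2_nt.Perm
end Pool.Agent.Lib.MP_bf61d2_nt.Perm

namespace Pool.Agent.Lib.MP_bf61d2_nt.Artin
end Pool.Agent.Lib.MP_bf61d2_nt.Artin

namespace Pool.Agent.Lib.MP_bf61d2_nt.Artin.LA.KSL3
end Pool.Agent.Lib.MP_bf61d2_nt.Artin.LA.KSL3

namespace Pool.Agent.Lib.MP_bf61d2_nt.Artin.LA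

open NumberField IsDedekindDomain Filter Topology Polynomial Module WeierstrassCurve

open Pool.Agent.Lib.MP_bf61d2_nt.Perm

open Pool.Agent.Lib.MP_bf61d2_nt.Artin

namespace KSL3

lemma norm_ph (u : ℝ) (n : ℕ) : ‖ph u n‖ = 1 := by
  rw [ph, Complex.norm_exp_ofReal_mul_I]

section Basic

variable {F : Type*} [Field F] [NumberField F]

lemma wd_le_one {σ : ℝ} (hσ : 1 < σ) (v : HeightOneSpectrum (𝓞 F)) : wd σ v ≤ 1 := by
  have h0 : (0 : ℝ) < nm v := nm_pos' v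
  have h1 : (1 : ℝ) ≤ nm v := by exact_mod_cast (one_lt_nm v).le
  have h2 : wp σ v ≤ (nm v : ℝ)⁻¹ := by
    rw [wp, ← Real.rpow_neg_one]
    exact Real.rpow_le_rpow_of_exponent_le h1 (by linarith)
  have h3 : Real.log (nm v) ≤ nm v := (Real.log_le_sub_one_of_pos h0).trans (by linarith)
  have h4 : 0 ≤ Real.log (nm v) := (log_nm_pos v).le
  calc wd σ v ≤ (nm v : ℝ)⁻¹ * nm v := mul_le_mul h2 h3 h4 (by positivity)
    _ = 1 := inv_mul_cancel₀ h0.ne'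

lemma norm_wd (σ : ℝ) (v : HeightOneSpectrum (𝓞 F)) : ‖(wd σ v : ℂ)‖ = wd σ v := by
  rw [Complex.norm_real, Real.norm_eq_abs, abs_of_pos (wd_pos σ v)]

lemma summable_wd_mul {σ : ℝ} (hσ : 1 < σ) {f : HeightOneSpectrum (𝓞 F) → ℂ} {A : ℝ}
    (hf : ∀ v, ‖f v‖ ≤ A) : Summable fun v => (wd σ v : ℂ) * f v := by
  refine Summable.of_norm_bounded ((summable_wd (K := F) hσ).mul_right A) fun v => ?_
  rw [norm_mul, norm_wd]
  exact mul_le_mul_of_nonneg_left (hf v) (wd_pos σ v).le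

/-- Two sums which differ at finitely many places only. -/
lemma norm_SD_sub_le {a b : HeightOneSpectrum (𝓞 F) → ℂ} {A : ℝ} (ha : ∀ v, ‖a v‖ ≤ A)
    (hb : ∀ v, ‖b v‖ ≤ A) (S : Finset (HeightOneSpectrum (𝓞 F))) (hab : ∀ v, v ∉ S → a v = b v)
    {σ : ℝ} (hσ : 1 < σ) : ‖SD σ a - SD σ b‖ ≤ 2 * A * S.card := by
  classical
  have hs1 := summable_wd_mul hσ ha
  have hs2 := summable_wd_mul hσ hb
  have e : SD σ a - SD σ b = ∑ v ∈ S, ((wd σ v : ℂ) * a v - (wd σ v : ℂ) * b v) := by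
    rw [SD, SD, ← hs1.tsum_sub hs2]
    refine tsum_eq_sum fun v hv => ?_
    rw [hab v hv, sub_self]
  rw [e]
  refine (norm_sum_le _ _).trans ?_
  calc ∑ v ∈ S, ‖(wd σ v : ℂ) * a v - (wd σ v : ℂ) * b v‖ ≤ ∑ _v ∈ S, 2 * A := by
        refine Finset.sum_le_sum fun v _ => ?_
        rw [← mul_sub, norm_mul, norm_wd]
        have h1 : ‖a v - b v‖ ≤ 2 * A := (norm_sub_le _ _).trans (by linarith [ha v, hb v])
        calc wd σ v * ‖a v - b v‖ ≤ 1 * (2 * A) :=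
              mul_le_mul (wd_le_one hσ v) h1 (norm_nonneg _) zero_le_one
          _ = 2 * A := one_mul _
    _ = 2 * A * S.card := by rw [Finset.sum_const, nsmul_eq_mul]; ring

lemma norm_cc_le (E : WeierstrassCurve F) (v : HeightOneSpectrum (𝓞 F)) :
    ‖(cc E v : ℂ)‖ ≤ 2 := by
  rw [Complex.norm_real, Real.norm_eq_abs]
  exact abs_cc_le E v

lemma norm_cc_ph_le (E : WeierstrassCurve F) (t : ℝ) (v : HeightOneSpectrum (𝓞 F)) :
    ‖(cc E v : ℂ) * ph t (nm v)‖ ≤ 2 := by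
  rw [norm_mul, norm_ph, mul_one]
  exact norm_cc_le E v

end Basic

end KSL3

open KSL3

section Good

variable {F : Type*} [Field F] [NumberField F]

/-- The prime sum of a conjugate curve. -/
theorem sd_conj3 (E : WeierstrassCurve F) [E.IsElliptic] (τ : F ≃+* F) :
    ∃ C : ℝ, 0 ≤ C ∧ ∀ t δ : ℝ, 0 < δ →
      ‖SD (1 + δ) (fun v : HeightOneSpectrum (𝓞 F) =>
          (cc (E.map (τ : F →+* F)) v : ℂ) * ph t (nm v)) -
        SD (1 + δ) (fun v : HeightOneSpectrum (𝓞 F) => (cc E v : ℂ) * ph t (nm v))‖ ≤ C := by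
  obtain ⟨S, hS⟩ := lp_conj63 τ E
  refine ⟨2 * 2 * S.card, by positivity, fun t δ hδ => ?_⟩
  have hσ : 1 < 1 + δ := by linarith
  have h3 : SD (1 + δ) (fun v : HeightOneSpectrum (𝓞 F) =>
      (cc (E.map (τ : F →+* F)) v : ℂ) * ph t (nm v)) =
      SD (1 + δ) (fun v : HeightOneSpectrum (𝓞 F) =>
        (cc (E.map (τ : F →+* F)) (eqv63 τ v) : ℂ) * ph t (nm v)) := by
    rw [SD, SD, ← Equiv.tsum_eq (eqv63 τ)]
    refine tsum_congr fun v => ?_
    rw [wd, wd, wp, wp, nm_eqv63]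
  rw [h3]
  refine norm_SD_sub_le (fun v => ?_) (norm_cc_ph_le E t) S (fun v hv => ?_) hσ
  · have := norm_cc_ph_le (E.map (τ : F →+* F)) t (eqv63 τ v)
    rwa [nm_eqv63] at this
  · rw [cc_eqv63 (hS v hv)]

end Good

/-- The prime sum of a conjugate curve. -/
theorem sd_conj {K F : Type*} [Field K] [Field F] [NumberField F] [Algebra K F]
    (E : WeierstrassCurve F) [E.IsElliptic] (τ : Gal(F/K)) :
    ∃ C : ℝ, 0 ≤ C ∧ ∀ t δ : ℝ, 0 < δ →
      ‖SD (1 + δ) (fun v : HeightOneSpectrum (𝓞 F) =>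
          (cc (E.map (τ : F →+* F)) v : ℂ) * ph t (nm v)) -
        SD (1 + δ) (fun v : HeightOneSpectrum (𝓞 F) => (cc E v : ℂ) * ph t (nm v))‖ ≤ C :=
  sd_conj3 E (τ : F ≃+* F)

end Pool.Agent.Lib.MP_bf61d2_nt.Artin.LA
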