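import Mathlib
import Pool.Agent.Lib.MP_bf61d2_nt.Trim.Artin.Defs63
import Pool.Agent.Lib.MP_bf61d2_nt.Trim.Artin.LA.D1L63
import Pool.Agent.Lib.MP_bf61d2_nt.Trim.Artin.LA.DefsLA63
import Pool.Agent.Lib.MP_bf61d2_nt.Trim.Artin.LA.REGL77
import Pool.Agent.Lib.MP_bf61d2_nt.Trim.Artin.V2x7
import Pool.Agent.Lib.MP_bf61d2_nt.Trim.Places

set_option autoImplicit false

/-!
ARTIN EDGE, local form (MP_bf61d2_nt), module SGL: the bound of the modulus for one
class function (from the zonoid bound of D1L63).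
-/

namespace NumberField
end NumberField

namespace Pool.Agent.Lib.MP_bf61d2_nt.Perm
end Pool.Agent.Lib.MP_bf61d2_nt.Perm

namespace Pool.Agent.Lib.MP_bf61d2_nt.Artin
end Pool.Agent.Lib.MP_bf61d2_nt.Artin

namespace Pool.Agent.Lib.MP_bf61d2_nt.Artin.LA

open NumberField IsDedekindDomain Filter Topology Polynomial Module

open Pool.Agent.Lib.MP_bf61d2_nt.Perm

open Pool.Agent.Lib.MP_bf61d2_nt.Artin

lemma norm_ph93 (u : ℝ) (n : ℕ) : ‖ph u n‖ = 1 := by
  rw [ph, Complex.norm_exp_ofReal_mul_I]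

section Zon

variable {K M : Type*} [Field K] [NumberField K] [Field M] [NumberField M] [Algebra K M]
  [IsGalois K M] [Fintype Gal(M/K)]

/-- The bound for one class function, uniformly on the line, with the modulus. -/
theorem single_class_unifL (hC : StCHEBL K M) {Fr : HeightOneSpectrum (𝓞 K) → Gal(M/K)}
    (hFr : ∀ v, IsFr v (Fr v))
    {c : HeightOneSpectrum (𝓞 K) → ℝ} (hc : ∀ v, |c v| ≤ 2) {f : Gal(M/K) → ℂ}
    (hf : IsClassFn f) {ε : ℝ} (hε : 0 < ε) : ∀ᶠ σ : ℝ in 𝓝[>] 1, ∀ t : ℝ,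
      ‖SD (K := K) σ (fun v => (c v : ℂ) * (f (Fr v) * ph t (nm v)))‖ ≤
        (2 * ((∑ g : Gal(M/K), ‖f g‖) / Fintype.card Gal(M/K)) + ε) * (1 / (σ - 1)) := by
  have hf' : IsClassFn (fun g => ((‖f g‖ : ℝ) : ℂ)) := fun g h => by simp only [hf g h]
  filter_upwards [hC Fr hFr _ hf' 0 (ε / 2) (half_pos hε), self_mem_nhdsWithin] with σ h1 hσ t
  have hσ' : 1 < σ := hσ
  rw [if_pos rfl] at h1
  set m : ℝ := (∑ g : Gal(M/K), ‖f g‖) / Fintype.card Gal(M/K) with hm
  have hb : ∀ v, ‖(c v : ℂ) * (f (Fr v) * ph t (nm v))‖ ≤ 2 * ∑ g, ‖f g‖ := by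
    intro v
    rw [norm_mul, norm_mul, norm_ph93, mul_one, Complex.norm_real, Real.norm_eq_abs]
    exact mul_le_mul (hc v) (Finset.single_le_sum (f := fun g => ‖f g‖)
      (fun g _ => norm_nonneg _) (Finset.mem_univ _)) (norm_nonneg _) zero_le_two
  have hb' : ∀ v, ‖((‖f (Fr v)‖ : ℝ) : ℂ) * ph 0 (nm v)‖ ≤ ∑ g, ‖f g‖ := by
    intro v
    rw [norm_mul, norm_ph93, mul_one, Complex.norm_real, norm_norm]
    exact Finset.single_le_sum (f := fun g => ‖f g‖) (fun g _ => norm_nonneg _) (Finset.mem_univ _)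
  have hs := (summable_SD (K := K) hσ' hb').norm
  have e0 : ∀ v : HeightOneSpectrum (𝓞 K), ph 0 (nm v) = 1 := fun v => by simp [ph]
  have h2 : (SD (K := K) σ (fun v => ((‖f (Fr v)‖ : ℝ) : ℂ) * ph 0 (nm v))).re =
      ∑' v, wd σ v * ‖f (Fr v)‖ := by
    rw [SD_re hσ' hb']
    refine tsum_congr fun v => ?_
    rw [e0, mul_one, Complex.ofReal_re]
  have h3 : Summable fun v => wd σ v * ‖f (Fr v)‖ := by
    refine hs.congr fun v => ?_
    rw [e0, mul_one, norm_mul, Complex.norm_real, Complex.norm_real, norm_norm, Real.norm_eq_abs,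
      abs_of_pos (wd_pos σ v)]
  have h4 : ‖SD (K := K) σ (fun v => (c v : ℂ) * (f (Fr v) * ph t (nm v)))‖ ≤
      2 * ∑' v, wd σ v * ‖f (Fr v)‖ := by
    rw [SD, ← tsum_mul_left]
    refine (norm_tsum_le_tsum_norm (summable_SD hσ' hb).norm).trans
      (Summable.tsum_le_tsum (fun v => ?_) (summable_SD hσ' hb).norm (h3.mul_left 2))
    rw [norm_mul, norm_mul, norm_mul, norm_ph93, mul_one, Complex.norm_real, Complex.norm_real,
      Real.norm_eq_abs, Real.norm_eq_abs, abs_of_pos (wd_pos σ v)]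
    have h5 := mul_le_mul_of_nonneg_right (hc v) (norm_nonneg (f (Fr v)))
    have h6 := mul_le_mul_of_nonneg_left h5 (wd_pos σ v).le
    linarith
  have h7 := (Complex.re_le_norm _).trans h1
  rw [Complex.sub_re, Complex.re_mul_ofReal, h2] at h7
  have h8 : ((∑ g : Gal(M/K), ((‖f g‖ : ℝ) : ℂ)) / (Fintype.card Gal(M/K) : ℂ)).re = m := by
    rw [← Complex.ofReal_sum, ← Complex.ofReal_natCast, ← Complex.ofReal_div, Complex.ofReal_re]
  rw [h8] at h7
  linarith

/-- A finite net of the unit circle. -/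
lemma exists_net93 {η : ℝ} (hη : 0 < η) : ∃ T : Set ℂ, T.Finite ∧ (∀ w ∈ T, ‖w‖ = 1) ∧
    ∀ z : ℂ, ∃ w ∈ T, (1 - η) * ‖z‖ ≤ (w * z).re := by
  obtain ⟨T, hT, hfin, hcov⟩ := (isCompact_sphere (0 : ℂ) 1).finite_cover_balls hη
  have h1 : ∀ w ∈ T, ‖w‖ = 1 := fun w hw => by simpa using hT hw
  have h2 : ∀ z : ℂ, ‖z‖ = 1 → ∃ w ∈ T, (1 - η) ≤ (w * z).re := by
    intro z hz
    have h3 : (starRingEnd ℂ) z ∈ Metric.sphere (0 : ℂ) 1 := by simp [hz]
    obtain ⟨w, hw, hw2⟩ := Set.mem_iUnion₂.mp (hcov h3)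
    refine ⟨w, hw, ?_⟩
    have h4 : ‖(starRingEnd ℂ) z - w‖ < η := by
      rw [← dist_eq_norm]
      exact hw2
    have h5 : w * z = (starRingEnd ℂ) z * z - ((starRingEnd ℂ) z - w) * z := by ring
    have h6 : ((starRingEnd ℂ) z * z).re = 1 := by
      rw [mul_comm, Complex.mul_conj, Complex.normSq_eq_norm_sq, hz]
      norm_num
    have h7 : (((starRingEnd ℂ) z - w) * z).re ≤ η := by
      refine (Complex.re_le_norm _).trans ?_
      rw [norm_mul, hz, mul_one]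
      exact h4.le
    rw [h5, Complex.sub_re, h6]
    linarith
  refine ⟨T, hfin, h1, fun z => ?_⟩
  rcases eq_or_ne z 0 with rfl | hz
  · obtain ⟨w, hw, -⟩ := h2 1 (by simp)
    exact ⟨w, hw, by simp⟩
  · have hz' : 0 < ‖z‖ := norm_pos_iff.mpr hz
    obtain ⟨w, hw, hw2⟩ := h2 (z / (‖z‖ : ℝ)) (by
      rw [norm_div, Complex.norm_real, norm_norm, div_self hz'.ne'])
    refine ⟨w, hw, ?_⟩
    have h3 : w * (z / ((‖z‖ : ℝ) : ℂ)) = ((‖z‖⁻¹ : ℝ) : ℂ) * (w * z) := by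
      push_cast
      field_simp
    rw [h3, Complex.re_ofReal_mul] at hw2
    have h4 := mul_le_mul_of_nonneg_left hw2 hz'.le
    rw [mul_inv_cancel_left₀ hz'.ne'] at h4
    linarith

/-- The zonoid bound for the modulus, for one class function. -/
theorem single_classL (hC : StCHEBL K M) {Fr : HeightOneSpectrum (𝓞 K) → Gal(M/K)}
    (hFr : ∀ v, IsFr v (Fr v))
    {c : HeightOneSpectrum (𝓞 K) → ℝ} (hc : ∀ v, |c v| ≤ 2) {f : Gal(M/K) → ℂ}
    (hf : IsClassFn f) (t : ℝ) {ε : ℝ} (hε : 0 < ε) : ∀ᶠ σ : ℝ in 𝓝[>] 1,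
      ‖SD (K := K) σ (fun v => (c v : ℂ) * (f (Fr v) * ph t (nm v)))‖ ≤
        ((if t = 0 then 2 else 4 / Real.pi) *
          ((∑ g : Gal(M/K), ‖f g‖) / Fintype.card Gal(M/K)) + ε) * (1 / (σ - 1)) := by
  by_cases ht : t = 0
  · simp only [if_pos ht]
    exact (single_class_unifL hC hFr hc hf hε).mono fun σ h => h t
  simp only [if_neg ht]
  set m : ℝ := (∑ g : Gal(M/K), ‖f g‖) / Fintype.card Gal(M/K) with hm
  have hm0 : 0 ≤ m := by
    rw [hm]
    exact div_nonneg (Finset.sum_nonneg fun g _ => norm_nonneg _) (Nat.cast_nonneg _)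
  have hpi := Real.pi_pos
  set A : ℝ := 4 / Real.pi * m + ε with hA
  have hA0 : 0 < A := by positivity
  have hAε : ε ≤ A := by
    rw [hA]
    have : 0 ≤ 4 / Real.pi * m := by positivity
    linarith
  set η : ℝ := ε / (2 * A) with hη
  have hη0 : 0 < η := by positivity
  have hη1 : η ≤ 1 / 2 := by
    rw [hη, div_le_div_iff₀ (by positivity) (by norm_num)]
    linarith
  obtain ⟨T, hfin, hT1, hT2⟩ := exists_net93 hη0
  have hw : ∀ w ∈ T, ∀ᶠ σ : ℝ in 𝓝[>] 1,
      |(SD (K := K) σ (fun v => (c v : ℂ) * (w * f (Fr v) * ph t (nm v)))).re| ≤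
        (4 / Real.pi * m + ε / 2) * (1 / (σ - 1)) := by
    intro w hw
    have hcl : IsClassFn (fun g => w * f g) := fun g h => by simp only [hf g h]
    obtain ⟨B, hB, hbd⟩ := zonoid_boundL hC hFr hc (fun _ : Fin 1 => fun g => w * f g)
      (fun _ => hcl) (fun _ => t)
    simp only [Fin.sum_univ_one] at hB hbd
    have h := tendsto_nhds_unique hB (mean_abs_single (fun g => w * f g) ht)
    have hm' : (∑ g : Gal(M/K), ‖w * f g‖) / Fintype.card Gal(M/K) = m := by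
      rw [hm]
      congr 1
      refine Finset.sum_congr rfl fun g _ => ?_
      rw [norm_mul, hT1 w hw, one_mul]
    have hB2 : 2 * B = 4 / Real.pi * m := by
      rw [h, hm']
      ring
    filter_upwards [hbd (ε / 2) (half_pos hε)] with σ h1
    rw [hB2] at h1
    exact h1
  filter_upwards [(Filter.eventually_all_finite hfin).mpr hw, self_mem_nhdsWithin] with σ h1 hσ
  have hσ' : 1 < σ := hσ
  have hL : 0 ≤ 1 / (σ - 1) := by
    have : 0 < σ - 1 := by linarith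
    positivity
  obtain ⟨w, hwT, hw2⟩ := hT2 (SD (K := K) σ (fun v => (c v : ℂ) * (f (Fr v) * ph t (nm v))))
  have h3 : SD (K := K) σ (fun v => (c v : ℂ) * (w * f (Fr v) * ph t (nm v))) =
      w * SD (K := K) σ (fun v => (c v : ℂ) * (f (Fr v) * ph t (nm v))) := by
    rw [← SD_const_mul]
    congr 1
    funext v
    ring
  have h4 := h1 w hwT
  rw [h3] at h4
  have h5 := hw2.trans ((le_abs_self _).trans h4)
  have h6 : (4 / Real.pi * m + ε / 2) * (1 / (σ - 1)) ≤ (1 - η) * (A * (1 / (σ - 1))) := by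
    rw [← mul_assoc]
    refine mul_le_mul_of_nonneg_right ?_ hL
    have h7 : η * A = ε / 2 := by
      rw [hη]
      field_simp
    have h8 : (1 - η) * A = A - ε / 2 := by
      rw [sub_mul, h7, one_mul]
    rw [h8, hA]
    linarith
  exact le_of_mul_le_mul_left (h5.trans h6) (by linarith)

end Zon

end Pool.Agent.Lib.MP_bf61d2_nt.Artin.LA
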