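import Mathlib

set_option autoImplicit false

/-!
ARTIN EDGE, local form (MP_bf61d2_nt), module TWL: the quadratic twists of curves over a smaller
field.
-/

namespace NumberField
end NumberField

namespace Pool.Agent.Lib.MP_bf61d2_nt.Perm
end Pool.Agent.Lib.MP_bf61d2_nt.Perm

namespace Pool.Agent.Lib.MP_bf61d2_nt.Artin
end Pool.Agent.Lib.MP_bf61d2_nt.Artin

namespace Pool.Agent.Lib.MP_bf61d2_nt.Artin.LA

open NumberField IsDedekindDomain Filter Topology Polynomial Module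

open Pool.Agent.Lib.MP_bf61d2_nt.Perm

open Pool.Agent.Lib.MP_bf61d2_nt.Artin

lemma tendsto_inv_edge77 :
    Tendsto (fun σ : ℝ => 1 / (σ - 3 / 2)) (𝓝[>] (3 / 2)) atTop := by
  have h : Tendsto (fun σ : ℝ => σ - 3 / 2) (𝓝[>] (3 / 2)) (𝓝[>] 0) := by
    refine tendsto_nhdsWithin_iff.mpr ⟨?_, ?_⟩
    · have h : Tendsto (fun σ : ℝ => σ - 3 / 2) (𝓝 (3 / 2)) (𝓝 (3 / 2 - 3 / 2)) :=
        tendsto_id.sub_const _
      rw [sub_self] at h
      exact h.mono_left nhdsWithin_le_nhds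
    · filter_upwards [self_mem_nhdsWithin] with σ hσ
      have : (3 / 2 : ℝ) < σ := hσ
      exact sub_pos.mpr this
  simp only [one_div]
  exact tendsto_inv_nhdsGT_zero.comp h

/-- From the sum over the places to the logarithmic derivative. -/
lemma conj_stepL {A C : ℝ} {ε : ℝ} (hε : 0 < ε) {T : Set ℝ} {X Y : ℝ → ℝ → ℂ}
    (hXY : ∀ t σ : ℝ, 3 / 2 < σ → ‖X σ t + Y σ t‖ ≤ C)
    (hY : ∀ᶠ σ : ℝ in 𝓝[>] (3 / 2), ∀ t ∈ T, ‖Y σ t‖ ≤ (A + ε / 2) * (1 / (σ - 3 / 2))) :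
    ∀ᶠ σ : ℝ in 𝓝[>] (3 / 2), ∀ t ∈ T, ‖X σ t‖ ≤ (A + ε) / (σ - 3 / 2) := by
  filter_upwards [hY, tendsto_inv_edge77.eventually (eventually_ge_atTop (C / (ε / 2))),
    self_mem_nhdsWithin] with σ h4 h5 hσ t ht
  have hσ' : 3 / 2 < σ := hσ
  rw [div_le_iff₀ (half_pos hε)] at h5
  have h6 := hXY t σ hσ'
  have h10 : ‖X σ t‖ ≤ ‖X σ t + Y σ t‖ + ‖Y σ t‖ := by
    have := norm_sub_le (X σ t + Y σ t) (Y σ t)
    rwa [add_sub_cancel_right] at this
  have h11 := h4 t ht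
  have h12 : (A + ε) / (σ - 3 / 2) = (A + ε / 2) * (1 / (σ - 3 / 2)) + 1 / (σ - 3 / 2) * (ε / 2) := by
    ring
  rw [h12]
  linarith

section

variable {K M : Type*} [Field K] [NumberField K] [Field M] [NumberField M] [Algebra K M]
  [IsGalois K M] [Fintype Gal(M/K)]

end

section

variable {K M : Type*} [Field K] [NumberField K] [Field M] [NumberField M] [Algebra K M]
  [IsGalois K M]

end

end Pool.Agent.Lib.MP_bf61d2_nt.Artin.LA
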