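import Mathlib
import Pool.Agent.Lib.MP_bf61d2_nt.Trim.Artin.Defs63
import Pool.Agent.Lib.MP_bf61d2_nt.Trim.Artin.F40
import Pool.Agent.Lib.MP_bf61d2_nt.Trim.Artin.Final63
import Pool.Agent.Lib.MP_bf61d2_nt.Trim.Artin.K2x3
import Pool.Agent.Lib.MP_bf61d2_nt.Trim.Artin.K3x14
import Pool.Agent.Lib.MP_bf61d2_nt.Trim.Artin.K4x63
import Pool.Agent.Lib.MP_bf61d2_nt.Trim.Artin.K6x63
import Pool.Agent.Lib.MP_bf61d2_nt.Trim.Artin.KDefs63
import Pool.Agent.Lib.MP_bf61d2_nt.Trim.Artin.LA.CHEBL38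
import Pool.Agent.Lib.MP_bf61d2_nt.Trim.Artin.LA.DefsLA63
import Pool.Agent.Lib.MP_bf61d2_nt.Trim.Artin.LA.ELL42
import Pool.Agent.Lib.MP_bf61d2_nt.Trim.Artin.LA.KSL3
import Pool.Agent.Lib.MP_bf61d2_nt.Trim.Artin.LA.SGL93
import Pool.Agent.Lib.MP_bf61d2_nt.Trim.Artin.LA.TWL77
import Pool.Agent.Lib.MP_bf61d2_nt.Trim.Joint.Main
import Pool.Agent.Lib.MP_bf61d2_nt.Trim.Places
import Pool.Agent.Lib.MP_bf61d2_nt.Trim.Structure

set_option autoImplicit false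

/-!
ARTIN EDGE, local form (MP_bf61d2_nt), module KCL: K-curves at the edge, the logarithmic
derivative.
-/

namespace NumberField
end NumberField

namespace WeierstrassCurve
end WeierstrassCurve

namespace Pool.Agent.Lib.MP_bf61d2_nt.Perm
end Pool.Agent.Lib.MP_bf61d2_nt.Perm

namespace Pool.Agent.Lib.MP_bf61d2_nt.Artin
end Pool.Agent.Lib.MP_bf61d2_nt.Artin

namespace Pool.Agent.Lib.MP_bf61d2_nt.Artin.LA.KSL3
end Pool.Agent.Lib.MP_bf61d2_nt.Artin.LA.KSL3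

namespace Pool.Agent.Lib.MP_bf61d2_nt.Artin.LA

open NumberField IsDedekindDomain Filter Topology Polynomial Module WeierstrassCurve

open Pool.Agent.Lib.MP_bf61d2_nt.Perm

open Pool.Agent.Lib.MP_bf61d2_nt.Artin

open KSL3

lemma SD_sum60 {F : Type*} [Field F] [NumberField F] {ι : Type*} (s : Finset ι) {σ : ℝ}
    (hσ : 1 < σ) {f : ι → HeightOneSpectrum (𝓞 F) → ℂ} {A : ℝ} (hf : ∀ i v, ‖f i v‖ ≤ A) :
    ∑ i ∈ s, SD σ (f i) = SD σ (fun v => ∑ i ∈ s, f i v) := by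
  simp only [SD]
  rw [← Summable.tsum_finsetSum fun i _ => summable_wd_mul hσ (hf i)]
  exact tsum_congr fun v => (Finset.mul_sum _ _ _).symm

section Main

variable {K F M : Type*} [Field K] [NumberField K] [Field F] [NumberField F] [Field M]
  [NumberField M] [Algebra K F] [IsGalois K F] [Algebra F M] [IsGalois F M] [Fintype Gal(M/F)]

/-- The sum over the places. -/
theorem kcurve_keyL [Fintype Gal(F/K)] (E : WeierstrassCurve F) [E.IsElliptic]
    {Fr : HeightOneSpectrum (𝓞 F) → Gal(M/F)} (hFr : ∀ v, IsFr v (Fr v)) (d : Gal(F/K) → F)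
    (hd : ∀ τ, d τ ≠ 0) (θ : Gal(F/K) → M) (hθ : ∀ τ, θ τ ^ 2 = algebraMap F M (d τ))
    (hE : ∀ τ : Gal(F/K), ∃ S : Finset (HeightOneSpectrum (𝓞 F)), ∀ v, v ∉ S →
      cc (E.map (τ : F →+* F)) v = cc (qt E (d τ)) v) :
    ∃ C : ℝ, 0 ≤ C ∧ ∀ t δ : ℝ, 0 < δ →
      ‖(Fintype.card Gal(F/K) : ℂ) * logDeriv E.LSeries ((3 / 2 + δ : ℝ) + t * Complex.I) +
        SD (K := F) (1 + δ) (fun v => (cc E v : ℂ) *
          (((∑ τ, sg (θ τ) (Fr v) : ℝ) : ℂ) * ph t (nm v)))‖ ≤ C := by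
  classical
  obtain ⟨C₀, h00, h0⟩ := logDeriv_LSeries F
  choose C₁ hC₁0 hC₁ using fun τ : Gal(F/K) => sd_conj E τ
  choose S₁ hS₁ using hE
  choose S₂ hS₂ using fun τ : Gal(F/K) => cc_qt_frob E hFr (hd τ) (hθ τ)
  refine ⟨∑ τ, (C₀ + C₁ τ + 2 * 2 * ((S₁ τ ∪ S₂ τ).card : ℝ)), Finset.sum_nonneg fun τ _ => by
    have := hC₁0 τ
    positivity, fun t δ hδ => ?_⟩
  have hσ : 1 < 1 + δ := by linarith
  have hb3 : ∀ (τ : Gal(F/K)) (v : HeightOneSpectrum (𝓞 F)),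
      ‖(sg (θ τ) (Fr v) : ℂ) * ((cc E v : ℂ) * ph t (nm v))‖ ≤ 2 := by
    intro τ v
    rw [norm_mul, Complex.norm_real, Real.norm_eq_abs, abs_sg, one_mul]
    exact norm_cc_ph_le E t v
  -- one conjugate
  have h1 : ∀ τ : Gal(F/K),
      ‖logDeriv E.LSeries ((3 / 2 + δ : ℝ) + t * Complex.I) +
        SD (1 + δ) (fun v : HeightOneSpectrum (𝓞 F) =>
          (sg (θ τ) (Fr v) : ℂ) * ((cc E v : ℂ) * ph t (nm v)))‖ ≤
        C₀ + C₁ τ + 2 * 2 * ((S₁ τ ∪ S₂ τ).card : ℝ) := by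
    intro τ
    have a1 := hC₁ τ t δ hδ
    have a2 := (h0 E δ t hδ).2.2
    have a3 := norm_SD_sub_le (norm_cc_ph_le (E.map (τ : F →+* F)) t) (hb3 τ) (S₁ τ ∪ S₂ τ)
      (fun v hv => by
        rw [Finset.mem_union, not_or] at hv
        rw [hS₁ τ v hv.1, hS₂ τ v hv.2]
        push_cast
        ring) hσ
    set L := logDeriv E.LSeries ((3 / 2 + δ : ℝ) + t * Complex.I)
    set X := SD (1 + δ) (fun v : HeightOneSpectrum (𝓞 F) => (cc E v : ℂ) * ph t (nm v))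
    set Y := SD (1 + δ) (fun v : HeightOneSpectrum (𝓞 F) =>
      (cc (E.map (τ : F →+* F)) v : ℂ) * ph t (nm v))
    set Z := SD (1 + δ) (fun v : HeightOneSpectrum (𝓞 F) =>
      (sg (θ τ) (Fr v) : ℂ) * ((cc E v : ℂ) * ph t (nm v)))
    have e : L + Z = (L + X) + (Y - X) - (Y - Z) := by ring
    rw [e]
    refine (norm_sub_le _ _).trans ?_
    have := norm_add_le (L + X) (Y - X)
    linarith
  -- the sum
  have h2 : SD (K := F) (1 + δ) (fun v => (cc E v : ℂ) *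
      (((∑ τ, sg (θ τ) (Fr v) : ℝ) : ℂ) * ph t (nm v))) =
      ∑ τ, SD (1 + δ) (fun v : HeightOneSpectrum (𝓞 F) =>
        (sg (θ τ) (Fr v) : ℂ) * ((cc E v : ℂ) * ph t (nm v))) := by
    rw [SD_sum60 _ hσ hb3]
    congr 1
    funext v
    rw [← Finset.sum_mul]
    push_cast
    ring
  rw [h2]
  have h3 : (Fintype.card Gal(F/K) : ℂ) *
      logDeriv E.LSeries ((3 / 2 + δ : ℝ) + t * Complex.I) =
      ∑ _τ : Gal(F/K), logDeriv E.LSeries ((3 / 2 + δ : ℝ) + t * Complex.I) := by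
    rw [Finset.sum_const, Finset.card_univ, nsmul_eq_mul]
  rw [h3, ← Finset.sum_add_distrib]
  exact (norm_sum_le _ _).trans (Finset.sum_le_sum fun τ _ => h1 τ)

/-- The bound for K-curves. -/
theorem kcurve_finalL [Fintype Gal(F/K)] (E : WeierstrassCurve F) [E.IsElliptic]
    (d : Gal(F/K) → F) (hd : ∀ τ, d τ ≠ 0) (θ : Gal(F/K) → M)
    (hθ : ∀ τ, θ τ ^ 2 = algebraMap F M (d τ))
    (hE : ∀ τ : Gal(F/K), ∃ S : Finset (HeightOneSpectrum (𝓞 F)), ∀ v, v ∉ S →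
      cc (E.map (τ : F →+* F)) v = cc (qt E (d τ)) v) {q : ℝ}
    (hq : (∑ g : Gal(M/F), |∑ τ, sg (θ τ) g|) / Fintype.card Gal(M/F) ≤ q * finrank K F)
    {ε : ℝ} (hε : 0 < ε) :
    (∀ᶠ σ : ℝ in 𝓝[>] (3 / 2), ∀ t : ℝ, ‖logDeriv E.LSeries (σ + t * Complex.I)‖ ≤
      (2 * q + ε) / (σ - 3 / 2)) ∧
    ∀ t : ℝ, t ≠ 0 → ∀ᶠ σ : ℝ in 𝓝[>] (3 / 2), ‖logDeriv E.LSeries (σ + t * Complex.I)‖ ≤
      (4 / Real.pi * q + ε) / (σ - 3 / 2) := by
  have hfd : FiniteDimensional F M := Module.Finite.of_restrictScalars_finite ℚ F M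
  have hfdK : FiniteDimensional K F := Module.Finite.of_restrictScalars_finite ℚ K F
  choose Fr hFr using fun v : HeightOneSpectrum (𝓞 F) => exists_isFr (K := F) (M := M) v
  obtain ⟨C, hC0, hC⟩ := kcurve_keyL E hFr d hd θ hθ hE
  set f : Gal(M/F) → ℂ := fun g => ((∑ τ, sg (θ τ) g : ℝ) : ℂ) with hf
  have hfc : IsClassFn f := fun g h => by
    simp only [hf]
    congr 1
    exact Finset.sum_congr rfl fun τ _ => sg_conj (hθ τ) g h
  set n : ℝ := (finrank K F : ℝ) with hn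
  have hn0 : 0 < n := by
    rw [hn]
    exact_mod_cast finrank_pos
  have hcardG : (Fintype.card Gal(F/K) : ℂ) = (n : ℂ) := by
    rw [hn, ← IsGalois.card_aut_eq_finrank, Nat.card_eq_fintype_card]
    push_cast
    rfl
  have hnC : (n : ℂ) ≠ 0 := Complex.ofReal_ne_zero.mpr hn0.ne'
  have hninv : ‖(n : ℂ)⁻¹‖ = n⁻¹ := by
    rw [norm_inv, Complex.norm_real, Real.norm_eq_abs, abs_of_pos hn0]
  have hmean : (∑ g : Gal(M/F), ‖f g‖) / Fintype.card Gal(M/F) ≤ q * n := by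
    refine le_trans (le_of_eq ?_) hq
    congr 1
    refine Finset.sum_congr rfl fun g _ => ?_
    simp only [hf]
    rw [Complex.norm_real, Real.norm_eq_abs]
  have hpos : ∀ᶠ σ : ℝ in 𝓝[>] (3 / 2), 0 ≤ 1 / (σ - 3 / 2) :=
    tendsto_inv_edge77.eventually (eventually_ge_atTop 0)
  have hXY : ∀ t σ : ℝ, 3 / 2 < σ →
      ‖logDeriv E.LSeries (σ + t * Complex.I) + (n : ℂ)⁻¹ *
        SD (K := F) (1 + (σ - 3 / 2)) (fun v => (cc E v : ℂ) *
          (f (Fr v) * ph t (nm v)))‖ ≤ n⁻¹ * C := by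
    intro t σ hσ
    have h6 := hC t (σ - 3 / 2) (by linarith)
    have e : ((3 / 2 + (σ - 3 / 2) : ℝ) : ℂ) = σ := by norm_num
    rw [e, hcardG] at h6
    have e2 : logDeriv E.LSeries (σ + t * Complex.I) + (n : ℂ)⁻¹ *
        SD (K := F) (1 + (σ - 3 / 2)) (fun v => (cc E v : ℂ) *
          (f (Fr v) * ph t (nm v))) = (n : ℂ)⁻¹ *
          ((n : ℂ) * logDeriv E.LSeries (σ + t * Complex.I) +
            SD (K := F) (1 + (σ - 3 / 2)) (fun v => (cc E v : ℂ) *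
              (f (Fr v) * ph t (nm v)))) := by
      rw [mul_add, inv_mul_cancel_left₀ hnC]
    rw [e2, norm_mul, hninv]
    exact mul_le_mul_of_nonneg_left h6 (inv_pos.mpr hn0).le
  have hstep : ∀ {k L : ℝ} {x : ℂ}, 0 ≤ k → 0 ≤ L → ‖x‖ ≤ (k * ((∑ g : Gal(M/F), ‖f g‖) /
      Fintype.card Gal(M/F)) + n * (ε / 2)) * L → ‖(n : ℂ)⁻¹ * x‖ ≤ (k * q + ε / 2) * L := by
    intro k L x hk hL hx
    rw [norm_mul, hninv]
    calc n⁻¹ * ‖x‖ ≤ n⁻¹ * ((k * ((∑ g : Gal(M/F), ‖f g‖) / Fintype.card Gal(M/F)) +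
          n * (ε / 2)) * L) := mul_le_mul_of_nonneg_left hx (inv_pos.mpr hn0).le
      _ ≤ n⁻¹ * ((k * (q * n) + n * (ε / 2)) * L) := by
          have := inv_pos.mpr hn0
          gcongr
      _ = (k * q + ε / 2) * L := by
          field_simp
  constructor
  · have h4 := tendsto_sub_three_halves.eventually
      (single_class_unifL (stCHEBL F M) hFr (c := fun v => cc E v) (fun v => abs_cc_le E v) hfc
        (mul_pos hn0 (half_pos hε)))
    have h5 := conj_stepL (A := 2 * q) hε (T := Set.univ)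
      (X := fun σ t => logDeriv E.LSeries (σ + t * Complex.I))
      (Y := fun σ t => (n : ℂ)⁻¹ * SD (K := F) (1 + (σ - 3 / 2)) (fun v => (cc E v : ℂ) *
          (f (Fr v) * ph t (nm v)))) hXY (by
        filter_upwards [h4, hpos] with σ h4 h5 t _
        rw [add_sub_cancel_left] at h4
        exact hstep zero_le_two h5 (h4 t))
    exact h5.mono fun σ h t => h t trivial
  · intro t ht
    have h4 := tendsto_sub_three_halves.eventually
      (single_classL (stCHEBL F M) hFr (c := fun v => cc E v) (fun v => abs_cc_le E v) hfc t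
        (mul_pos hn0 (half_pos hε)))
    rw [if_neg ht] at h4
    have h5 := conj_stepL (A := 4 / Real.pi * q) hε (T := {t})
      (X := fun σ t => logDeriv E.LSeries (σ + t * Complex.I))
      (Y := fun σ t => (n : ℂ)⁻¹ * SD (K := F) (1 + (σ - 3 / 2)) (fun v => (cc E v : ℂ) *
          (f (Fr v) * ph t (nm v)))) hXY (by
        filter_upwards [h4, hpos] with σ h4 h5 t' ht'
        rw [Set.mem_singleton_iff] at ht'
        subst ht'
        rw [add_sub_cancel_left] at h4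
        exact hstep (by positivity) h5 h4)
    exact h5.mono fun σ h => h t rfl

end Main

section Public

variable {K F : Type*} [Field K] [NumberField K] [Field F] [NumberField F] [Algebra K F]
  [IsGalois K F]

/-- The bound for K-curves. -/
theorem kcurve_publicL (E : WeierstrassCurve F) [E.IsElliptic]
    (hE : ∀ τ : Gal(F/K), ∃ d : F, d ≠ 0 ∧ SameL (E.map (τ : F →+* F)) (qt E d)) :
    ∃ B : ℝ, 0 ≤ B ∧ B ≤ Real.sqrt
        (Nat.card {τ : Gal(F/K) // SameL (E.map (τ : F →+* F)) E} / finrank K F) ∧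
      (Nat.card {τ : Gal(F/K) // SameL (E.map (τ : F →+* F)) E} < finrank K F →
        B < Real.sqrt
          (Nat.card {τ : Gal(F/K) // SameL (E.map (τ : F →+* F)) E} / finrank K F)) ∧
      ∀ ε : ℝ, 0 < ε →
        (∀ᶠ σ : ℝ in 𝓝[>] (3 / 2), ∀ t : ℝ, ‖logDeriv E.LSeries (σ + t * Complex.I)‖ ≤
          (2 * B + ε) / (σ - 3 / 2)) ∧
        ∀ t : ℝ, t ≠ 0 → ∀ᶠ σ : ℝ in 𝓝[>] (3 / 2),
          ‖logDeriv E.LSeries (σ + t * Complex.I)‖ ≤
            (4 / Real.pi * B + ε) / (σ - 3 / 2) := by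
  have hfdK : FiniteDimensional K F := Module.Finite.of_restrictScalars_finite ℚ K F
  have hG := Fintype.ofFinite Gal(F/K)
  choose d hd hdE using hE
  obtain ⟨M, hM1, hM2, hM3, hM4, θ, hθ⟩ := exists_sqrt_ext63 d
  have hfd : FiniteDimensional F M := Module.Finite.of_restrictScalars_finite ℚ F M
  have hGM := Fintype.ofFinite Gal(M/F)
  have h2M : NeZero (2 : M) := ⟨two_ne_zero⟩
  have hsum := sum_sg_sq d hd θ hθ
  set P : ℕ := Nat.card {p : Gal(F/K) × Gal(F/K) // IsSquare (d p.1 * d p.2)} with hP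
  set m : ℕ := Nat.card {τ : Gal(F/K) // SameL (E.map (τ : F →+* F)) E} with hm
  set n : ℕ := finrank K F with hn
  have hn0 : 0 < n := finrank_pos
  have hcardG : Nat.card Gal(F/K) = n := IsGalois.card_aut_eq_finrank K F
  have hcardG' : Fintype.card Gal(F/K) = n := by rw [← Nat.card_eq_fintype_card, hcardG]
  have hPm : P ≤ n * m := by
    rw [← hcardG]
    exact card_pairs_le E d hd hdE
  have hnR : (0 : ℝ) < n := Nat.cast_pos.mpr hn0
  have hPmR : (P : ℝ) ≤ n * m := by exact_mod_cast hPm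
  have hone : ∑ τ : Gal(F/K), sg (θ τ) (1 : Gal(M/F)) = n := by
    have h1 : ∀ τ : Gal(F/K), sg (θ τ) (1 : Gal(M/F)) = 1 := fun τ => by
      unfold sg
      rw [if_pos (AlgEquiv.one_apply _)]
    rw [Finset.sum_congr rfl fun τ _ => h1 τ, Finset.sum_const, Finset.card_univ, hcardG',
      nsmul_eq_mul, mul_one]
  obtain ⟨hcs1, hcs2⟩ := mean_abs_cs (fun g : Gal(M/F) => ∑ τ, sg (θ τ) g)
    (Nat.cast_nonneg P) 1 hone hsum
  set μ : ℝ := (∑ g : Gal(M/F), |∑ τ, sg (θ τ) g|) / Fintype.card Gal(M/F) with hμ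
  have hsqrt : Real.sqrt ((m : ℝ) / n) = Real.sqrt (n * m) / n := by
    rw [eq_div_iff hnR.ne', ← Real.sqrt_sq hnR.le, ← Real.sqrt_mul (by positivity),
      Real.sqrt_sq hnR.le]
    congr 1
    field_simp
  have hμ0 : 0 ≤ μ := div_nonneg (Finset.sum_nonneg fun g _ => abs_nonneg _) (Nat.cast_nonneg _)
  refine ⟨μ / n, div_nonneg hμ0 hnR.le, ?_, ?_, fun ε hε => ?_⟩
  · rw [hsqrt]
    exact div_le_div_of_nonneg_right (hcs1.trans (Real.sqrt_le_sqrt hPmR)) hnR.le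
  · intro hlt
    have hltR : (m : ℝ) < n := by exact_mod_cast hlt
    rw [hsqrt]
    refine div_lt_div_of_pos_right ((hcs2 ?_).trans_le (Real.sqrt_le_sqrt hPmR)) hnR
    calc (P : ℝ) ≤ n * m := hPmR
      _ < n * n := mul_lt_mul_of_pos_left hltR hnR
      _ = (n : ℝ) ^ 2 := by ring
  · have hlp : ∀ τ : Gal(F/K), ∃ S : Finset (HeightOneSpectrum (𝓞 F)), ∀ v, v ∉ S →
        cc (E.map (τ : F →+* F)) v = cc (qt E (d τ)) v := fun τ => (hdE τ).cc
    refine kcurve_finalL E d hd θ hθ hlp (q := μ / n) ?_ hε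
    rw [div_mul_cancel₀ _ hnR.ne']

end Public

end Pool.Agent.Lib.MP_bf61d2_nt.Artin.LA
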