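import Mathlib
import Pool.Agent.Lib.MP_bf61d2_nt.Trim.Artin.Defs63
import Pool.Agent.Lib.MP_bf61d2_nt.Trim.Artin.LA.DefsLA63
import Pool.Agent.Lib.MP_bf61d2_nt.Trim.Artin.LA.REGL77
import Pool.Agent.Lib.MP_bf61d2_nt.Trim.Artin.LA.SGL93
import Pool.Agent.Lib.MP_bf61d2_nt.Trim.Artin.V2x7
import Pool.Agent.Lib.MP_bf61d2_nt.Trim.Artin.V70
import Pool.Agent.Lib.MP_bf61d2_nt.Trim.Places

set_option autoImplicit false

/-!
ARTIN EDGE, local form (MP_bf61d2_nt), module SGU: the zonoid bound with logarithms and the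
bound of the modulus for one class function, with thresholds independent of the coefficients.
-/

namespace NumberField
end NumberField

namespace Pool.Agent.Lib.MP_bf61d2_nt.Perm
end Pool.Agent.Lib.MP_bf61d2_nt.Perm

namespace Pool.Agent.Lib.MP_bf61d2_nt.Artin
end Pool.Agent.Lib.MP_bf61d2_nt.Artin

namespace Pool.Agent.Lib.MP_bf61d2_nt.Artin.LA

open NumberField IsDedekindDomain Filter Topology Polynomial Module

open Pool.Agent.Lib.MP_bf61d2_nt.Perm

open Pool.Agent.Lib.MP_bf61d2_nt.Artin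

section Zon

variable {K M : Type*} [Field K] [NumberField K] [Field M] [NumberField M] [Algebra K M]
  [IsGalois K M] [Fintype Gal(M/K)]

/-- The zonoid bound, with logarithms. -/
theorem zonoid_boundU93 (hC : StCHEBL K M) {Fr : HeightOneSpectrum (𝓞 K) → Gal(M/K)}
    (hFr : ∀ v, IsFr v (Fr v))
    {n : ℕ} (f : Fin n → Gal(M/K) → ℂ)
    (hf : ∀ j, IsClassFn (f j)) (t : Fin n → ℝ) :
    ∃ B : ℝ, Tendsto (fun X : ℝ => X⁻¹ * ∫ u in (0 : ℝ)..X,
        (∑ g : Gal(M/K), |(∑ j, f j g * Complex.exp (((-(t j * u) : ℝ) : ℂ) * Complex.I)).re|) /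
          Fintype.card Gal(M/K)) atTop (𝓝 B) ∧
      ∀ ε : ℝ, 0 < ε → ∀ᶠ σ : ℝ in 𝓝[>] 1, ∀ c : HeightOneSpectrum (𝓞 K) → ℝ,
        (∀ v, |c v| ≤ 2) →
        |(∑ j, SD (K := K) σ (fun v => (c v : ℂ) * (f j (Fr v) * ph (t j) (nm v)))).re| ≤
          (2 * B + ε) * (1 / (σ - 1)) := by
  obtain ⟨B, hB, happ⟩ := exists_mean_abs f hf t
  refine ⟨B, hB, fun ε hε => ?_⟩
  obtain ⟨N, F, τ, hF, hle, hmean⟩ := happ (ε / 4) (by linarith)
  set η : ℝ := ε / (4 * (N + 1)) with hη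
  have hN : (0 : ℝ) < N + 1 := by positivity
  have hη0 : 0 < η := by positivity
  have h1 : ∀ᶠ σ : ℝ in 𝓝[>] 1, ∀ k, ‖SD σ (fun v => F k (Fr v) * ph (τ k) (nm v)) -
      (if τ k = 0 then (∑ g, F k g) / Fintype.card Gal(M/K) else 0) *
        ((1 / (σ - 1) : ℝ) : ℂ)‖ ≤ η * (1 / (σ - 1)) :=
    eventually_all.mpr fun k => hC Fr hFr (F k) (hF k) (τ k) η hη0
  filter_upwards [h1, self_mem_nhdsWithin] with σ h1 hσ c hc
  have hσ' : 1 < σ := hσ
  have h2 : 0 ≤ 1 / (σ - 1) := by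
    have : 0 < σ - 1 := by linarith
    positivity
  set L : ℝ := 1 / (σ - 1) with hL
  have hbf : ∀ j v, ‖(c v : ℂ) * (f j (Fr v) * ph (t j) (nm v))‖ ≤ 2 * ∑ g, ‖f j g‖ := by
    intro j v
    rw [norm_mul, norm_mul, norm_ph93, mul_one, Complex.norm_real, Real.norm_eq_abs]
    exact mul_le_mul (hc v) (Finset.single_le_sum (f := fun g => ‖f j g‖)
      (fun g _ => norm_nonneg _) (Finset.mem_univ _)) (norm_nonneg _) zero_le_two
  have hbF : ∀ k v, ‖F k (Fr v) * ph (τ k) (nm v)‖ ≤ ∑ g, ‖F k g‖ := by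
    intro k v
    rw [norm_mul, norm_ph93, mul_one]
    exact Finset.single_le_sum (f := fun g => ‖F k g‖)
      (fun g _ => norm_nonneg _) (Finset.mem_univ _)
  have hs : ∀ (m : ℕ) (φ : Fin m → HeightOneSpectrum (𝓞 K) → ℂ) (C : Fin m → ℝ),
      (∀ k v, ‖φ k v‖ ≤ C k) →
      (Summable fun v => wd σ v * (∑ k, φ k v).re) ∧
      (∑ k, SD (K := K) σ (φ k)).re = ∑' v, wd σ v * (∑ k, φ k v).re := by
    intro m φ C hφ
    have hsum : ∀ k, Summable fun v => wd σ v * (φ k v).re := fun k => by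
      have := (Complex.hasSum_re (summable_SD hσ' (hφ k)).hasSum).summable
      simpa only [Complex.re_ofReal_mul] using this
    have e : ∀ v, wd σ v * (∑ k, φ k v).re = ∑ k, wd σ v * (φ k v).re := fun v => by
      rw [Complex.re_sum, Finset.mul_sum]
    constructor
    · simp_rw [e]
      exact summable_sum fun k _ => hsum k
    · simp_rw [e]
      rw [Summable.tsum_finsetSum fun k _ => hsum k, Complex.re_sum]
      exact Finset.sum_congr rfl fun k _ => SD_re hσ' (hφ k)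
  obtain ⟨hs1, he1⟩ := hs n (fun j v => (c v : ℂ) * (f j (Fr v) * ph (t j) (nm v))) _ hbf
  obtain ⟨hs2, he2⟩ := hs N (fun k v => F k (Fr v) * ph (τ k) (nm v)) _ hbF
  have hpt : ∀ v, |wd σ v * (∑ j, (c v : ℂ) * (f j (Fr v) * ph (t j) (nm v))).re| ≤
      2 * (wd σ v * (∑ k, F k (Fr v) * ph (τ k) (nm v)).re) := by
    intro v
    rw [← Finset.mul_sum, Complex.re_ofReal_mul, abs_mul, abs_mul, abs_of_pos (wd_pos σ v)]
    have h3 := hle (Fr v) (Real.log (nm v))
    have h4 : |(∑ j, f j (Fr v) * ph (t j) (nm v)).re| ≤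
        (∑ k, F k (Fr v) * ph (τ k) (nm v)).re := h3
    have h5 := (abs_nonneg _).trans h4
    calc wd σ v * (|c v| * |(∑ j, f j (Fr v) * ph (t j) (nm v)).re|) ≤
          wd σ v * (2 * (∑ k, F k (Fr v) * ph (τ k) (nm v)).re) := by
          have := wd_pos σ v
          have := hc v
          gcongr
      _ = _ := by ring
  have h6 : |(∑ j, SD (K := K) σ (fun v => (c v : ℂ) * (f j (Fr v) * ph (t j) (nm v)))).re| ≤
      2 * (∑ k, SD (K := K) σ (fun v => F k (Fr v) * ph (τ k) (nm v))).re := by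
    rw [he1, he2, ← tsum_mul_left]
    have h7 := norm_tsum_le_tsum_norm hs1.norm
    simp only [Real.norm_eq_abs] at h7
    refine h7.trans (Summable.tsum_le_tsum hpt hs1.abs (hs2.mul_left 2))
  refine h6.trans ?_
  have h8 : (∑ k, SD (K := K) σ (fun v => F k (Fr v) * ph (τ k) (nm v))).re ≤
      (∑ k, if τ k = 0 then (∑ g, F k g) / Fintype.card Gal(M/K) else 0).re * L + N * (η * L) := by
    rw [Complex.re_sum, Complex.re_sum, Finset.sum_mul]
    calc ∑ k, (SD (K := K) σ (fun v => F k (Fr v) * ph (τ k) (nm v))).re ≤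
          ∑ k, ((if τ k = 0 then (∑ g, F k g) / Fintype.card Gal(M/K) else 0 : ℂ).re * L +
            η * L) := by
          refine Finset.sum_le_sum fun k _ => ?_
          have h9 := (Complex.re_le_norm _).trans (h1 k)
          rw [Complex.sub_re, Complex.re_mul_ofReal] at h9
          linarith
      _ = _ := by
          rw [Finset.sum_add_distrib, Finset.sum_const, Finset.card_univ, Fintype.card_fin,
            nsmul_eq_mul]
  have h10 : N * (η * L) ≤ ε / 4 * L := by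
    rw [← mul_assoc]
    refine mul_le_mul_of_nonneg_right ?_ h2
    rw [hη, mul_div_assoc', div_le_div_iff₀ (by positivity) (by norm_num)]
    nlinarith
  have h11 : (∑ k, if τ k = 0 then (∑ g, F k g) / Fintype.card Gal(M/K) else 0 : ℂ).re * L ≤
      (B + ε / 4) * L := mul_le_mul_of_nonneg_right hmean h2
  nlinarith

/-- The bound for one class function, uniformly on the line, with the modulus. -/
theorem single_class_unifU (hC : StCHEBL K M) {Fr : HeightOneSpectrum (𝓞 K) → Gal(M/K)}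
    (hFr : ∀ v, IsFr v (Fr v))
    {f : Gal(M/K) → ℂ}
    (hf : IsClassFn f) {ε : ℝ} (hε : 0 < ε) : ∀ᶠ σ : ℝ in 𝓝[>] 1,
      ∀ c : HeightOneSpectrum (𝓞 K) → ℝ, (∀ v, |c v| ≤ 2) → ∀ t : ℝ,
      ‖SD (K := K) σ (fun v => (c v : ℂ) * (f (Fr v) * ph t (nm v)))‖ ≤
        (2 * ((∑ g : Gal(M/K), ‖f g‖) / Fintype.card Gal(M/K)) + ε) * (1 / (σ - 1)) := by
  have hf' : IsClassFn (fun g => ((‖f g‖ : ℝ) : ℂ)) := fun g h => by simp only [hf g h]
  filter_upwards [hC Fr hFr _ hf' 0 (ε / 2) (half_pos hε), self_mem_nhdsWithin] with σ h1 hσ c hc t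
  have hσ' : 1 < σ := hσ
  rw [if_pos rfl] at h1
  set m : ℝ := (∑ g : Gal(M/K), ‖f g‖) / Fintype.card Gal(M/K) with hm
  have hb : ∀ v, ‖(c v : ℂ) * (f (Fr v) * ph t (nm v))‖ ≤ 2 * ∑ g, ‖f g‖ := by
    intro v
    rw [norm_mul, norm_mul, norm_ph93, mul_one, Complex.norm_real, Real.norm_eq_abs]
    exact mul_le_mul (hc v) (Finset.single_le_sum (f := fun g => ‖f g‖)
      (fun g _ => norm_nonneg _) (Finset.mem_univ _)) (norm_nonneg _) zero_le_two
  have hb' : ∀ v, ‖((‖f (Fr v)‖ : ℝ) : ℂ) * ph 0 (nm v)‖ ≤ ∑ g, ‖f g‖ := by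
    intro v
    rw [norm_mul, norm_ph93, mul_one, Complex.norm_real, norm_norm]
    exact Finset.single_le_sum (f := fun g => ‖f g‖) (fun g _ => norm_nonneg _) (Finset.mem_univ _)
  have hs := (summable_SD (K := K) hσ' hb').norm
  have e0 : ∀ v : HeightOneSpectrum (𝓞 K), ph 0 (nm v) = 1 := fun v => by simp [ph]
  have h2 : (SD (K := K) σ (fun v => ((‖f (Fr v)‖ : ℝ) : ℂ) * ph 0 (nm v))).re =
      ∑' v, wd σ v * ‖f (Fr v)‖ := by
    rw [SD_re hσ' hb']
    refine tsum_congr fun v => ?_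
    rw [e0, mul_one, Complex.ofReal_re]
  have h3 : Summable fun v => wd σ v * ‖f (Fr v)‖ := by
    refine hs.congr fun v => ?_
    rw [e0, mul_one, norm_mul, Complex.norm_real, Complex.norm_real, norm_norm, Real.norm_eq_abs,
      abs_of_pos (wd_pos σ v)]
  have h4 : ‖SD (K := K) σ (fun v => (c v : ℂ) * (f (Fr v) * ph t (nm v)))‖ ≤
      2 * ∑' v, wd σ v * ‖f (Fr v)‖ := by
    rw [SD, ← tsum_mul_left]
    refine (norm_tsum_le_tsum_norm (summable_SD hσ' hb).norm).trans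
      (Summable.tsum_le_tsum (fun v => ?_) (summable_SD hσ' hb).norm (h3.mul_left 2))
    rw [norm_mul, norm_mul, norm_mul, norm_ph93, mul_one, Complex.norm_real, Complex.norm_real,
      Real.norm_eq_abs, Real.norm_eq_abs, abs_of_pos (wd_pos σ v)]
    have h5 := mul_le_mul_of_nonneg_right (hc v) (norm_nonneg (f (Fr v)))
    have h6 := mul_le_mul_of_nonneg_left h5 (wd_pos σ v).le
    linarith
  have h7 := (Complex.re_le_norm _).trans h1
  rw [Complex.sub_re, Complex.re_mul_ofReal, h2] at h7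
  have h8 : ((∑ g : Gal(M/K), ((‖f g‖ : ℝ) : ℂ)) / (Fintype.card Gal(M/K) : ℂ)).re = m := by
    rw [← Complex.ofReal_sum, ← Complex.ofReal_natCast, ← Complex.ofReal_div, Complex.ofReal_re]
  rw [h8] at h7
  linarith

/-- The zonoid bound for the modulus, for one class function. -/
theorem single_classU (hC : StCHEBL K M) {Fr : HeightOneSpectrum (𝓞 K) → Gal(M/K)}
    (hFr : ∀ v, IsFr v (Fr v))
    {f : Gal(M/K) → ℂ}
    (hf : IsClassFn f) (t : ℝ) {ε : ℝ} (hε : 0 < ε) : ∀ᶠ σ : ℝ in 𝓝[>] 1,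
      ∀ c : HeightOneSpectrum (𝓞 K) → ℝ, (∀ v, |c v| ≤ 2) →
      ‖SD (K := K) σ (fun v => (c v : ℂ) * (f (Fr v) * ph t (nm v)))‖ ≤
        ((if t = 0 then 2 else 4 / Real.pi) *
          ((∑ g : Gal(M/K), ‖f g‖) / Fintype.card Gal(M/K)) + ε) * (1 / (σ - 1)) := by
  by_cases ht : t = 0
  · simp only [if_pos ht]
    exact (single_class_unifU hC hFr hf hε).mono fun σ h c hc => h c hc t
  simp only [if_neg ht]
  set m : ℝ := (∑ g : Gal(M/K), ‖f g‖) / Fintype.card Gal(M/K) with hm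
  have hm0 : 0 ≤ m := by
    rw [hm]
    exact div_nonneg (Finset.sum_nonneg fun g _ => norm_nonneg _) (Nat.cast_nonneg _)
  have hpi := Real.pi_pos
  set A : ℝ := 4 / Real.pi * m + ε with hA
  have hA0 : 0 < A := by positivity
  have hAε : ε ≤ A := by
    rw [hA]
    have : 0 ≤ 4 / Real.pi * m := by positivity
    linarith
  set η : ℝ := ε / (2 * A) with hη
  have hη0 : 0 < η := by positivity
  have hη1 : η ≤ 1 / 2 := by
    rw [hη, div_le_div_iff₀ (by positivity) (by norm_num)]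
    linarith
  obtain ⟨T, hfin, hT1, hT2⟩ := exists_net93 hη0
  have hw : ∀ w ∈ T, ∀ᶠ σ : ℝ in 𝓝[>] 1, ∀ c : HeightOneSpectrum (𝓞 K) → ℝ,
      (∀ v, |c v| ≤ 2) →
      |(SD (K := K) σ (fun v => (c v : ℂ) * (w * f (Fr v) * ph t (nm v)))).re| ≤
        (4 / Real.pi * m + ε / 2) * (1 / (σ - 1)) := by
    intro w hw
    have hcl : IsClassFn (fun g => w * f g) := fun g h => by simp only [hf g h]
    obtain ⟨B, hB, hbd⟩ := zonoid_boundU93 hC hFr (fun _ : Fin 1 => fun g => w * f g)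
      (fun _ => hcl) (fun _ => t)
    simp only [Fin.sum_univ_one] at hB hbd
    have h := tendsto_nhds_unique hB (mean_abs_single (fun g => w * f g) ht)
    have hm' : (∑ g : Gal(M/K), ‖w * f g‖) / Fintype.card Gal(M/K) = m := by
      rw [hm]
      congr 1
      refine Finset.sum_congr rfl fun g _ => ?_
      rw [norm_mul, hT1 w hw, one_mul]
    have hB2 : 2 * B = 4 / Real.pi * m := by
      rw [h, hm']
      ring
    filter_upwards [hbd (ε / 2) (half_pos hε)] with σ h1 c hc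
    have h1 := h1 c hc
    rw [hB2] at h1
    exact h1
  filter_upwards [(Filter.eventually_all_finite hfin).mpr hw, self_mem_nhdsWithin] with σ h1 hσ c hc
  have hσ' : 1 < σ := hσ
  have hL : 0 ≤ 1 / (σ - 1) := by
    have : 0 < σ - 1 := by linarith
    positivity
  obtain ⟨w, hwT, hw2⟩ := hT2 (SD (K := K) σ (fun v => (c v : ℂ) * (f (Fr v) * ph t (nm v))))
  have h3 : SD (K := K) σ (fun v => (c v : ℂ) * (w * f (Fr v) * ph t (nm v))) =
      w * SD (K := K) σ (fun v => (c v : ℂ) * (f (Fr v) * ph t (nm v))) := by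
    rw [← SD_const_mul]
    congr 1
    funext v
    ring
  have h4 := h1 w hwT c hc
  rw [h3] at h4
  have h5 := hw2.trans ((le_abs_self _).trans h4)
  have h6 : (4 / Real.pi * m + ε / 2) * (1 / (σ - 1)) ≤ (1 - η) * (A * (1 / (σ - 1))) := by
    rw [← mul_assoc]
    refine mul_le_mul_of_nonneg_right ?_ hL
    have h7 : η * A = ε / 2 := by
      rw [hη]
      field_simp
    have h8 : (1 - η) * A = A - ε / 2 := by
      rw [sub_mul, h7, one_mul]
    rw [h8, hA]
    linarith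
  exact le_of_mul_le_mul_left (h5.trans h6) (by linarith)

end Zon

end Pool.Agent.Lib.MP_bf61d2_nt.Artin.LA
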