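import Mathlib
import Pool.Agent.Lib.MP_bf61d2_nt.Trim.Artin.U.TWU73
import Pool.Agent.Lib.MP_bf61d2_nt.Trim.LocalCurve
import Pool.Agent.Lib.MP_bf61d2_nt.Trim.Model
import Pool.Agent.Lib.MP_bf61d2_nt.Trim.Perm.Base
import Pool.Agent.Lib.MP_bf61d2_nt.Trim.Places
import Pool.Agent.Lib.MP_bf61d2_nt.Trim.Quad
import Pool.Agent.Lib.MP_bf61d2_nt.Trim.Structure
import Pool.Agent.Lib.MP_bf61d2_nt.Trim.TwistLocal

set_option autoImplicit false

/-!
ARTIN EDGE, local form (MP_bf61d2_nt), module UBC: the traces of Frobenius of a curve and of its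
base change at the unramified places of degree one, uniformly in the curve.
-/

namespace NumberField
end NumberField

namespace WeierstrassCurve
end WeierstrassCurve

namespace Pool.Agent.Lib.MP_bf61d2_nt.Perm
end Pool.Agent.Lib.MP_bf61d2_nt.Perm

namespace Pool.Agent.Lib.MP_bf61d2_nt.Artin
end Pool.Agent.Lib.MP_bf61d2_nt.Artin

namespace Pool.Agent.Lib.MP_bf61d2_nt.Artin.TW73
end Pool.Agent.Lib.MP_bf61d2_nt.Artin.TW73

namespace Pool.Agent.Lib.MP_bf61d2_nt.Artin.LA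

open NumberField IsDedekindDomain IsDedekindDomain.HeightOneSpectrum WeierstrassCurve IsLocalRing

open Pool.Agent.Lib.MP_bf61d2_nt.Perm Pool.Agent.Lib.MP_bf61d2_nt.Artin

open Pool.Agent.Lib.MP_bf61d2_nt.Artin.TW73

open scoped WithZero

section Crit

variable {K : Type*} [Field K] [NumberField K]

/-- The numerical criterion for good reduction at a place prime to `6`. -/
def CR77 (v : HeightOneSpectrum (𝓞 K)) (W : WeierstrassCurve K) : Prop :=
  ∃ g : ℤᵐ⁰, g ≠ 0 ∧ v.valuation K W.Δ = g ^ 12 ∧ v.valuation K W.c₄ ≤ g ^ 4 ∧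
    v.valuation K W.c₆ ≤ g ^ 6

variable {v : HeightOneSpectrum (𝓞 K)} {W : WeierstrassCurve K}

lemma valued_le_one77 (a : v.adicCompletionIntegers K) :
    Valued.v (algebraMap (v.adicCompletionIntegers K) (v.adicCompletion K) a) ≤ 1 := a.2

lemma cr_of_good77 (h2 : (2 : 𝓞 K) ∉ v.asIdeal) (h3 : (3 : 𝓞 K) ∉ v.asIdeal)
    (h : GoodAt W v) : CR77 v W := by
  have u2 : IsUnit (2 : v.adicCompletionIntegers K) := by
    have := isUnit_algebraMap v h2
    rwa [map_ofNat] at this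
  have u3 : IsUnit (3 : v.adicCompletionIntegers K) := by
    have := isUnit_algebraMap v h3
    rwa [map_ofNat] at this
  obtain ⟨A, B, D, hD, hΔ⟩ := exists_short (R := v.adicCompletionIntegers K)
    (W.baseChange (v.adicCompletion K)) h u2 u3
  set M : WeierstrassCurve (v.adicCompletionIntegers K) := ⟨0, 0, 0, A, B⟩ with hM
  set φ := algebraMap (v.adicCompletionIntegers K) (v.adicCompletion K) with hφ
  have hval : ∀ x : K, Valued.v (algebraMap K (v.adicCompletion K) x) = v.valuation K x :=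
    fun x => valuedAdicCompletion_eq_valuation' v x
  have hu : (D.u : v.adicCompletion K) ≠ 0 := D.u.ne_zero
  have hui : ((D.u⁻¹ : (v.adicCompletion K)ˣ) : v.adicCompletion K) ≠ 0 := (D.u⁻¹).ne_zero
  refine ⟨Valued.v ((D.u⁻¹ : (v.adicCompletion K)ˣ) : v.adicCompletion K), ?_, ?_, ?_, ?_⟩
  · exact (Valuation.ne_zero_iff _).mpr hui
  · have e1 : algebraMap K (v.adicCompletion K) W.Δ = (D.u⁻¹ : (v.adicCompletion K)ˣ) ^ 12 * φ M.Δ := by
      rw [← map_Δ W, ← map_Δ M]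
      have := congrArg WeierstrassCurve.Δ hD
      rw [variableChange_Δ] at this
      exact this
    have hone : Valued.v (φ M.Δ) = 1 := adicCompletionIntegers.isUnit_iff_valued_eq_one.mp hΔ
    rw [← hval, e1, map_mul, map_pow, hone, mul_one]
  · have e1 : algebraMap K (v.adicCompletion K) W.c₄ = (D.u⁻¹ : (v.adicCompletion K)ˣ) ^ 4 * φ M.c₄ := by
      rw [← map_c₄ W, ← map_c₄ M]
      have := congrArg WeierstrassCurve.c₄ hD
      rw [variableChange_c₄] at this
      exact this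
    rw [← hval, e1, map_mul, map_pow]
    exact mul_le_of_le_one_right' (valued_le_one77 _)
  · have e1 : algebraMap K (v.adicCompletion K) W.c₆ = (D.u⁻¹ : (v.adicCompletion K)ˣ) ^ 6 * φ M.c₆ := by
      rw [← map_c₆ W, ← map_c₆ M]
      have := congrArg WeierstrassCurve.c₆ hD
      rw [variableChange_c₆] at this
      exact this
    rw [← hval, e1, map_mul, map_pow]
    exact mul_le_of_le_one_right' (valued_le_one77 _)

lemma val_nat77 {n : ℕ} (h : (n : 𝓞 K) ∉ v.asIdeal) : v.valuation K (n : K) = 1 := by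
  have h1 := (valuation_eq_one_iff_notMem (K := K) v (r := (n : 𝓞 K))).mpr h
  have e : algebraMap (𝓞 K) K (n : 𝓞 K) = (n : K) := map_natCast _ n
  rwa [e] at h1

/-- A model with good reduction over the integers of the base field. -/
lemma model_of_cr77 (h2 : (2 : 𝓞 K) ∉ v.asIdeal) (h3 : (3 : 𝓞 K) ∉ v.asIdeal)
    (h : CR77 v W) : ∃ (W₀ : WeierstrassCurve (𝓞 K)) (C : VariableChange K),
      W = C • W₀.map (algebraMap (𝓞 K) K) ∧ W₀.Δ ∉ v.asIdeal := by
  classical
  obtain ⟨g, hg, hΔ, hc4, hc6⟩ := h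
  obtain ⟨x, hx⟩ := v.valuation_surjective K g
  have hx0 : x ≠ 0 := by
    rintro rfl
    rw [map_zero] at hx
    exact hg hx.symm
  have hprime := v.isPrime
  have h48 : ((48 : ℕ) : 𝓞 K) ∉ v.asIdeal := fun h => by
    have e : ((48 : ℕ) : 𝓞 K) = 2 ^ 4 * 3 := by norm_num
    rw [e] at h
    rcases hprime.mem_or_mem h with h | h
    · exact h2 (hprime.mem_of_pow_mem 4 h)
    · exact h3 h
  have h864 : ((864 : ℕ) : 𝓞 K) ∉ v.asIdeal := fun h => by
    have e : ((864 : ℕ) : 𝓞 K) = 2 ^ 5 * 3 ^ 3 := by norm_num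
    rw [e] at h
    rcases hprime.mem_or_mem h with h | h
    · exact h2 (hprime.mem_of_pow_mem 5 h)
    · exact h3 (hprime.mem_of_pow_mem 3 h)
  have v48 : v.valuation K (48 : K) = 1 := by
    have := val_nat77 (K := K) h48
    rwa [Nat.cast_ofNat] at this
  have v864 : v.valuation K (864 : K) = 1 := by
    have := val_nat77 (K := K) h864
    rwa [Nat.cast_ofNat] at this
  set a : K := -W.c₄ / (48 * x ^ 4) with ha
  set b : K := -W.c₆ / (864 * x ^ 6) with hb
  have hva : v.valuation K a ≤ 1 := by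
    rw [ha, map_div₀, Valuation.map_neg, map_mul, map_pow, v48, one_mul, hx]
    exact (div_le_one₀ (pow_pos (zero_lt_iff.mpr hg) _)).mpr hc4
  have hvb : v.valuation K b ≤ 1 := by
    rw [hb, map_div₀, Valuation.map_neg, map_mul, map_pow, v864, one_mul, hx]
    exact (div_le_one₀ (pow_pos (zero_lt_iff.mpr hg) _)).mpr hc6
  obtain ⟨n₁, d₁, h₁⟩ := exists_primeCompl_mul_eq_of_integer v a hva
  obtain ⟨n₂, d₂, h₂⟩ := exists_primeCompl_mul_eq_of_integer v b hvb
  have hd₁ : (d₁ : 𝓞 K) ∉ v.asIdeal := d₁.2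
  have hd₂ : (d₂ : 𝓞 K) ∉ v.asIdeal := d₂.2
  have hn : (d₁ : 𝓞 K) * d₂ ∉ v.asIdeal := fun h => (hprime.mem_or_mem h).elim hd₁ hd₂
  set D₁ : K := algebraMap (𝓞 K) K (d₁ : 𝓞 K) with hD₁
  set D₂ : K := algebraMap (𝓞 K) K (d₂ : 𝓞 K) with hD₂
  have hD₁0 : D₁ ≠ 0 := fun h0 => hd₁ (by
    have : (d₁ : 𝓞 K) = 0 := (map_eq_zero_iff _ (IsFractionRing.injective (𝓞 K) K)).mp h0
    rw [this]
    exact Ideal.zero_mem _)
  have hD₂0 : D₂ ≠ 0 := fun h0 => hd₂ (by
    have : (d₂ : 𝓞 K) = 0 := (map_eq_zero_iff _ (IsFractionRing.injective (𝓞 K) K)).mp h0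
    rw [this]
    exact Ideal.zero_mem _)
  set N : K := D₁ * D₂ with hN
  have hN0 : N ≠ 0 := mul_ne_zero hD₁0 hD₂0
  have hvN : v.valuation K N = 1 := by
    have := (valuation_eq_one_iff_notMem (K := K) v (r := (d₁ : 𝓞 K) * d₂)).mpr hn
    rwa [map_mul] at this
  set W₀ : WeierstrassCurve (𝓞 K) := ⟨0, 0, 0, n₁ * d₁ ^ 3 * d₂ ^ 4, n₂ * d₂ ^ 5 * d₁ ^ 6⟩ with hW₀
  have ha₄ : (W₀.map (algebraMap (𝓞 K) K)).a₄ = N ^ 4 * a := by
    rw [map_a₄, hW₀]
    simp only [map_mul, map_pow]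
    rw [← h₁]
    ring
  have ha₆ : (W₀.map (algebraMap (𝓞 K) K)).a₆ = N ^ 6 * b := by
    rw [map_a₆, hW₀]
    simp only [map_mul, map_pow]
    rw [← h₂]
    ring
  have ha₁ : (W₀.map (algebraMap (𝓞 K) K)).a₁ = 0 := by rw [map_a₁, hW₀, map_zero]
  have ha₂ : (W₀.map (algebraMap (𝓞 K) K)).a₂ = 0 := by rw [map_a₂, hW₀, map_zero]
  have ha₃ : (W₀.map (algebraMap (𝓞 K) K)).a₃ = 0 := by rw [map_a₃, hW₀, map_zero]
  -- the discriminant
  have hdisc : algebraMap (𝓞 K) K W₀.Δ = N ^ 12 * (W.Δ / x ^ 12) := by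
    have e1 : algebraMap (𝓞 K) K W₀.Δ = -16 * (4 * (N ^ 4 * a) ^ 3 + 27 * (N ^ 6 * b) ^ 2) := by
      rw [← map_Δ]
      have hs : (W₀.map (algebraMap (𝓞 K) K)).IsShortNF := ⟨ha₁, ha₂, ha₃⟩
      rw [Δ_of_isShortNF, ha₄, ha₆]
    have e2 := W.c_relation
    rw [e1, ha, hb]
    field_simp
    linear_combination (-(48 : K) ^ 3 * 864 ^ 2 / 1728) * e2
  have hW₀Δ : W₀.Δ ∉ v.asIdeal := by
    rw [← valuation_eq_one_iff_notMem (K := K) v, hdisc, map_mul, map_pow, hvN, one_pow, one_mul,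
      map_div₀, map_pow, hx, hΔ]
    exact div_self (pow_ne_zero _ hg)
  -- the change of variables
  let _ : Invertible (2 : K) := invertibleOfNonzero two_ne_zero
  let _ : Invertible (3 : K) := invertibleOfNonzero three_ne_zero
  obtain ⟨D, hD⟩ := W.exists_variableChange_isShortNF
  have hu : (D.u : K) ≠ 0 := D.u.ne_zero
  have c4 : (D • W).c₄ = ((D.u⁻¹ : Kˣ) : K) ^ 4 * W.c₄ := variableChange_c₄ _ _
  have c6 : (D • W).c₆ = ((D.u⁻¹ : Kˣ) : K) ^ 6 * W.c₆ := variableChange_c₆ _ _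
  rw [c₄_of_isShortNF] at c4
  rw [c₆_of_isShortNF] at c6
  rw [Units.val_inv_eq_inv_val] at c4 c6
  set t : Kˣ := Units.mk0 (N * D.u / x) (div_ne_zero (mul_ne_zero hN0 hu) hx0) with ht
  refine ⟨W₀, D⁻¹ * ⟨t, 0, 0, 0⟩, ?_, hW₀Δ⟩
  have key : (⟨t, 0, 0, 0⟩ : VariableChange K) • W₀.map (algebraMap (𝓞 K) K) = D • W := by
    have f1 : (D • W).a₁ = 0 := hD.a₁
    have f2 : (D • W).a₂ = 0 := hD.a₂
    have f3 : (D • W).a₃ = 0 := hD.a₃
    ext
    · rw [variableChange_a₁, ha₁, f1]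
      ring
    · rw [variableChange_a₂, ha₁, ha₂, f2]
      ring
    · rw [variableChange_a₃, ha₁, ha₃, f3]
      ring
    · rw [variableChange_a₄, ha₁, ha₂, ha₃, ha₄, ht, Units.val_inv_eq_inv_val, Units.val_mk0]
      have e : (D • W).a₄ = -(((D.u : K)⁻¹) ^ 4 * W.c₄) / 48 := by
        rw [← c4]
        ring
      rw [e, ha]
      field_simp
      ring
    · rw [variableChange_a₆, ha₁, ha₂, ha₃, ha₄, ha₆, ht, Units.val_inv_eq_inv_val,
        Units.val_mk0]
      have e : (D • W).a₆ = -(((D.u : K)⁻¹) ^ 6 * W.c₆) / 864 := by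
        rw [← c6]
        ring
      rw [e, hb]
      field_simp
      ring
  rw [mul_smul, key, inv_smul_smul]

lemma good_of_model77 (h2 : (2 : 𝓞 K) ∉ v.asIdeal) (h3 : (3 : 𝓞 K) ∉ v.asIdeal)
    {W₀ : WeierstrassCurve (𝓞 K)} {C : VariableChange K}
    (hC : W = C • W₀.map (algebraMap (𝓞 K) K)) (hΔ : W₀.Δ ∉ v.asIdeal) : GoodAt W v :=
  (exists_integral_change (R := v.adicCompletionIntegers K) (F := v.adicCompletion K)
    (W := W.baseChange (v.adicCompletion K))
    (W₀.map (algebraMap (𝓞 K) (v.adicCompletionIntegers K)))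
    (C.map (algebraMap K (v.adicCompletion K)))
    (by
      rw [hC, WeierstrassCurve.baseChange, ← map_variableChange, map_map, map_map]
      rfl)
    (by
      rw [map_Δ]
      exact isUnit_algebraMap v hΔ)
    (by
      have := isUnit_algebraMap v h2
      rwa [map_ofNat] at this)
    (by
      have := isUnit_algebraMap v h3
      rwa [map_ofNat] at this)).1

lemma good_iff_cr77 (h2 : (2 : 𝓞 K) ∉ v.asIdeal) (h3 : (3 : 𝓞 K) ∉ v.asIdeal) :
    GoodAt W v ↔ CR77 v W := by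
  refine ⟨cr_of_good77 h2 h3, fun h => ?_⟩
  obtain ⟨W₀, C, hC, hΔ⟩ := model_of_cr77 h2 h3 h
  exact good_of_model77 h2 h3 hC hΔ

end Crit

section Ext

variable {K F : Type*} [Field K] [NumberField K] [Field F] [NumberField F] [Algebra K F]

/-- The valuation at an unramified place. -/
lemma val_unram77 (w : HeightOneSpectrum (𝓞 F))
    (he : (dn (K := K) w).asIdeal.ramificationIdx' w.asIdeal = 1) (x : K) :
    w.valuation F (algebraMap K F x) = (dn (K := K) w).valuation K x := by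
  have h := valuation_liesOver (K := K) F (dn (K := K) w) w x
  rw [he, pow_one] at h
  exact h.symm

lemma cr_iff77 (W : WeierstrassCurve K) (w : HeightOneSpectrum (𝓞 F))
    (he : (dn (K := K) w).asIdeal.ramificationIdx' w.asIdeal = 1) :
    CR77 w (W.baseChange F) ↔ CR77 (dn (K := K) w) W := by
  unfold CR77
  rw [WeierstrassCurve.baseChange, map_Δ, map_c₄, map_c₆, val_unram77 w he, val_unram77 w he,
    val_unram77 w he]

/-- UBC at one place. -/
theorem cc_baseChange77 (E : WeierstrassCurve K) (w : HeightOneSpectrum (𝓞 F))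
    (hw : nm w = nm (dn (K := K) w)) (h6 : (6 : 𝓞 K) ∉ (dn (K := K) w).asIdeal)
    (he : (dn (K := K) w).asIdeal.ramificationIdx' w.asIdeal = 1) :
    |cc (E.baseChange F) w - cc E (dn (K := K) w)| ≤ 2 / Real.sqrt (nm w) := by
  have h2 : (2 : 𝓞 K) ∉ (dn (K := K) w).asIdeal := fun h => h6 (by
    have : (6 : 𝓞 K) = 3 * 2 := by norm_num
    rw [this]; exact Ideal.mul_mem_left _ _ h)
  have h3 : (3 : 𝓞 K) ∉ (dn (K := K) w).asIdeal := fun h => h6 (by
    have : (6 : 𝓞 K) = 2 * 3 := by norm_num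
    rw [this]; exact Ideal.mul_mem_left _ _ h)
  have h2w : (2 : 𝓞 F) ∉ w.asIdeal := fun h => h2 (by
    rw [mem_dn, map_ofNat]; exact h)
  have h3w : (3 : 𝓞 F) ∉ w.asIdeal := fun h => h3 (by
    rw [mem_dn, map_ofNat]; exact h)
  by_cases hg : GoodAt E (dn (K := K) w)
  · obtain ⟨W₀, C, hC, hΔ⟩ := model_of_cr77 h2 h3 ((good_iff_cr77 h2 h3).mp hg)
    have h := tr_baseChange (F := F) hC w hw hΔ h2 h3
    have e : cc (E.baseChange F) w = cc E (dn (K := K) w) := by
      unfold cc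
      rw [h, hw, pr_dn]
    rw [e, sub_self, abs_zero]
    positivity
  · have hg' : ¬ GoodAt (E.baseChange F) w := fun h => hg ((good_iff_cr77 h2 h3).mpr
      ((cr_iff77 E w he).mp ((good_iff_cr77 h2w h3w).mp h)))
    have a1 := abs_cc_bad hg
    have a2 := abs_cc_bad hg'
    rw [← hw] at a1
    calc _ ≤ |cc (E.baseChange F) w| + |cc E (dn (K := K) w)| := abs_sub _ _
      _ ≤ 1 / Real.sqrt (nm w) + 1 / Real.sqrt (nm w) := add_le_add a2 a1
      _ = _ := by ring

variable (K F)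

/-- The places of `F` which are ramified over `K` are finite in number. -/
lemma finite_ram77 : {w : HeightOneSpectrum (𝓞 F) |
    (dn (K := K) w).asIdeal.ramificationIdx' w.asIdeal ≠ 1}.Finite := by
  have hne : differentIdeal (𝓞 K) (𝓞 F) ≠ ⊥ := differentIdeal_ne_bot
  have hfin := Ideal.finite_factors hne
  refine hfin.subset fun w hw => ?_
  have hle : (dn (K := K) w).asIdeal.map (algebraMap (𝓞 K) (𝓞 F)) ≤ w.asIdeal :=
    Ideal.map_le_iff_le_comap.mpr le_rfl
  have h1 := (Ideal.ramificationIdx'_ne_one_iff hle).mp hw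
  have hmax : (dn (K := K) w).asIdeal.IsMaximal := (dn (K := K) w).isMaximal
  have h2 := pow_sub_one_dvd_differentIdeal (A := 𝓞 K) (p := (dn (K := K) w).asIdeal) w.asIdeal 2
    (dn (K := K) w).ne_bot (Ideal.dvd_iff_le.mpr h1)
  simpa using h2

/-- UBC: the normalised traces under base change, uniformly in the curve. -/
theorem exists_cc_baseChange_unif77 : ∃ S : Finset (HeightOneSpectrum (𝓞 K)),
    ∀ (E : WeierstrassCurve K) (w : HeightOneSpectrum (𝓞 F)), dn (K := K) w ∉ S →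
      nm w = nm (dn (K := K) w) →
      |cc (E.baseChange F) w - cc E (dn (K := K) w)| ≤ 2 / Real.sqrt (nm w) := by
  classical
  have h6 : (6 : 𝓞 K) ≠ 0 := by norm_num
  refine ⟨(finite_dvd h6).toFinset ∪ (finite_ram77 K F).toFinset.image (dn (K := K)),
    fun E w hwS hw => ?_⟩
  rw [Finset.mem_union, not_or, Set.Finite.mem_toFinset] at hwS
  refine cc_baseChange77 E w hw hwS.1 ?_
  by_contra hcon
  exact hwS.2 (Finset.mem_image_of_mem _ ((finite_ram77 K F).mem_toFinset.mpr hcon))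

end Ext

end Pool.Agent.Lib.MP_bf61d2_nt.Artin.LA
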