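import Mathlib
import Pool.Agent.Lib.MP_bf61d2_nt.Trim.Artin.D1x63
import Pool.Agent.Lib.MP_bf61d2_nt.Trim.Artin.Defs63
import Pool.Agent.Lib.MP_bf61d2_nt.Trim.Artin.F40
import Pool.Agent.Lib.MP_bf61d2_nt.Trim.Artin.K6x63
import Pool.Agent.Lib.MP_bf61d2_nt.Trim.Artin.LA.DefsLA63
import Pool.Agent.Lib.MP_bf61d2_nt.Trim.Artin.LA.ELL42
import Pool.Agent.Lib.MP_bf61d2_nt.Trim.Artin.LA.REGL77
import Pool.Agent.Lib.MP_bf61d2_nt.Trim.Artin.LA.UBC77
import Pool.Agent.Lib.MP_bf61d2_nt.Trim.Artin.S1x29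
import Pool.Agent.Lib.MP_bf61d2_nt.Trim.Artin.U.TWV73
import Pool.Agent.Lib.MP_bf61d2_nt.Trim.Joint.Main
import Pool.Agent.Lib.MP_bf61d2_nt.Trim.Perm.Base
import Pool.Agent.Lib.MP_bf61d2_nt.Trim.Perm.Defs
import Pool.Agent.Lib.MP_bf61d2_nt.Trim.Perm.Frob
import Pool.Agent.Lib.MP_bf61d2_nt.Trim.Perm.Regroup
import Pool.Agent.Lib.MP_bf61d2_nt.Trim.Places
import Pool.Agent.Lib.MP_bf61d2_nt.Trim.PrimeSum
import Pool.Agent.Lib.MP_bf61d2_nt.Trim.Quad
import Pool.Agent.Lib.MP_bf61d2_nt.Trim.Structure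
import Pool.Agent.Lib.MP_bf61d2_nt.Trim.TwistLocal
import Pool.Agent.Lib.MP_bf61d2_nt.Trim.TwistMain

set_option autoImplicit false

/-!
ARTIN EDGE, local form (MP_bf61d2_nt), module TWU: the quadratic twists of curves over a smaller
field, uniformly in the curve.
-/

namespace NumberField
end NumberField

namespace Pool.Agent.Lib.MP_bf61d2_nt.Perm
end Pool.Agent.Lib.MP_bf61d2_nt.Perm

namespace Pool.Agent.Lib.MP_bf61d2_nt.Artin
end Pool.Agent.Lib.MP_bf61d2_nt.Artin

namespace Pool.Agent.Lib.MP_bf61d2_nt.Artin.LA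

open NumberField IsDedekindDomain Filter Topology Polynomial Module

open Pool.Agent.Lib.MP_bf61d2_nt.Perm

open Pool.Agent.Lib.MP_bf61d2_nt.Artin

section Close

variable {K : Type*} [Field K] [NumberField K]

lemma wd_div_sqrt77 {σ : ℝ} (hσ : 1 ≤ σ) (v : HeightOneSpectrum (𝓞 K)) {c : ℝ} (hc : 0 ≤ c) :
    wd σ v * (c / Real.sqrt (nm v)) ≤ c * wd (3 / 2) v := by
  have h0 : (0 : ℝ) < nm v := nm_pos' v
  have h1 : (1 : ℝ) ≤ nm v := by exact_mod_cast (one_lt_nm v).le
  have h2 : wp σ v * (1 / Real.sqrt (nm v)) ≤ wp (3 / 2) v := by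
    rw [wp, wp, Real.sqrt_eq_rpow, one_div, ← Real.rpow_neg h0.le, ← Real.rpow_add h0]
    exact Real.rpow_le_rpow_of_exponent_le h1 (by linarith)
  have h3 := mul_le_mul_of_nonneg_right h2 (log_nm_pos v).le
  have h4 := mul_le_mul_of_nonneg_left h3 hc
  calc wd σ v * (c / Real.sqrt (nm v)) =
        c * (wp σ v * (1 / Real.sqrt (nm v)) * Real.log (nm v)) := by
        rw [wd]
        ring
    _ ≤ _ := h4

/-- Two sums with close coefficients. -/
lemma SD_close77 (S : Finset (HeightOneSpectrum (𝓞 K))) {A c : ℝ} (hA : 0 ≤ A) (hc : 0 ≤ c) :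
    ∃ C : ℝ, 0 ≤ C ∧ ∀ a b : HeightOneSpectrum (𝓞 K) → ℂ, (∀ v, ‖a v‖ ≤ A) → (∀ v, ‖b v‖ ≤ A) →
      (∀ v, v ∉ S → pr v ^ 2 ≤ nm v ∨ ‖a v - b v‖ ≤ c / Real.sqrt (nm v)) →
      ∀ σ : ℝ, 1 < σ → ‖SD σ a - SD σ b‖ ≤ C := by
  classical
  have hs1 := (summable_wd (K := K) (σ := 3 / 2) (by norm_num)).mul_left c
  have hs2 := (summable_pb (K := K)).mul_left (2 * A)
  have hs3 : Summable fun v : HeightOneSpectrum (𝓞 K) => if v ∈ S then A else 0 := by
    refine summable_of_finite_support (S.finite_toSet.subset fun v hv => ?_)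
    by_contra h
    exact hv (if_neg h)
  set bd : HeightOneSpectrum (𝓞 K) → ℝ := fun v =>
    c * wd (3 / 2) v + 2 * A * pb v + if v ∈ S then A else 0 with hbd
  have hsum : Summable bd := (hs1.add hs2).add hs3
  have hbd0 : ∀ v, 0 ≤ bd v := fun v => by
    have h1 := (wd_pos (3 / 2) v).le
    have h2 := pb_nonneg v
    rw [hbd]
    simp only
    split_ifs <;> positivity
  refine ⟨∑' v, bd v, tsum_nonneg hbd0, fun a b ha hb hab σ hσ => ?_⟩
  rw [SD_sub hσ ha hb, SD]
  refine tsum_of_norm_bounded hsum.hasSum fun v => ?_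
  rw [norm_mul, norm_wd]
  have hn := (norm_sub_le (a v) (b v)).trans (add_le_add (ha v) (hb v))
  have h1 : 0 ≤ c * wd (3 / 2) v := mul_nonneg hc (wd_pos _ v).le
  have h2 : 0 ≤ 2 * A * pb v := mul_nonneg (by linarith) (pb_nonneg v)
  have hw := (wd_pos σ v).le
  by_cases hv : v ∈ S
  · have h3 := wd_le_half hσ.le v
    have h4 : wd σ v * ‖a v - b v‖ ≤ 1 / 2 * (A + A) :=
      mul_le_mul h3 hn (norm_nonneg _) (by norm_num)
    rw [hbd]
    simp only [if_pos hv]
    linarith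
  · rcases hab v hv with h | h
    · have h3 : wd σ v ≤ pb v := wd_le_of hσ.le v (pr_prime v).pos h
      have h4 : wd σ v * ‖a v - b v‖ ≤ pb v * (A + A) :=
        mul_le_mul h3 hn (norm_nonneg _) (pb_nonneg v)
      rw [hbd]
      simp only [if_neg hv]
      linarith
    · have h4 := mul_le_mul_of_nonneg_left h hw
      have h5 := wd_div_sqrt77 hσ.le v hc
      rw [hbd]
      simp only [if_neg hv]
      linarith

end Close

section Ext

variable (K L : Type*) [Field K] [NumberField K] [Field L] [NumberField L] [Algebra K L]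

/-- Sums over the places of an extension, uniformly in the coefficients. -/
theorem regroupU77 (A : ℝ) : ∃ C : ℝ, 0 ≤ C ∧
    ∀ b : HeightOneSpectrum (𝓞 K) → ℂ, (∀ v, ‖b v‖ ≤ A) →
      ∀ σ : ℝ, 1 < σ →
      ‖SD (K := L) σ (fun w => b (dn (K := K) w)) -
        SD (K := K) σ (fun v => (r1 L v : ℂ) * b v)‖ ≤ C := by
  classical
  set n : ℕ := Module.finrank (𝓞 K) (𝓞 L) with hn
  have hsqC : 0 ≤ pbS K := pbS_nonneg
  refine ⟨n * |A| * pbS K, by positivity, ?_⟩
  intro b hb₀ σ hσ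
  have hb : ∀ v, ‖b v‖ ≤ |A| := fun v => (hb₀ v).trans (le_abs_self A)
  have hA0 : 0 ≤ |A| := abs_nonneg A
  have hbg' : ∀ v : HeightOneSpectrum (𝓞 K), ‖(r1 L v : ℂ) * b v‖ ≤ n * |A| :=
    fun v => by
    rw [norm_mul, Complex.norm_natCast]
    have : (r1 L v : ℝ) ≤ n := by exact_mod_cast r1_le v
    exact mul_le_mul this (hb v) (norm_nonneg _) (Nat.cast_nonneg _)
  have hsL : Summable fun w : HeightOneSpectrum (𝓞 L) => (wd σ w : ℂ) * b (dn (K := K) w) :=
    summable_SD hσ (fun w => hb _)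
  have hsK : Summable fun v : HeightOneSpectrum (𝓞 K) =>
      (wd σ v : ℂ) * ((r1 L v : ℂ) * b v) := summable_SD hσ hbg'
  have hphi := hsL.hasSum.tsum_fiberwise (dn (K := K))
  have hdiff := hphi.sub hsK.hasSum
  have hg1 : HasSum (fun v : HeightOneSpectrum (𝓞 K) => n * |A| * pb v)
      (n * |A| * pbS K) := summable_pb.hasSum.mul_left _
  rw [SD, SD, ← hdiff.tsum_eq]
  refine tsum_of_norm_bounded hg1 fun v => ?_
  obtain ⟨T, hT, hcard⟩ := exists_fiber' L v
  have hset : ((dn (K := K) (L := L)) ⁻¹' {v} : Set (HeightOneSpectrum (𝓞 L))) =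
      (T : Set (HeightOneSpectrum (𝓞 L))) := by
    ext w
    rw [Set.mem_preimage, Set.mem_singleton_iff, Finset.mem_coe, hT]
  have hfib : ∑' w : ((dn (K := K) (L := L)) ⁻¹' {v} : Set (HeightOneSpectrum (𝓞 L))),
      (wd σ (w : HeightOneSpectrum (𝓞 L)) : ℂ) *
        b (dn (K := K) (w : HeightOneSpectrum (𝓞 L))) =
      ∑ w ∈ T, (wd σ w : ℂ) * b (dn (K := K) w) := by
    rw [hset, Finset.tsum_subtype' T (fun w => (wd σ w : ℂ) * b (dn (K := K) w))]
  rw [hfib]
  have h1 : (wd σ v : ℂ) * ((r1 L v : ℂ) * b v) =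
      ∑ w ∈ T.filter (fun w => nm w = nm v), (wd σ w : ℂ) * b (dn (K := K) w) := by
    rw [r1_eq_card v T hT]
    have h2 : ∀ w ∈ T.filter (fun w => nm w = nm v), (wd σ w : ℂ) * b (dn (K := K) w) =
        (wd σ v : ℂ) * b v := by
      intro w hw
      obtain ⟨hw1, hw2⟩ := Finset.mem_filter.mp hw
      have hwv : dn (K := K) w = v := (hT w).mp hw1
      rw [hwv, wd, wd, wp, wp, hw2]
    rw [Finset.sum_congr rfl h2, Finset.sum_const, nsmul_eq_mul]
    ring
  rw [h1, ← Finset.sum_filter_add_sum_filter_not T (fun w => nm w = nm v), add_sub_cancel_left]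
  calc _ ≤ ∑ _w ∈ T.filter (fun w => ¬ nm w = nm v), (pb v * |A|) := by
        refine (norm_sum_le _ _).trans (Finset.sum_le_sum fun w hw => ?_)
        obtain ⟨hw1, hw2⟩ := Finset.mem_filter.mp hw
        have hwv : dn (K := K) w = v := (hT w).mp hw1
        have h7 := sq_nm_dn_le w (by rw [hwv]; exact hw2)
        rw [hwv] at h7
        have h8 : pr v ^ 2 ≤ nm w := (Nat.pow_le_pow_left (pr_le_nm v) 2).trans h7
        rw [norm_mul, norm_wd]
        exact mul_le_mul (wd_le_of hσ.le w (pr_prime v).pos h8) (hb _) (norm_nonneg _)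
          (pb_nonneg v)
    _ = (T.filter (fun w => ¬ nm w = nm v)).card * (pb v * |A|) := by
        rw [Finset.sum_const, nsmul_eq_mul]
    _ ≤ n * (pb v * |A|) := by
        have h9 : ((T.filter (fun w => ¬ nm w = nm v)).card : ℝ) ≤ n := by
          exact_mod_cast (Finset.card_filter_le _ _).trans hcard
        have := pb_nonneg v
        gcongr
    _ = _ := by ring

variable {K L}

lemma dn_dn77 {M : Type*} [Field M] [NumberField M] [Algebra K M] [Algebra L M]
    [IsScalarTower K L M] (u : HeightOneSpectrum (𝓞 M)) :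
    dn (K := K) (dn (K := L) u) = dn (K := K) u := by
  have hst : IsScalarTower (𝓞 K) (𝓞 L) (𝓞 M) := inferInstance
  exact HeightOneSpectrum.ext (Ideal.under_under (A := 𝓞 K) (B := 𝓞 L) u.asIdeal)

end Ext

section Twist

variable {F : Type*} [Field F] [NumberField F]

/-- The traces of the quadratic twist by an element of the field, at almost all places. -/
lemma cc_qt_unif77 {d : F} (hd : d ≠ 0) {e m : 𝓞 F} (he0 : e ≠ 0) (hm0 : m ≠ 0)
    (hem : d * (m : F) ^ 2 = e) (W : WeierstrassCurve F) {v : HeightOneSpectrum (𝓞 F)}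
    (he : (6 : 𝓞 F) * e ∉ v.asIdeal) :
    |cc (qt W d) v - (chi v e : ℝ) * cc W v| ≤ 6 / Real.sqrt (nm v) := by
  have h6 : (6 : 𝓞 F) ∉ v.asIdeal := fun h => he (Ideal.mul_mem_right _ _ h)
  have he' : (e : F) ≠ 0 := by simpa using he0
  obtain ⟨C, hC⟩ := exists_qt_change W he' hd ⟨d * m, by rw [← hem]; ring⟩
  have h1 := TW73.cc_iso hC.symm h6
  have h2 := TW73.cc_qt W he
  have e1 : cc (qt W d) v - (chi v e : ℝ) * cc W v = (cc (qt W d) v - cc (qt W (e : F)) v) +
      (cc (qt W (e : F)) v - (chi v e : ℝ) * cc W v) := by ring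
  rw [e1]
  refine (abs_add_le _ _).trans ((add_le_add h1 h2).trans (le_of_eq ?_))
  ring

end Twist

section Main

variable {K M : Type*} [Field K] [NumberField K] [Field M] [NumberField M] [Algebra K M]
  [IsGalois K M] [Fintype Gal(M/K)]

/-- A single curve: the sum over the places, uniformly in the curve. -/
theorem conj_keyU77 (F : IntermediateField K M)
    {d : F} {θ : M} (hθ : θ ^ 2 = d) (hd : ¬ IsSquare d)
    {Fr : HeightOneSpectrum (𝓞 K) → Gal(M/K)} (hFr : ∀ v, IsFr v (Fr v)) :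
    ∃ C : ℝ, 0 ≤ C ∧ ∀ (E : WeierstrassCurve K) (t δ : ℝ), 0 < δ →
      ‖logDeriv (qt (E.baseChange F) d).LSeries ((3 / 2 + δ : ℝ) + t * Complex.I) +
        SD (K := K) (1 + δ) (fun v => (cc E v : ℂ) *
          (((fx ((IntermediateField.adjoin F {θ}).restrictScalars K) (Fr v) : ℂ) -
            (fx F (Fr v) : ℂ)) * ph t (nm v)))‖ ≤ C := by
  classical
  have hfd : FiniteDimensional K M := Module.Finite.of_restrictScalars_finite ℚ K M
  set L₀ : IntermediateField F M := IntermediateField.adjoin F {θ} with hL₀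
  set F' : IntermediateField K M := L₀.restrictScalars K with hF'
  have hθ' : θ ∈ F' := IntermediateField.mem_adjoin_simple_self F θ
  have hle : F ≤ F' := fun x hx => L₀.algebraMap_mem ⟨x, hx⟩
  let _ : Algebra F F' := (IntermediateField.inclusion hle).toAlgebra
  have htow : IsScalarTower K F F' := IsScalarTower.of_algebraMap_eq fun x => by
    apply Subtype.ext
    rfl
  -- the degree
  have hint : IsIntegral F θ := by
    have : FiniteDimensional F M := Module.Finite.of_restrictScalars_finite K F M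
    exact IsIntegral.of_finite F θ
  have hdeg : finrank F F' = 2 := by
    have e : F' ≃ₗ[F] L₀ :=
      { toFun := fun x => ⟨x.1, x.2⟩
        invFun := fun x => ⟨x.1, x.2⟩
        map_add' := fun _ _ => rfl
        map_smul' := fun a x => by
          apply Subtype.ext
          show ((a • x : F') : M) = a • (x : M)
          rw [Algebra.smul_def, Algebra.smul_def]
          rfl
        left_inv := fun _ => rfl
        right_inv := fun _ => rfl }
    rw [e.finrank_eq, hL₀, IntermediateField.adjoin.finrank hint]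
    have hirr : Irreducible (X ^ 2 - C d : F[X]) := by
      refine X_pow_sub_C_irreducible_of_prime Nat.prime_two fun b hb => hd ⟨b, ?_⟩
      rw [← hb, sq]
    have hmon : (X ^ 2 - C d : F[X]).Monic := monic_X_pow_sub_C _ two_ne_zero
    have hev : aeval θ (X ^ 2 - C d : F[X]) = 0 := by
      rw [map_sub, map_pow, aeval_X, aeval_C, hθ]
      exact sub_self _
    rw [← minpoly.eq_of_irreducible_of_monic hirr hev hmon, natDegree_X_pow_sub_C]
  -- the square root
  have hd0 : d ≠ 0 := by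
    rintro rfl
    exact hd ⟨0, by simp⟩
  obtain ⟨e, m, he0, hm0, hem⟩ := exists_sqrep hd0
  have hm : (m : F) ≠ 0 := by simpa using hm0
  have hfdF : FiniteDimensional F F' := Module.Finite.of_restrictScalars_finite ℚ F F'
  have hquad : Algebra.IsQuadraticExtension F F' := ⟨hdeg⟩
  have hn : Module.finrank (𝓞 F) (𝓞 F') = 2 :=
    (IsFractionRing.finrank_eq (𝓞 F) F (𝓞 F') F').symm.trans hdeg
  set θ₁ : F' := ⟨θ, hθ'⟩ with hθ₁
  have hθ₁sq : θ₁ ^ 2 = algebraMap F F' d := Subtype.ext hθ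
  have hθ₀sq : (θ₁ * algebraMap F F' (m : F)) ^ 2 = algebraMap F F' (e : F) := by
    rw [mul_pow, hθ₁sq, ← map_pow, ← map_mul, hem]
  have hint' : IsIntegral ℤ (θ₁ * algebraMap F F' (m : F)) := by
    refine IsIntegral.of_pow (n := 2) (by norm_num) ?_
    rw [hθ₀sq]
    exact (RingOfIntegers.isIntegral_coe e).algebraMap
  set θ₂ : 𝓞 F' := ⟨θ₁ * algebraMap F F' (m : F), hint'⟩ with hθ₂
  have hcoe : (θ₂ : F') = θ₁ * algebraMap F F' (m : F) := rfl
  have hθ₂sq : θ₂ ^ 2 = algebraMap (𝓞 F) (𝓞 F') e := by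
    apply RingOfIntegers.coe_injective
    rw [map_pow]
    exact hθ₀sq
  have hθK : (θ₂ : F') ∉ (⊥ : IntermediateField F F') := by
    rw [hcoe, IntermediateField.mem_bot]
    rintro ⟨y, hy⟩
    apply hd
    refine ⟨y / m, (algebraMap F F').injective ?_⟩
    have hmL : algebraMap F F' (m : F) ≠ 0 := by simpa using hm
    rw [← hθ₁sq, map_mul, map_div₀, hy]
    field_simp
  -- the exceptional places
  have h6e : (6 : 𝓞 F) * e ≠ 0 := mul_ne_zero (by norm_num) he0
  obtain ⟨S₁, hS₁⟩ := exists_cc_baseChange_unif77 K F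
  choose T hT _ using fun v : HeightOneSpectrum (𝓞 K) => exists_fiber' F v
  set S₂ : Finset (HeightOneSpectrum (𝓞 F)) := (finite_dvd h6e).toFinset with hS₂
  set S : Finset (HeightOneSpectrum (𝓞 F)) := S₂ ∪ S₁.biUnion T with hS
  have hSe : ∀ w, w ∉ S → (6 : 𝓞 F) * e ∉ w.asIdeal := fun w hw => by
    rw [hS, Finset.mem_union, not_or, hS₂, Set.Finite.mem_toFinset] at hw
    exact hw.1
  have hSd : ∀ w, w ∉ S → dn (K := K) w ∉ S₁ := fun w hw h => by
    rw [hS, Finset.mem_union, not_or] at hw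
    exact hw.2 (Finset.mem_biUnion.mpr ⟨_, h, (hT _ w).mpr rfl⟩)
  have hSr : ∀ w, w ∉ S → ((r1 F' w : ℕ) : ℝ) = 1 + chi w e := fun w hw => by
    have h1 := hSe w hw
    refine r1_quad hn hθ₂sq hθK w (fun h => h1 ?_) (fun h => h1 (Ideal.mul_mem_left _ _ h))
    have e1 : (6 : 𝓞 F) * e = 3 * e * 2 := by ring
    rw [e1]
    exact Ideal.mul_mem_left _ _ h
  -- the comparisons
  obtain ⟨C₀, h00, h0⟩ := logDeriv_LSeries F
  obtain ⟨C₁, h10, h1⟩ := SD_close77 S (A := 2) (c := 8) (by norm_num) (by norm_num)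
  obtain ⟨C₂, h20, h2⟩ := SD_close77 S (A := 6) (c := 0) (by norm_num) (by norm_num)
  obtain ⟨R₀, hR₀0, hR₀⟩ := regroupU77 F F' 2
  obtain ⟨R₁, hR₁0, hR₁⟩ := regroupU77 K F 2
  obtain ⟨R₂, hR₂0, hR₂⟩ := regroupU77 K F' 2
  obtain ⟨C₃, h30, h3⟩ := swapL (finite_fx hFr F)
  obtain ⟨C₄, h40, h4⟩ := swapL (finite_fx hFr F')
  refine ⟨C₀ + C₁ + C₂ + R₀ + R₁ + R₂ + C₃ + C₄, by positivity, fun E t δ hδ => ?_⟩
  have hσ : 1 < 1 + δ := by linarith
  set x : HeightOneSpectrum (𝓞 K) → ℂ := fun v => (cc E v : ℂ) * ph t (nm v) with hx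
  have hx2 : ∀ v, ‖x v‖ ≤ 2 := by
    intro v
    rw [hx]
    simp only
    rw [norm_mul, norm_ph63, mul_one, Complex.norm_real, Real.norm_eq_abs]
    exact abs_cc_le _ v
  have hchi : ∀ w : HeightOneSpectrum (𝓞 F), ‖((chi w e : ℤ) : ℂ)‖ ≤ 1 := fun w => by
    rw [Complex.norm_intCast]
    exact_mod_cast abs_chi_le w e
  have a0 := (h0 (qt (E.baseChange F) d) δ t hδ).2.2
  -- the twist
  have a1 : ‖SD (K := F) (1 + δ) (fun w => (cc (qt (E.baseChange F) d) w : ℂ) * ph t (nm w)) -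
      SD (K := F) (1 + δ) (fun w => ((chi w e : ℤ) : ℂ) * x (dn (K := K) w))‖ ≤ C₁ := by
    refine h1 _ _ (fun w => ?_) (fun w => ?_) (fun w hw => ?_) (1 + δ) hσ
    · rw [norm_mul, norm_ph63, mul_one, Complex.norm_real, Real.norm_eq_abs]
      exact abs_cc_le _ w
    · rw [norm_mul]
      calc _ ≤ 1 * 2 := mul_le_mul (hchi w) (hx2 _) (norm_nonneg _) zero_le_one
        _ = 2 := one_mul 2
    · by_cases hdeg1 : nm w = nm (dn (K := K) w)
      · right
        have b1 := cc_qt_unif77 hd0 he0 hm0 hem (E.baseChange F) (hSe w hw)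
        have b2 := hS₁ E w (hSd w hw) hdeg1
        have b3 : |(chi w e : ℝ)| ≤ 1 := by exact_mod_cast abs_chi_le w e
        have e1 : (cc (qt (E.baseChange F) d) w : ℂ) * ph t (nm w) -
            ((chi w e : ℤ) : ℂ) * x (dn (K := K) w) =
            ((cc (qt (E.baseChange F) d) w - (chi w e : ℝ) * cc (E.baseChange F) w +
              (chi w e : ℝ) * (cc (E.baseChange F) w - cc E (dn (K := K) w)) : ℝ) : ℂ) *
              ph t (nm w) := by
          rw [hx]
          simp only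
          rw [← hdeg1]
          push_cast
          ring
        rw [e1, norm_mul, norm_ph63, mul_one, Complex.norm_real, Real.norm_eq_abs]
        refine (abs_add_le _ _).trans ?_
        rw [abs_mul]
        have b4 : |(chi w e : ℝ)| * |cc (E.baseChange F) w - cc E (dn (K := K) w)| ≤
            1 * (2 / Real.sqrt (nm w)) :=
          mul_le_mul b3 b2 (abs_nonneg _) zero_le_one
        calc _ ≤ 6 / Real.sqrt (nm w) + 1 * (2 / Real.sqrt (nm w)) := add_le_add b1 b4
          _ = 8 / Real.sqrt (nm w) := by ring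
      · left
        have b1 := sq_nm_dn_le (K := K) w hdeg1
        have b2 : pr w ≤ nm (dn (K := K) w) := by
          rw [← pr_dn (K := K) w]
          exact pr_le_nm _
        exact (Nat.pow_le_pow_left b2 2).trans b1
  -- the character
  have hr2 : ∀ w : HeightOneSpectrum (𝓞 F), ((r1 F' w : ℕ) : ℝ) ≤ 2 := by
    intro w
    have := r1_le (L := F') w
    rw [hn] at this
    exact_mod_cast this
  have hrx : ∀ w : HeightOneSpectrum (𝓞 F), ‖(r1 F' w : ℂ) * x (dn (K := K) w)‖ ≤ 4 := by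
    intro w
    rw [norm_mul, Complex.norm_natCast]
    calc _ ≤ 2 * 2 := mul_le_mul (hr2 w) (hx2 _) (norm_nonneg _) (by norm_num)
      _ = 4 := by norm_num
  have a2 : ‖SD (K := F) (1 + δ) (fun w => ((chi w e : ℤ) : ℂ) * x (dn (K := K) w)) -
      SD (K := F) (1 + δ) (fun w => (r1 F' w : ℂ) * x (dn (K := K) w) -
        x (dn (K := K) w))‖ ≤ C₂ := by
    refine h2 _ _ (fun w => ?_) (fun w => ?_) (fun w hw => ?_) (1 + δ) hσ
    · rw [norm_mul]
      calc _ ≤ 1 * 2 := mul_le_mul (hchi w) (hx2 _) (norm_nonneg _) zero_le_one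
        _ ≤ 6 := by norm_num
    · refine (norm_sub_le _ _).trans ?_
      linarith [hrx w, hx2 (dn (K := K) w)]
    · right
      have b1 : ((r1 F' w : ℕ) : ℂ) = 1 + ((chi w e : ℤ) : ℂ) := by
        have := congrArg (fun r : ℝ => (r : ℂ)) (hSr w hw)
        push_cast at this
        exact this
      have e1 : ((chi w e : ℤ) : ℂ) * x (dn (K := K) w) -
          ((r1 F' w : ℂ) * x (dn (K := K) w) - x (dn (K := K) w)) = 0 := by
        rw [b1]
        ring
      rw [e1, norm_zero]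
      positivity
  have a2' : SD (K := F) (1 + δ) (fun w => (r1 F' w : ℂ) * x (dn (K := K) w) -
        x (dn (K := K) w)) = SD (K := F) (1 + δ) (fun w => (r1 F' w : ℂ) * x (dn (K := K) w)) -
      SD (K := F) (1 + δ) (fun w => x (dn (K := K) w)) :=
    (SD_sub hσ (B := 4) hrx (fun w => (hx2 _).trans (by norm_num))).symm
  -- regrouping
  have a3 := hR₀ (fun w => x (dn (K := K) w)) (fun w => hx2 _) (1 + δ) hσ
  simp only [dn_dn77] at a3
  have a4 := hR₁ x hx2 (1 + δ) hσ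
  have a5 := hR₂ x hx2 (1 + δ) hσ
  have a6 := h3 (1 + δ) hσ x hx2
  have a7 := h4 (1 + δ) hσ x hx2
  have hs : ∀ F₁ : IntermediateField K M, (0 : ℝ) ≤ ∑ g : Gal(M/K), (fx F₁ g : ℝ) :=
    fun _ => Finset.sum_nonneg fun _ _ => Nat.cast_nonneg _
  have hb : ∀ F₁ : IntermediateField K M, ∀ v : HeightOneSpectrum (𝓞 K),
      ‖(fx F₁ (Fr v) : ℂ) * x v‖ ≤ (∑ g : Gal(M/K), (fx F₁ g : ℝ)) * 2 := fun F₁ v => by
    rw [norm_mul, Complex.norm_natCast]
    exact mul_le_mul (Finset.single_le_sum (f := fun g : Gal(M/K) => (fx F₁ g : ℝ))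
      (fun g _ => Nat.cast_nonneg _) (Finset.mem_univ _)) (hx2 v) (norm_nonneg _) (hs F₁)
  have b3 : SD (K := K) (1 + δ) (fun v => (cc E v : ℂ) *
        (((fx F' (Fr v) : ℂ) - (fx F (Fr v) : ℂ)) * ph t (nm v))) =
      SD (K := K) (1 + δ) (fun v => (fx F' (Fr v) : ℂ) * x v) -
      SD (K := K) (1 + δ) (fun v => (fx F (Fr v) : ℂ) * x v) := by
    rw [SD_sub hσ (B := (∑ g : Gal(M/K), (fx F' g : ℝ)) * 2 + (∑ g : Gal(M/K), (fx F g : ℝ)) * 2)
      (fun v => ?_) (fun v => ?_)]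
    · congr 1
      funext v
      rw [hx]
      ring
    · have := hb F' v
      have := hs F
      linarith
    · have := hb F v
      have := hs F'
      linarith
  rw [b3]
  rw [a2'] at a2
  set Z := logDeriv (qt (E.baseChange F) d).LSeries ((3 / 2 + δ : ℝ) + t * Complex.I)
  set X₁ := SD (K := F) (1 + δ) (fun w => (cc (qt (E.baseChange F) d) w : ℂ) * ph t (nm w))
  set X₂ := SD (K := F) (1 + δ) (fun w => ((chi w e : ℤ) : ℂ) * x (dn (K := K) w))
  set X₃ := SD (K := F) (1 + δ) (fun w => (r1 F' w : ℂ) * x (dn (K := K) w))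
  set X₄ := SD (K := F) (1 + δ) (fun w => x (dn (K := K) w))
  set X₅ := SD (K := F') (1 + δ) (fun w => x (dn (K := K) w))
  set Y₁ := SD (K := K) (1 + δ) (fun v => (r1 F v : ℂ) * x v)
  set Y₂ := SD (K := K) (1 + δ) (fun v => (r1 F' v : ℂ) * x v)
  set W₁ := SD (K := K) (1 + δ) (fun v => (fx F (Fr v) : ℂ) * x v)
  set W₂ := SD (K := K) (1 + δ) (fun v => (fx F' (Fr v) : ℂ) * x v)
  have e : Z + (W₂ - W₁) = (Z + X₁) - (X₁ - X₂) - (X₂ - (X₃ - X₄)) + (X₅ - X₃) - (X₅ - Y₂) +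
      (X₄ - Y₁) - (Y₂ - W₂) + (Y₁ - W₁) := by ring
  rw [e]
  calc _ ≤ ‖Z + X₁‖ + ‖X₁ - X₂‖ + ‖X₂ - (X₃ - X₄)‖ + ‖X₅ - X₃‖ + ‖X₅ - Y₂‖ + ‖X₄ - Y₁‖ +
        ‖Y₂ - W₂‖ + ‖Y₁ - W₁‖ := by
        refine (norm_add_le _ _).trans (add_le_add_left ?_ _)
        refine (norm_sub_le _ _).trans (add_le_add_left ?_ _)
        refine (norm_add_le _ _).trans (add_le_add_left ?_ _)
        refine (norm_sub_le _ _).trans (add_le_add_left ?_ _)
        refine (norm_add_le _ _).trans (add_le_add_left ?_ _)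
        refine (norm_sub_le _ _).trans (add_le_add_left ?_ _)
        exact norm_sub_le _ _
    _ ≤ _ := by linarith

end Main

end Pool.Agent.Lib.MP_bf61d2_nt.Artin.LA
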