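import Mathlib
import Pool.Agent.Lib.MP_bf61d2_nt.Trim.Artin.Conj63
import Pool.Agent.Lib.MP_bf61d2_nt.Trim.Artin.Defs63
import Pool.Agent.Lib.MP_bf61d2_nt.Trim.Artin.F40
import Pool.Agent.Lib.MP_bf61d2_nt.Trim.Artin.Final63
import Pool.Agent.Lib.MP_bf61d2_nt.Trim.Artin.K6x63
import Pool.Agent.Lib.MP_bf61d2_nt.Trim.Artin.K8x63
import Pool.Agent.Lib.MP_bf61d2_nt.Trim.Artin.L.INTL3
import Pool.Agent.Lib.MP_bf61d2_nt.Trim.Artin.LA.CHEBL38
import Pool.Agent.Lib.MP_bf61d2_nt.Trim.Artin.LA.DefsLA63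
import Pool.Agent.Lib.MP_bf61d2_nt.Trim.Artin.LA.ELL42
import Pool.Agent.Lib.MP_bf61d2_nt.Trim.Artin.LA.KCL60
import Pool.Agent.Lib.MP_bf61d2_nt.Trim.Artin.LA.SGU93
import Pool.Agent.Lib.MP_bf61d2_nt.Trim.Artin.LA.TWL77
import Pool.Agent.Lib.MP_bf61d2_nt.Trim.Artin.LA.TWU77
import Pool.Agent.Lib.MP_bf61d2_nt.Trim.Hardy.LogL
import Pool.Agent.Lib.MP_bf61d2_nt.Trim.Joint.Main
import Pool.Agent.Lib.MP_bf61d2_nt.Trim.Line
import Pool.Agent.Lib.MP_bf61d2_nt.Trim.MV59.All59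
import Pool.Agent.Lib.MP_bf61d2_nt.Trim.MV59.Stmts
import Pool.Agent.Lib.MP_bf61d2_nt.Trim.Perm.Defs
import Pool.Agent.Lib.MP_bf61d2_nt.Trim.Places
import Pool.Agent.Lib.MP_bf61d2_nt.Trim.PrimeSum
import Pool.Agent.Lib.MP_bf61d2_nt.Trim.Structure
import Pool.Agent.Lib.MP_bf61d2_nt.Trim.TwistMain

set_option autoImplicit false

/-!
ARTIN EDGE, local form (MP_bf61d2_nt), module EDGEU: the bounds at every scale for the curves of a
set, uniformly in the curve, and the quadratic twists of the curves over a smaller field.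
-/

namespace NumberField
end NumberField

namespace Pool.Agent.Lib.MP_bf61d2_nt.Perm
end Pool.Agent.Lib.MP_bf61d2_nt.Perm

namespace Pool.Agent.Lib.MP_bf61d2_nt.Artin
end Pool.Agent.Lib.MP_bf61d2_nt.Artin

namespace Pool.Agent.Lib.MP_bf61d2_nt.Hardy
end Pool.Agent.Lib.MP_bf61d2_nt.Hardy

namespace Pool.Agent.Lib.MP_bf61d2_nt.MV59
end Pool.Agent.Lib.MP_bf61d2_nt.MV59

namespace Pool.Agent.Lib.MP_bf61d2_nt.Artin.LA

open NumberField IsDedekindDomain Filter Topology Polynomial Module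

open Pool.Agent.Lib.MP_bf61d2_nt.Perm

open Pool.Agent.Lib.MP_bf61d2_nt.Artin

/-- From the sum over the places to the logarithmic derivative, uniformly. -/
lemma conj_stepU77 {ι : Type*} {A C : ℝ} {ε : ℝ} (hε : 0 < ε) {T : Set ι} {X Y : ℝ → ι → ℂ}
    (hXY : ∀ (i : ι) (σ : ℝ), 3 / 2 < σ → ‖X σ i + Y σ i‖ ≤ C)
    (hY : ∀ᶠ σ : ℝ in 𝓝[>] (3 / 2), ∀ i ∈ T, ‖Y σ i‖ ≤ (A + ε / 2) * (1 / (σ - 3 / 2))) :
    ∀ᶠ σ : ℝ in 𝓝[>] (3 / 2), ∀ i ∈ T, ‖X σ i‖ ≤ (A + ε) / (σ - 3 / 2) := by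
  filter_upwards [hY, tendsto_inv_edge77.eventually (eventually_ge_atTop (C / (ε / 2))),
    self_mem_nhdsWithin] with σ h4 h5 hσ i hi
  have hσ' : 3 / 2 < σ := hσ
  rw [div_le_iff₀ (half_pos hε)] at h5
  have h6 := hXY i σ hσ'
  have h10 : ‖X σ i‖ ≤ ‖X σ i + Y σ i‖ + ‖Y σ i‖ := by
    have := norm_sub_le (X σ i + Y σ i) (Y σ i)
    rwa [add_sub_cancel_right] at this
  have h11 := h4 i hi
  have h12 : (A + ε) / (σ - 3 / 2) = (A + ε / 2) * (1 / (σ - 3 / 2)) + 1 / (σ - 3 / 2) * (ε / 2) := by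
    ring
  rw [h12]
  linarith

section Integrate

variable {F : Type*} [Field F] [NumberField F]

/-- A uniform bound for the logarithm of the modulus at a fixed distance from the edge. -/
lemma abs_log_fixed77 {r : ℝ} (hr : 0 < r) : ∃ C : ℝ, 0 ≤ C ∧ ∀ (E : WeierstrassCurve F) (t : ℝ),
    |Real.log ‖E.LSeries ((3 / 2 + r : ℝ) + t * Complex.I)‖| ≤ C := by
  have hs := (summable_wp (K := F) (σ := 1 + r) (by linarith)).mul_left 2
  refine ⟨RB F + ∑' v : HeightOneSpectrum (𝓞 F), 2 * wp (1 + r) v,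
    add_nonneg RB_nonneg (tsum_nonneg fun v => by have := (wp_pos (1 + r) v).le; positivity),
    fun E t => ?_⟩
  have h1 := log_norm_LSeries' E hr t
  have hb : ∀ v : HeightOneSpectrum (𝓞 F),
      ‖wp (1 + r) v * (MP_bf61d2_nt.cc E v * Real.cos (t * Real.log (nm v)))‖ ≤
        2 * wp (1 + r) v := by
    intro v
    rw [Real.norm_eq_abs, abs_mul, abs_mul, abs_of_pos (wp_pos (1 + r) v)]
    have h3 : |MP_bf61d2_nt.cc E v| * |Real.cos (t * Real.log (nm v))| ≤ 2 * 1 :=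
      mul_le_mul (abs_cc_le E v) (Real.abs_cos_le_one _) (abs_nonneg _) zero_le_two
    have h4 := mul_le_mul_of_nonneg_left h3 (wp_pos (1 + r) v).le
    linarith
  have h2 : |∑' v : HeightOneSpectrum (𝓞 F), wp (1 + r) v *
      (MP_bf61d2_nt.cc E v * Real.cos (t * Real.log (nm v)))| ≤
      ∑' v : HeightOneSpectrum (𝓞 F), 2 * wp (1 + r) v :=
    tsum_of_norm_bounded hs.hasSum hb
  set X := Real.log ‖E.LSeries ((3 / 2 + r : ℝ) + t * Complex.I)‖
  set Y := ∑' v : HeightOneSpectrum (𝓞 F), wp (1 + r) v *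
      (MP_bf61d2_nt.cc E v * Real.cos (t * Real.log (nm v)))
  calc |X| = |(X - Y) + Y| := by rw [sub_add_cancel]
    _ ≤ |X - Y| + |Y| := abs_add_le _ _
    _ ≤ _ := add_le_add h1 h2

/-- Integration: from the logarithmic derivatives to the logarithms, uniformly. -/
lemma log_of_logDeriv77.{u} {F : Type u} [Field F] [NumberField F]
    {𝓔 : Set (WeierstrassCurve F)} {T : Set ℝ} {a ε : ℝ}
    (ha : 0 ≤ a) (hε : 0 < ε)
    (h : ∀ᶠ σ : ℝ in 𝓝[>] (3 / 2), ∀ E ∈ 𝓔, ∀ t ∈ T,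
      ‖logDeriv E.LSeries (σ + t * Complex.I)‖ ≤ a / (σ - 3 / 2)) :
    ∀ᶠ σ : ℝ in 𝓝[>] (3 / 2), ∀ E ∈ 𝓔, ∀ t ∈ T,
      |Real.log ‖E.LSeries (σ + t * Complex.I)‖| ≤ (a + ε) * Real.log (1 / (σ - 3 / 2)) := by
  obtain ⟨u, hu, hsub⟩ := (mem_nhdsGT_iff_exists_Ioo_subset (a := (3 / 2 : ℝ))).mp h
  have hu' : (3 / 2 : ℝ) < u := hu
  set r : ℝ := (u - 3 / 2) / 2 with hr
  have hr0 : 0 < r := by rw [hr]; linarith
  obtain ⟨C, hC, hfix⟩ := abs_log_fixed77 (F := F) hr0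
  obtain ⟨A, hA, hLD⟩ := logDeriv_LSeries F
  set C' : ℝ := C + a * |Real.log r| with hC'
  have hlog : Tendsto (fun σ : ℝ => Real.log (1 / (σ - 3 / 2))) (𝓝[>] (3 / 2)) atTop :=
    Real.tendsto_log_atTop.comp tendsto_inv_edge77
  have hnear : ∀ᶠ σ : ℝ in 𝓝[>] (3 / 2), σ < 3 / 2 + r :=
    (eventually_lt_nhds (by linarith : (3 / 2 : ℝ) < 3 / 2 + r)).filter_mono nhdsWithin_le_nhds
  filter_upwards [self_mem_nhdsWithin, hnear, hlog.eventually (eventually_ge_atTop (C' / ε))]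
    with σ hσ hσr hσl E hE t ht
  have hσ' : (3 / 2 : ℝ) < σ := hσ
  rw [div_le_iff₀ hε] at hσl
  set δ : ℝ := σ - 3 / 2 with hδ
  have hδ0 : 0 < δ := by rw [hδ]; linarith
  have hδr : δ ≤ r := by rw [hδ]; linarith
  have key := Ray.abs_le_of_deriv3 (α := a) (β := 0) (δ := δ) (r₀ := r)
    (G := fun x : ℝ => Real.log ‖E.LSeries ((3 / 2 + x : ℝ) + t * Complex.I)‖)
    (G' := fun x : ℝ => (logDeriv E.LSeries ((3 / 2 + x : ℝ) + t * Complex.I)).re) hδ0 hδr
    (fun x hx1 hx2 => by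
      obtain ⟨h1, h2, -⟩ := hLD E x t (by linarith)
      exact Ray.hasDerivAt_log_norm3 h1 h2)
    (fun x hx1 hx2 => by
      have hx0 : 0 < x := by linarith
      have h1 := hsub (show (3 / 2 + x : ℝ) ∈ Set.Ioo (3 / 2 : ℝ) u from
        ⟨by linarith, by linarith⟩) E hE t ht
      rw [add_sub_cancel_left] at h1
      rw [zero_div, add_zero]
      exact (Complex.abs_re_le_norm _).trans h1)
  simp only [mul_zero, zero_mul, add_zero] at key
  have e1 : (3 / 2 + δ : ℝ) = σ := by rw [hδ]; ring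
  rw [e1] at key
  have h2 := hfix E t
  set X := Real.log ‖E.LSeries ((σ : ℂ) + t * Complex.I)‖
  set Y := Real.log ‖E.LSeries (((3 / 2 + r : ℝ) : ℂ) + t * Complex.I)‖
  have h3 : |X| ≤ |Y - X| + |Y| := by
    calc |X| = |Y - (Y - X)| := by rw [sub_sub_cancel]
      _ ≤ |Y| + |Y - X| := abs_sub _ _
      _ = _ := add_comm _ _
  have h4 : a * Real.log r ≤ a * |Real.log r| := mul_le_mul_of_nonneg_left (le_abs_self _) ha
  have h5 : Real.log (1 / δ) = -Real.log δ := by rw [one_div, Real.log_inv]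
  rw [h5] at hσl ⊢
  have h6 : (a + ε) * -Real.log δ = -Real.log δ * ε - a * Real.log δ := by ring
  rw [h6]
  have h7 : a * (Real.log r - Real.log δ) = a * Real.log r - a * Real.log δ := by ring
  rw [h7] at key
  linarith

end Integrate

section Mean

open MeasureTheory Set Hardy MV59

/-- From a bound near the edge, uniform in the height and the curve, to the coefficients. -/
theorem mean_of_edgeU77 {F : Type*} [Field F] [NumberField F] {𝓔 : Set (WeierstrassCurve F)}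
    {b ε : ℝ} (hb : 0 ≤ b) (hε : 0 < ε)
    (h : ∀ᶠ σ : ℝ in 𝓝[>] (3 / 2), ∀ W ∈ 𝓔, ∀ t : ℝ,
      |Real.log ‖W.LSeries (σ + t * Complex.I)‖| ≤ (b + ε / 2) * Real.log (1 / (σ - 3 / 2))) :
    ∀ᶠ x : ℝ in atTop, ∀ W ∈ 𝓔, |∑ n ∈ Finset.Icc 1 ⌊x⌋₊, (W.LFunction n : ℝ)| ≤
      x ^ (3 / 2 : ℝ) * Real.log x ^ (-1 + b + ε) := by
  obtain ⟨C, hC⟩ := stPW_all F
  have hσ : Tendsto (fun x : ℝ => 3 / 2 + 1 / Real.log x) atTop (𝓝[>] (3 / 2)) := by
    refine tendsto_nhdsWithin_iff.mpr ⟨?_, ?_⟩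
    · have h1 : Tendsto (fun x : ℝ => 1 / Real.log x) atTop (𝓝 0) :=
        tendsto_const_nhds.div_atTop Real.tendsto_log_atTop
      have h2 := h1.const_add (3 / 2 : ℝ)
      rwa [add_zero] at h2
    · filter_upwards [eventually_gt_atTop 1] with x hx
      have := Real.log_pos hx
      simp only [mem_Ioi]
      have : 0 < 1 / Real.log x := by positivity
      linarith
  have hll : Tendsto (fun x : ℝ => Real.log (Real.log x)) atTop atTop :=
    Real.tendsto_log_atTop.comp Real.tendsto_log_atTop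
  have hsm : ∀ᶠ l : ℝ in atTop, |C| * (1 + l) ≤ Real.exp (ε / 2 * l) := by
    have h1 : Tendsto (fun l : ℝ => Real.exp (ε / 2 * l) / l) atTop atTop := by
      have h2 := (Real.tendsto_exp_div_pow_atTop 1).comp
        (tendsto_id.const_mul_atTop (half_pos hε))
      have h3 := h2.const_mul_atTop (half_pos hε)
      refine h3.congr' ?_
      filter_upwards [eventually_gt_atTop 0] with l hl
      simp only [Function.comp, id, pow_one]
      field_simp
    filter_upwards [h1.eventually (eventually_ge_atTop (2 * |C|)), eventually_ge_atTop 1]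
      with l hl hl1
    rw [le_div_iff₀ (by linarith)] at hl
    have := abs_nonneg C
    nlinarith
  filter_upwards [hσ.eventually h, hll.eventually hsm, eventually_ge_atTop 3,
    eventually_ge_atTop (Real.exp 1)] with x h1 h2 hx3 hxe W hW
  have hx0 : 0 < x := by linarith
  have hL1 : 1 ≤ Real.log x := by rwa [Real.le_log_iff_exp_le hx0]
  have hL0 : 0 < Real.log x := by linarith
  set L : ℝ := Real.log x with hL
  have hl0 : 0 ≤ Real.log L := Real.log_nonneg hL1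
  have hp : 0 < x ^ (3 / 2 : ℝ) := Real.rpow_pos_of_pos hx0 _
  set G : ℝ := L ^ (b + ε / 2) with hG
  have hG1 : 1 ≤ G := Real.one_le_rpow hL1 (by positivity)
  have h3 := hC W x hx3 G hG1 (fun t _ => by
    have h4 := h1 W hW t
    have hne : W.LSeries (((3 / 2 + 1 / L : ℝ) : ℂ) + t * Complex.I) ≠ 0 := by
      have hδ : 0 < 1 / L := by positivity
      rw [← exp_FL W (line_mem hδ t)]
      exact Complex.exp_ne_zero _
    have h5 : 0 < ‖W.LSeries (((3 / 2 + 1 / L : ℝ) : ℂ) + t * Complex.I)‖ := norm_pos_iff.mpr hne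
    rw [← Real.log_le_log_iff h5 (by linarith), hG, Real.log_rpow hL0]
    have h6 := (le_abs_self _).trans h4
    rw [add_sub_cancel_left, one_div_one_div] at h6
    exact h6)
  have h7 : ‖AA (fun n => (W.LFunction n : ℂ)) x‖ =
      |∑ n ∈ Finset.Icc 1 ⌊x⌋₊, (W.LFunction n : ℝ)| := by
    rw [AA, ← Real.norm_eq_abs, ← Complex.norm_real]
    push_cast
    rfl
  rw [h7, ← hL] at h3
  refine h3.trans ?_
  have h8 : C * (1 + Real.log L) ≤ L ^ (ε / 2) := by
    rw [Real.rpow_def_of_pos hL0, mul_comm (Real.log L)]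
    refine le_trans ?_ h2
    have := le_abs_self C
    gcongr
  have e1 : L ^ (-1 + b + ε) = L ^ (b + ε / 2) * L ^ (ε / 2) / L := by
    rw [← Real.rpow_add hL0]
    nth_rewrite 3 [← Real.rpow_one L]
    rw [← Real.rpow_sub hL0]
    ring_nf
  rw [e1]
  have hG0 : 0 < G := by linarith
  calc C * x ^ (3 / 2 : ℝ) * G * (1 + Real.log L) / L
      = x ^ (3 / 2 : ℝ) * (G * (C * (1 + Real.log L)) / L) := by ring
    _ ≤ x ^ (3 / 2 : ℝ) * (G * L ^ (ε / 2) / L) := by gcongr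

end Mean

/-- The L-function is holomorphic without zeros in the half plane of absolute convergence. -/
theorem holo_LSeries77 {F : Type*} [Field F] [NumberField F] (E : WeierstrassCurve F) {s : ℂ}
    (hs : 3 / 2 < s.re) : DifferentiableAt ℂ E.LSeries s ∧ E.LSeries s ≠ 0 := by
  obtain ⟨C, -, h⟩ := logDeriv_LSeries F
  obtain ⟨h1, h2, -⟩ := h E (s.re - 3 / 2) s.im (by linarith)
  have e : (((3 / 2 + (s.re - 3 / 2) : ℝ) : ℂ) + s.im * Complex.I) = s := by
    rw [add_sub_cancel]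
    exact Complex.re_add_im s
  rw [e] at h1 h2
  exact ⟨h2, h1⟩

/-- The bounds with the constant `B` for the curves of the set `𝓔`, uniformly in the curve: for the
logarithmic derivative of the L-function (which is holomorphic without zeros in the half plane) at
every small distance from the edge, for the logarithm of its modulus, and for the sum of its
coefficients. -/
def EdgeBoundU {F : Type*} [Field F] [NumberField F] (𝓔 : Set (WeierstrassCurve F)) (B : ℝ) :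
    Prop :=
  (∀ E ∈ 𝓔, ∀ s : ℂ, 3 / 2 < s.re → DifferentiableAt ℂ E.LSeries s ∧ E.LSeries s ≠ 0) ∧
  ∀ ε : ℝ, 0 < ε →
    (∀ᶠ σ : ℝ in 𝓝[>] (3 / 2), ∀ E ∈ 𝓔, ∀ t : ℝ,
      ‖logDeriv E.LSeries (σ + t * Complex.I)‖ ≤ (2 * B + ε) / (σ - 3 / 2) ∧
      |Real.log ‖E.LSeries (σ + t * Complex.I)‖| ≤
        (2 * B + ε) * Real.log (1 / (σ - 3 / 2))) ∧
    (∀ t : ℝ, t ≠ 0 → ∀ᶠ σ : ℝ in 𝓝[>] (3 / 2), ∀ E ∈ 𝓔,
      ‖logDeriv E.LSeries (σ + t * Complex.I)‖ ≤ (4 / Real.pi * B + ε) / (σ - 3 / 2) ∧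
      |Real.log ‖E.LSeries (σ + t * Complex.I)‖| ≤
        (4 / Real.pi * B + ε) * Real.log (1 / (σ - 3 / 2))) ∧
    ∀ᶠ x : ℝ in atTop, ∀ E ∈ 𝓔, |∑ k ∈ Finset.Icc 1 ⌊x⌋₊, (E.LFunction k : ℝ)| ≤
      x ^ (3 / 2 : ℝ) * Real.log x ^ (-1 + 2 * B + ε)

/-- The bounds from the bounds for the logarithmic derivatives. -/
lemma edgeBoundU_of77 {F : Type*} [Field F] [NumberField F] {𝓔 : Set (WeierstrassCurve F)} {B : ℝ}
    (hB : 0 ≤ B) (h : ∀ ε : ℝ, 0 < ε →
      (∀ᶠ σ : ℝ in 𝓝[>] (3 / 2), ∀ E ∈ 𝓔, ∀ t : ℝ,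
        ‖logDeriv E.LSeries (σ + t * Complex.I)‖ ≤ (2 * B + ε) / (σ - 3 / 2)) ∧
      ∀ t : ℝ, t ≠ 0 → ∀ᶠ σ : ℝ in 𝓝[>] (3 / 2), ∀ E ∈ 𝓔,
        ‖logDeriv E.LSeries (σ + t * Complex.I)‖ ≤ (4 / Real.pi * B + ε) / (σ - 3 / 2)) :
    EdgeBoundU 𝓔 B := by
  have hpi := Real.pi_pos
  have hlog : ∀ ε : ℝ, 0 < ε → ∀ᶠ σ : ℝ in 𝓝[>] (3 / 2), ∀ E ∈ 𝓔, ∀ t : ℝ,
      |Real.log ‖E.LSeries (σ + t * Complex.I)‖| ≤
        (2 * B + ε) * Real.log (1 / (σ - 3 / 2)) := by
    intro ε hε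
    have h1 := log_of_logDeriv77 (T := Set.univ) (a := 2 * B + ε / 2) (ε := ε / 2) (𝓔 := 𝓔)
      (by positivity) (half_pos hε)
      ((h (ε / 2) (half_pos hε)).1.mono fun σ h E hE t _ => h E hE t)
    filter_upwards [h1] with σ h E hE t
    have h2 := h E hE t trivial
    rwa [add_assoc, add_halves] at h2
  refine ⟨fun E _ s hs => holo_LSeries77 E hs, fun ε hε => ?_⟩
  refine ⟨?_, fun t ht => ?_, mean_of_edgeU77 (mul_nonneg zero_le_two hB) hε
    (hlog (ε / 2) (half_pos hε))⟩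
  · filter_upwards [(h ε hε).1, hlog ε hε] with σ h1 h2 E hE t
    exact ⟨h1 E hE t, h2 E hE t⟩
  · have h1 := log_of_logDeriv77 (T := {t}) (a := 4 / Real.pi * B + ε / 2) (ε := ε / 2) (𝓔 := 𝓔)
      (by positivity) (half_pos hε)
      (((h (ε / 2) (half_pos hε)).2 t ht).mono fun σ h E hE t' ht' => by
        rw [Set.mem_singleton_iff] at ht'
        subst ht'
        exact h E hE)
    filter_upwards [(h ε hε).2 t ht, h1] with σ h2 h3 E hE
    have h4 := h3 E hE t rfl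
    rw [add_assoc, add_halves] at h4
    exact ⟨h2 E hE, h4⟩

section Twist

variable {K M : Type*} [Field K] [NumberField K] [Field M] [NumberField M] [Algebra K M]
  [IsGalois K M]

/-- The quadratic twists of the base changes by a fixed element, uniformly in the curve. -/
theorem twist_publicU77 (F : IntermediateField K M)
    {d : F} {θ : M} (hθ : θ ^ 2 = d) (hd : ¬ IsSquare d) (F' : IntermediateField K M)
    (hF' : F' = F ⊔ IntermediateField.adjoin K {θ}) {B : ℝ} (hB : B = meanFix F F')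
    {ε : ℝ} (hε : 0 < ε) :
    (∀ᶠ σ : ℝ in 𝓝[>] (3 / 2), ∀ (E : WeierstrassCurve K) (t : ℝ),
      ‖logDeriv (qt (E.baseChange F) d).LSeries (σ + t * Complex.I)‖ ≤
        (2 * B + ε) / (σ - 3 / 2)) ∧
    ∀ t : ℝ, t ≠ 0 → ∀ᶠ σ : ℝ in 𝓝[>] (3 / 2), ∀ E : WeierstrassCurve K,
      ‖logDeriv (qt (E.baseChange F) d).LSeries (σ + t * Complex.I)‖ ≤
        (4 / Real.pi * B + ε) / (σ - 3 / 2) := by
  have hfd : FiniteDimensional K M := Module.Finite.of_restrictScalars_finite ℚ K M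
  have := Fintype.ofFinite Gal(M/K)
  have hF2 : F' = (IntermediateField.adjoin F {θ}).restrictScalars K := by
    rw [hF', IntermediateField.restrictScalars_adjoin_eq_sup]
  choose Fr hFr using fun v : HeightOneSpectrum (𝓞 K) => exists_isFr (K := K) (M := M) v
  obtain ⟨C, hC0, hC⟩ := conj_keyU77 F hθ hd hFr
  rw [← hF2] at hC
  set f : Gal(M/K) → ℂ := fun g => (fx F' g : ℂ) - (fx F g : ℂ) with hf
  have hfc : IsClassFn f := fun g h => by simp only [hf, fx_conj]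
  have h7 : (∑ g : Gal(M/K), ‖f g‖) / Fintype.card Gal(M/K) = B := by
    rw [hB, meanFix, finsum_eq_sum_of_fintype, Nat.card_eq_fintype_card]
    congr 1
    refine Finset.sum_congr rfl fun g _ => ?_
    simp only [hf]
    rw [← Real.norm_eq_abs, ← Complex.norm_real]
    push_cast
    rfl
  have hXY : ∀ (i : WeierstrassCurve K × ℝ) (σ : ℝ), 3 / 2 < σ →
      ‖logDeriv (qt (i.1.baseChange F) d).LSeries (σ + i.2 * Complex.I) +
        SD (K := K) (1 + (σ - 3 / 2)) (fun v => (MP_bf61d2_nt.cc i.1 v : ℂ) *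
          (f (Fr v) * ph i.2 (nm v)))‖ ≤ C := by
    intro i σ hσ
    have h6 := hC i.1 i.2 (σ - 3 / 2) (by linarith)
    have e : ((3 / 2 + (σ - 3 / 2) : ℝ) : ℂ) = σ := by norm_num
    rw [e] at h6
    exact h6
  constructor
  · have h4 := tendsto_sub_three_halves.eventually
      (single_class_unifU (stCHEBL K M) hFr hfc (half_pos hε))
    have h5 := conj_stepU77 (A := 2 * B) hε (T := Set.univ)
      (X := fun σ (i : WeierstrassCurve K × ℝ) =>
        logDeriv (qt (i.1.baseChange F) d).LSeries (σ + i.2 * Complex.I))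
      (Y := fun σ (i : WeierstrassCurve K × ℝ) =>
        SD (K := K) (1 + (σ - 3 / 2)) (fun v => (MP_bf61d2_nt.cc i.1 v : ℂ) *
          (f (Fr v) * ph i.2 (nm v)))) hXY (by
        filter_upwards [h4] with σ h4 i _
        rw [add_sub_cancel_left, h7] at h4
        exact h4 (fun v => MP_bf61d2_nt.cc i.1 v) (fun v => abs_cc_le i.1 v) i.2)
    exact h5.mono fun σ h E t => h (E, t) trivial
  · intro t ht
    have h4 := tendsto_sub_three_halves.eventually
      (single_classU (stCHEBL K M) hFr hfc t (half_pos hε))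
    rw [if_neg ht] at h4
    have h5 := conj_stepU77 (A := 4 / Real.pi * B) hε
      (T := {i : WeierstrassCurve K × ℝ | i.2 = t})
      (X := fun σ (i : WeierstrassCurve K × ℝ) =>
        logDeriv (qt (i.1.baseChange F) d).LSeries (σ + i.2 * Complex.I))
      (Y := fun σ (i : WeierstrassCurve K × ℝ) =>
        SD (K := K) (1 + (σ - 3 / 2)) (fun v => (MP_bf61d2_nt.cc i.1 v : ℂ) *
          (f (Fr v) * ph i.2 (nm v)))) hXY (by
        filter_upwards [h4] with σ h4 i hi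
        rw [add_sub_cancel_left, h7, ← hi] at h4
        exact h4 (fun v => MP_bf61d2_nt.cc i.1 v) (fun v => abs_cc_le i.1 v))
    exact h5.mono fun σ h E => h (E, t) rfl

/-- Twists of curves over a smaller field, uniformly in the curve. -/
theorem edge_twistU77 (F F' : IntermediateField K M) (d : F) (θ : M)
    (hθ : θ ^ 2 = d) (hd : ¬ IsSquare d) (hF' : F' = F ⊔ IntermediateField.adjoin K {θ}) :
    EdgeBoundU {E : WeierstrassCurve F | ∃ E₀ : WeierstrassCurve K, E₀.IsElliptic ∧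
      E = qt (E₀.baseChange F) d} (meanFix F F') := by
  refine edgeBoundU_of77 (div_nonneg (finsum_nonneg fun _ => abs_nonneg _) (Nat.cast_nonneg _))
    fun ε hε => ?_
  obtain ⟨h1, h2⟩ := twist_publicU77 F hθ hd F' hF' rfl hε
  constructor
  · filter_upwards [h1] with σ h
    rintro E ⟨E₀, -, rfl⟩ t
    exact h E₀ t
  · intro t ht
    filter_upwards [h2 t ht] with σ h
    rintro E ⟨E₀, -, rfl⟩
    exact h E₀

end Twist

/-- K-curves over a Galois extension. -/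
theorem edge_kcurveU77 {K F : Type*} [Field K] [NumberField K] [Field F] [NumberField F]
    [Algebra K F] [IsGalois K F] (E : WeierstrassCurve F) [E.IsElliptic] (hE : IsKCurve K E) :
    ∃ B : ℝ, B ≤ Real.sqrt (stab K E / Module.finrank K F) ∧
      (stab K E < Module.finrank K F → B < Real.sqrt (stab K E / Module.finrank K F)) ∧
      EdgeBoundU {E} B := by
  obtain ⟨B, hB0, hB1, hB2, hB3⟩ := kcurve_publicL E hE
  refine ⟨B, hB1, hB2, edgeBoundU_of77 hB0 fun ε hε => ⟨?_, fun t ht => ?_⟩⟩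
  · filter_upwards [(hB3 ε hε).1] with σ h
    rintro E' rfl t
    exact h t
  · filter_upwards [(hB3 ε hε).2 t ht] with σ h
    rintro E' rfl
    exact h

end Pool.Agent.Lib.MP_bf61d2_nt.Artin.LA
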