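import Mathlib
import Pool.Agent.Lib.MP_bf61d2_nt.Trim.Artin.B90
import Pool.Agent.Lib.MP_bf61d2_nt.Trim.Artin.D2x90
import Pool.Agent.Lib.MP_bf61d2_nt.Trim.Artin.Defs63
import Pool.Agent.Lib.MP_bf61d2_nt.Trim.Artin.LA.DefsLA63
import Pool.Agent.Lib.MP_bf61d2_nt.Trim.Places

set_option autoImplicit false

/-!
Artin twists at the edge: the Bessel inequality with the second moment of the normalised traces.
-/

namespace NumberField
end NumberField

namespace Pool.Agent.Lib.MP_bf61d2_nt.Perm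
end Pool.Agent.Lib.MP_bf61d2_nt.Perm

namespace Pool.Agent.Lib.MP_bf61d2_nt.Artin
end Pool.Agent.Lib.MP_bf61d2_nt.Artin

namespace Pool.Agent.Lib.MP_bf61d2_nt.Artin.D2x90
end Pool.Agent.Lib.MP_bf61d2_nt.Artin.D2x90

namespace Pool.Agent.Lib.MP_bf61d2_nt.Artin.LA

open NumberField IsDedekindDomain Filter Topology

open Pool.Agent.Lib.MP_bf61d2_nt.Perm

open Pool.Agent.Lib.MP_bf61d2_nt.Artin

variable {K M : Type*} [Field K] [NumberField K] [Field M] [NumberField M] [Algebra K M]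
  [Fintype Gal(M/K)]

open D2x90 in
/-- The Bessel inequality with the second moment of the coefficients, uniformly in the
coefficients and for common shifts. -/
theorem bessel_momentU {Fr : HeightOneSpectrum (𝓞 K) → Gal(M/K)}
    (hch : ∀ f : Gal(M/K) → ℂ, IsClassFn f → WEqL Fr f)
    {n : ℕ} (f : Fin n → Gal(M/K) → ℂ)
    (hf : ∀ j, IsClassFn (f j)) (t : Fin n → ℝ)
    (hf1 : ∀ j, ∑ g, f j g * (starRingEnd ℂ) (f j g) = Fintype.card Gal(M/K))
    (hf2 : ∀ i j, i ≠ j → t i = t j → ∑ g, f i g * (starRingEnd ℂ) (f j g) = 0)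
    {ε : ℝ} (hε : 0 < ε) : ∀ᶠ σ : ℝ in 𝓝[>] 1,
      ∀ c : HeightOneSpectrum (𝓞 K) → ℝ, (∀ v, |c v| ≤ 2) → ∀ τ : ℝ,
      ∑ j, ‖SD (K := K) σ (fun v => (c v : ℂ) * (f j (Fr v) * ph (t j + τ) (nm v)))‖ ^ 2 ≤
        ((∑' v : HeightOneSpectrum (𝓞 K), wd σ v * c v ^ 2) + ε * (1 / (σ - 1))) *
          (1 / (σ - 1)) ∧
      ∑' v : HeightOneSpectrum (𝓞 K), wd σ v * c v ^ 2 ≤ (4 + ε) * (1 / (σ - 1)) := by
  classical
  have hG : (0 : ℝ) < Fintype.card Gal(M/K) := by exact_mod_cast Fintype.card_pos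
  have hGc : ((Fintype.card Gal(M/K) : ℕ) : ℂ) ≠ 0 := by exact_mod_cast hG.ne'
  -- a small parameter
  obtain ⟨η, hη, hη1, hη2⟩ : ∃ η : ℝ, 0 < η ∧ (1 + n * η) * (4 * (1 + η)) ≤ 4 + ε ∧
      4 * (1 + η) ≤ 4 + ε := by
    have h1 : Continuous fun η : ℝ => (1 + n * η) * (4 * (1 + η)) := by fun_prop
    have h2 : Tendsto (fun η : ℝ => (1 + n * η) * (4 * (1 + η))) (𝓝[>] 0) (𝓝 4) := by
      have h3 := (h1.tendsto 0).mono_left (nhdsWithin_le_nhds (s := Set.Ioi (0 : ℝ)))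
      simpa using h3
    have h4 := (h2.eventually (Iic_mem_nhds (show (4 : ℝ) < 4 + ε by linarith))).and
      self_mem_nhdsWithin
    obtain ⟨η, h5, h6⟩ := h4.exists
    have h7 : (0 : ℝ) < η := h6
    have h8 : (1 : ℝ) * (4 * (1 + η)) ≤ (1 + n * η) * (4 * (1 + η)) := by
      have : 0 ≤ (n : ℝ) * η := by positivity
      gcongr
      linarith
    have h5' : (1 + n * η) * (4 * (1 + η)) ≤ 4 + ε := h5
    exact ⟨η, h6, h5, by linarith⟩
  -- the products are class functions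
  have hprod : ∀ i j, IsClassFn fun g => f i g * (starRingEnd ℂ) (f j g) := by
    intro i j a b
    show f i (b * a * b⁻¹) * (starRingEnd ℂ) (f j (b * a * b⁻¹)) = _
    rw [hf i, hf j]
  have hpair : ∀ᶠ σ : ℝ in 𝓝[>] 1, ∀ i j : Fin n,
      ‖SD (K := K) σ (fun v => (f i (Fr v) * (starRingEnd ℂ) (f j (Fr v))) *
        ph (t i - t j) (nm v)) - (if t i - t j = 0 then
          (∑ g, f i g * (starRingEnd ℂ) (f j g)) / Fintype.card Gal(M/K) else 0) *
          ((1 / (σ - 1)) : ℝ)‖ ≤ η * (1 / (σ - 1)) := by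
    rw [eventually_all]
    intro i
    rw [eventually_all]
    intro j
    exact hch _ (hprod i j) (t i - t j) η hη
  have hone : ∀ᶠ σ : ℝ in 𝓝[>] 1,
      ‖SD (K := K) σ (fun v => (1 : ℂ) * ph 0 (nm v)) - (if (0 : ℝ) = 0 then
          (∑ _g : Gal(M/K), (1 : ℂ)) / Fintype.card Gal(M/K) else 0) *
          ((1 / (σ - 1)) : ℝ)‖ ≤ η * (1 / (σ - 1)) :=
    hch (fun _ => 1) (fun _ _ => rfl) 0 η hη
  have hlog : ∀ᶠ σ : ℝ in 𝓝[>] 1, σ < 2 := by
    have h1 : Set.Iio (2 : ℝ) ∈ 𝓝 (1 : ℝ) := Iio_mem_nhds (by norm_num)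
    exact mem_nhdsWithin_of_mem_nhds h1
  filter_upwards [hpair, hone, hlog, self_mem_nhdsWithin] with σ hp ho hσ2 hσ1 c hc τ
  have hσ : 1 < σ := hσ1
  set Λ : ℝ := (1 / (σ - 1)) with hΛ
  have hΛ0 : 0 ≤ Λ := by
    have : 0 < σ - 1 := by linarith
    positivity
  -- the total mass
  have hmass : ∑' v : HeightOneSpectrum (𝓞 K), wd σ v ≤ (1 + η) * Λ := by
    have e1 : SD (K := K) σ (fun v => (1 : ℂ) * ph 0 (nm v)) =
        ((∑' v : HeightOneSpectrum (𝓞 K), wd σ v : ℝ) : ℂ) := by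
      unfold SD
      rw [Complex.ofReal_tsum]
      refine tsum_congr fun v => ?_
      beta_reduce
      rw [ph_zero, mul_one, mul_one]
    have e2 : (∑ _g : Gal(M/K), (1 : ℂ)) / Fintype.card Gal(M/K) = 1 := by
      rw [Finset.sum_const, Finset.card_univ, nsmul_eq_mul, mul_one, div_self hGc]
    rw [if_pos rfl, e2, one_mul, e1, ← Complex.ofReal_sub, Complex.norm_real,
      Real.norm_eq_abs] at ho
    linarith [(abs_le.1 ho).2]
  have hmass2 : ∑' v : HeightOneSpectrum (𝓞 K), wd σ v * c v ^ 2 ≤ 4 * ((1 + η) * Λ) := by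
    have hle : ∀ v : HeightOneSpectrum (𝓞 K), wd σ v * c v ^ 2 ≤ wd σ v * 4 := by
      intro v
      refine mul_le_mul_of_nonneg_left ?_ (wd_pos σ v).le
      have h1 := abs_le.1 (hc v)
      nlinarith [h1.1, h1.2]
    have hs : Summable fun v : HeightOneSpectrum (𝓞 K) => wd σ v * 4 :=
      (summable_wd hσ).mul_right 4
    have hs' : Summable fun v : HeightOneSpectrum (𝓞 K) => wd σ v * c v ^ 2 :=
      hs.of_nonneg_of_le (fun v => mul_nonneg (wd_pos σ v).le (sq_nonneg _)) hle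
    have h1 := hs'.tsum_le_tsum hle hs
    rw [tsum_mul_right] at h1
    linarith
  -- the Gram bound
  have hgram : ∀ j ∈ (Finset.univ : Finset (Fin n)), ∑ j' ∈ (Finset.univ : Finset (Fin n)),
      ‖∑' v : HeightOneSpectrum (𝓞 K), (wd σ v : ℂ) * ((f j (Fr v) * ph (t j + τ) (nm v)) *
        (starRingEnd ℂ) (f j' (Fr v) * ph (t j' + τ) (nm v)))‖ ≤ (1 + n * η) * Λ := by
    intro j _
    have hG1 : ∀ j', ‖∑' v : HeightOneSpectrum (𝓞 K), (wd σ v : ℂ) *
        ((f j (Fr v) * ph (t j + τ) (nm v)) *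
        (starRingEnd ℂ) (f j' (Fr v) * ph (t j' + τ) (nm v)))‖ ≤
        (if j' = j then Λ else 0) + η * Λ := by
      intro j'
      have e1 : (∑' v : HeightOneSpectrum (𝓞 K), (wd σ v : ℂ) * ((f j (Fr v) * ph (t j + τ) (nm v)) *
          (starRingEnd ℂ) (f j' (Fr v) * ph (t j' + τ) (nm v)))) =
          SD (K := K) σ (fun v => (f j (Fr v) * (starRingEnd ℂ) (f j' (Fr v))) *
            ph (t j - t j') (nm v)) := by
        unfold SD
        refine tsum_congr fun v => ?_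
        beta_reduce
        rw [map_mul, ← add_sub_add_right_eq_sub (t j) (t j') τ, ← ph_mul_conj]
        ring
      rw [e1]
      have h1 := hp j j'
      have h2 : ‖(if t j - t j' = 0 then
          (∑ g, f j g * (starRingEnd ℂ) (f j' g)) / Fintype.card Gal(M/K) else 0) *
          ((Λ : ℝ) : ℂ)‖ ≤ if j' = j then Λ else 0 := by
        by_cases hjj : j' = j
        · subst hjj
          rw [if_pos (sub_self _), hf1, div_self hGc, one_mul, if_pos rfl, Complex.norm_real,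
            Real.norm_eq_abs, abs_of_nonneg hΛ0]
        · rw [if_neg hjj]
          by_cases htt : t j - t j' = 0
          · rw [if_pos htt, hf2 j j' (Ne.symm hjj) (sub_eq_zero.1 htt), zero_div, zero_mul,
              norm_zero]
          · rw [if_neg htt, zero_mul, norm_zero]
      have h3 := norm_sub_norm_le (SD (K := K) σ (fun v => (f j (Fr v) *
        (starRingEnd ℂ) (f j' (Fr v))) * ph (t j - t j') (nm v)))
        ((if t j - t j' = 0 then
          (∑ g, f j g * (starRingEnd ℂ) (f j' g)) / Fintype.card Gal(M/K) else 0) *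
          ((Λ : ℝ) : ℂ))
      linarith
    refine (Finset.sum_le_sum fun j' _ => hG1 j').trans (le_of_eq ?_)
    rw [Finset.sum_add_distrib, Finset.sum_ite_eq' Finset.univ j, if_pos (Finset.mem_univ j),
      Finset.sum_const, Finset.card_univ, Fintype.card_fin, nsmul_eq_mul]
    ring
  have hB := bessel_complex (ι := HeightOneSpectrum (𝓞 K)) (τ := Fin n) (fun v => wd σ v) c
    (fun j v => f j (Fr v) * ph (t j + τ) (nm v)) Finset.univ (P := (1 + n * η) * Λ) (B := 2)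
    (D := ∑ j, ∑ g, ‖f j g‖) (by positivity) (summable_wd hσ) (fun v => (wd_pos σ v).le) hc
    (by
      intro j v
      rw [norm_mul, norm_ph, mul_one]
      exact (Finset.single_le_sum (f := fun g => ‖f j g‖) (fun g _ => norm_nonneg _)
        (Finset.mem_univ (Fr v))).trans (Finset.single_le_sum (f := fun j => ∑ g, ‖f j g‖)
        (fun j _ => Finset.sum_nonneg fun g _ => norm_nonneg _) (Finset.mem_univ j)))
    hgram
  have hP : 0 ≤ (1 + n * η) * Λ := by positivity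
  set A : ℝ := ∑' v : HeightOneSpectrum (𝓞 K), wd σ v * c v ^ 2 with hA
  refine ⟨hB.trans ?_, hmass2.trans ?_⟩
  · have h1 : (n * η) * Λ * A ≤ (n * η) * Λ * (4 * ((1 + η) * Λ)) :=
      mul_le_mul_of_nonneg_left hmass2 (by positivity)
    have h2 : n * η * (4 * (1 + η)) ≤ ε := by nlinarith
    have h3 : n * η * (4 * (1 + η)) * Λ ^ 2 ≤ ε * Λ ^ 2 :=
      mul_le_mul_of_nonneg_right h2 (sq_nonneg _)
    nlinarith
  · rw [← mul_assoc]
    exact mul_le_mul_of_nonneg_right hη2 hΛ0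

end Pool.Agent.Lib.MP_bf61d2_nt.Artin.LA
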