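import Mathlib
import Pool.Agent.Lib.MP_bf61d2_nt.Trim.Analytic
import Pool.Agent.Lib.MP_bf61d2_nt.Trim.Artin.LA.DefsLA63
import Pool.Agent.Lib.MP_bf61d2_nt.Trim.Artin.T2x63
import Pool.Agent.Lib.MP_bf61d2_nt.Trim.Artin.T4x63
import Pool.Agent.Lib.MP_bf61d2_nt.Trim.Local
import Pool.Agent.Lib.MP_bf61d2_nt.Trim.LocalCurve
import Pool.Agent.Lib.MP_bf61d2_nt.Trim.MV59.RD38
import Pool.Agent.Lib.MP_bf61d2_nt.Trim.Places
import Pool.Agent.Lib.MP_bf61d2_nt.Trim.PrimeSum
import Pool.Agent.Lib.MP_bf61d2_nt.Trim.Structure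

set_option autoImplicit false

/-!
Twists of the L-function of an elliptic curve over a number field near the edge, local form: the
distribution of the normalised traces of Frobenius.
-/

namespace NumberField
end NumberField

namespace Pool.Agent.Lib.MP_bf61d2_nt.Perm
end Pool.Agent.Lib.MP_bf61d2_nt.Perm

namespace Pool.Agent.Lib.MP_bf61d2_nt.Artin
end Pool.Agent.Lib.MP_bf61d2_nt.Artin

namespace Pool.Agent.Lib.MP_bf61d2_nt.Artin.LA

open NumberField IsDedekindDomain Filter Topology Polynomial Module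

open Pool.Agent.Lib.MP_bf61d2_nt.Perm

open Pool.Agent.Lib.MP_bf61d2_nt.Artin

variable {K M : Type*} [Field K] [NumberField K] [Field M] [NumberField M] [Algebra K M]

/-- The sum over all finite places `v` of `φ (a_v / √q_v) q_v ^ (1/2 - s) log q_v`, where `q_v` is
the norm of `v` and `a_v` minus the coefficient at `T` of the local polynomial of `E` at `v`. -/
noncomputable def logTraceSum (E : WeierstrassCurve K) (φ : ℝ → ℝ) (s : ℝ) : ℝ :=
  ∑' v : HeightOneSpectrum (𝓞 K), φ (-(((E.baseChange (v.adicCompletion K)).localPolynomial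
    (v.adicCompletionIntegers K)).coeff 1 : ℝ) / Real.sqrt (Ideal.absNorm v.asIdeal)) *
      ((Ideal.absNorm v.asIdeal : ℝ) ^ (1 / 2 - s) * Real.log (Ideal.absNorm v.asIdeal))

lemma summable_pr32 : Summable fun v : HeightOneSpectrum (𝓞 K) => (pr v : ℝ) ^ (-(3 / 2) : ℝ) :=
  summable_pr (h := fun n : ℕ => (n : ℝ) ^ (-(3 / 2) : ℝ)) (fun n => by positivity)
    (Real.summable_nat_rpow.mpr (by norm_num))

lemma logTraceSum_unif {φ : ℝ → ℝ} (hφ : Continuous φ) :
    ∃ C : ℝ, 0 ≤ C ∧ ∀ (E : WeierstrassCurve K) (s : ℝ), 3 / 2 < s →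
      |logTraceSum E φ s - ∑' v, wd (1 + (s - 3 / 2)) v * φ (cc E v)| ≤ C := by
  classical
  obtain ⟨A, hA0, hA⟩ := exists_bdd_cont hφ
  have hR : ∀ v : HeightOneSpectrum (𝓞 K), ∃ R : ℝ, 0 ≤ R ∧ ∀ x ∈ Set.Icc (-(nm v : ℝ)) (nm v),
      |φ x| ≤ R := by
    intro v
    obtain ⟨R, hR⟩ := isCompact_Icc.exists_bound_of_continuousOn
      (s := Set.Icc (-(nm v : ℝ)) (nm v)) hφ.continuousOn
    exact ⟨max R 0, le_max_right _ _, fun x hx => (hR x hx).trans (le_max_left _ _)⟩
  choose R hR0 hR using hR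
  set b : HeightOneSpectrum (𝓞 K) → ℝ := fun v =>
    (if pr v = 2 then (R v + |φ 0|) * Real.log (nm v) else 0) +
      8 * A * (pr v : ℝ) ^ (-(3 / 2) : ℝ) with hb
  have hbs : Summable b := by
    refine Summable.add ?_ (summable_pr32.mul_left _)
    refine summable_of_hasFiniteSupport ((finite_two (K := K)).subset fun v hv => ?_)
    by_contra h
    exact hv (if_neg h)
  have hb0 : ∀ v, 0 ≤ b v := fun v => by
    have := (log_nm_pos v).le
    have := hR0 v
    rw [hb]
    simp only
    split_ifs <;> positivity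
  refine ⟨∑' v, b v, tsum_nonneg hb0, fun E s hs => ?_⟩
  set σ : ℝ := 1 + (s - 3 / 2) with hσ
  have hσ1 : 1 < σ := by rw [hσ]; linarith
  have e0 : logTraceSum E φ s = ∑' v, wd σ v * φ ((tr E v : ℝ) / Real.sqrt (nm v)) := by
    unfold logTraceSum
    refine tsum_congr fun v => ?_
    rw [mul_comm]
    congr 1
    · rw [wd, wp, hσ]
      congr 2
      ring
    · congr 2
      rw [tr]
      push_cast
      rfl
  have hs1 : Summable fun v : HeightOneSpectrum (𝓞 K) => wd σ v * φ (cc E v) := by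
    refine Summable.of_norm_bounded ((summable_wd (K := K) hσ1).mul_left A) fun v => ?_
    rw [norm_mul, Real.norm_eq_abs, Real.norm_eq_abs, abs_of_pos (wd_pos _ v), mul_comm]
    exact mul_le_mul_of_nonneg_right (hA _ (abs_cc_le E v)) (wd_pos σ v).le
  have hd : ∀ v, |wd σ v * φ ((tr E v : ℝ) / Real.sqrt (nm v)) - wd σ v * φ (cc E v)| ≤ b v := by
    intro v
    rw [← mul_sub, abs_mul, abs_of_pos (wd_pos σ v)]
    have hp0 : (0 : ℝ) < pr v := by exact_mod_cast (pr_prime v).pos
    have hlg := log_nm_pos v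
    by_cases hp : pr v = 2
    · have h1 : cc E v = 0 := by rw [cc, if_neg (by simp [hp])]
      rw [h1, hb]
      simp only
      rw [if_pos hp]
      have h2 := abs_sub (φ ((tr E v : ℝ) / Real.sqrt (nm v))) (φ 0)
      have h3 := wp_le_half hσ1.le v
      have h4 : 0 ≤ 8 * A * (pr v : ℝ) ^ (-(3 / 2) : ℝ) := by positivity
      have h5 : 0 ≤ |φ ((tr E v : ℝ) / Real.sqrt (nm v)) - φ 0| := abs_nonneg _
      have h6 : wd σ v ≤ Real.log (nm v) := by
        rw [wd]
        exact mul_le_of_le_one_left hlg.le (by linarith)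
      have h7 : |φ ((tr E v : ℝ) / Real.sqrt (nm v))| ≤ R v := by
        refine hR v _ (abs_le.mp ?_)
        have h8 : |(tr E v : ℝ)| ≤ nm v := by
          have := (lp_eq E v).2.1
          exact_mod_cast this
        have h9 : (1 : ℝ) ≤ Real.sqrt (nm v) := by
          rw [Real.one_le_sqrt]
          exact_mod_cast (one_lt_nm v).le
        rw [abs_div, abs_of_nonneg (Real.sqrt_nonneg _)]
        exact (div_le_self (abs_nonneg _) h9).trans h8
      calc wd σ v * |φ ((tr E v : ℝ) / Real.sqrt (nm v)) - φ 0|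
          ≤ Real.log (nm v) * (R v + |φ 0|) :=
            mul_le_mul h6 (h2.trans (by linarith)) h5 hlg.le
        _ ≤ _ := by linarith
    · by_cases hd : nm v = pr v
      · have h1 : cc E v = (tr E v : ℝ) / Real.sqrt (nm v) := by rw [cc, if_pos ⟨hp, hd⟩]
        rw [h1, sub_self, abs_zero, mul_zero]
        exact hb0 v
      · have h1 : cc E v = 0 := by rw [cc, if_neg (by tauto)]
        obtain ⟨-, -, -, ha⟩ := lp_eq E v
        have ha' : ((tr E v : ℝ)) ^ 2 ≤ 4 * nm v := by exact_mod_cast ha hp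
        have hq := nm_pos v
        have hs : 0 < Real.sqrt (nm v) := Real.sqrt_pos.mpr hq
        have h2 : |(tr E v : ℝ) / Real.sqrt (nm v)| ≤ 2 := by
          rw [abs_div, abs_of_pos hs, div_le_iff₀ hs]
          apply abs_le_of_sq_le_sq _ (by positivity)
          rw [mul_pow, Real.sq_sqrt hq.le]
          linarith
        have h3 : |φ ((tr E v : ℝ) / Real.sqrt (nm v)) - φ (cc E v)| ≤ 2 * A := by
          have h4 := abs_sub (φ ((tr E v : ℝ) / Real.sqrt (nm v))) (φ (cc E v))
          have h5 := hA _ h2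
          have h6 := hA _ (abs_cc_le E v)
          linarith
        have h7 : wd σ v ≤ 4 * (pr v : ℝ) ^ (-(3 / 2) : ℝ) := by
          have h8 : (1 : ℝ) ≤ nm v := by exact_mod_cast (one_lt_nm v).le
          have h9 := MV59.RD38.log_le_four v
          have h10 : wp σ v ≤ (nm v : ℝ) ^ (-1 : ℝ) :=
            Real.rpow_le_rpow_of_exponent_le h8 (by linarith)
          have h11 : (pr v : ℝ) ^ 2 ≤ nm v := by exact_mod_cast sq_pr_le_nm v hd
          calc wd σ v ≤ (nm v : ℝ) ^ (-1 : ℝ) * (4 * (nm v : ℝ) ^ (1 / 4 : ℝ)) :=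
                mul_le_mul h10 h9 hlg.le (by positivity)
            _ = 4 * (nm v : ℝ) ^ (-(3 / 4) : ℝ) := by
                rw [mul_left_comm, ← Real.rpow_add hq]
                norm_num
            _ ≤ 4 * ((pr v : ℝ) ^ 2) ^ (-(3 / 4) : ℝ) := by
                refine mul_le_mul_of_nonneg_left ?_ (by norm_num)
                exact Real.rpow_le_rpow_of_nonpos (by positivity) h11 (by norm_num)
            _ = _ := by
                rw [← Real.rpow_natCast, ← Real.rpow_mul hp0.le]
                norm_num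
        rw [hb]
        simp only
        rw [if_neg hp, zero_add]
        calc _ ≤ 4 * (pr v : ℝ) ^ (-(3 / 2) : ℝ) * (2 * A) :=
              mul_le_mul h7 h3 (abs_nonneg _) (by positivity)
          _ = _ := by ring
  have hs2 : Summable fun v : HeightOneSpectrum (𝓞 K) =>
      wd σ v * φ ((tr E v : ℝ) / Real.sqrt (nm v)) := by
    have h1 : Summable fun v : HeightOneSpectrum (𝓞 K) =>
        wd σ v * φ ((tr E v : ℝ) / Real.sqrt (nm v)) - wd σ v * φ (cc E v) :=
      Summable.of_norm_bounded hbs fun v => hd v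
    refine (h1.add hs1).congr fun v => ?_
    ring
  rw [e0, ← hs2.tsum_sub hs1, ← Real.norm_eq_abs]
  exact tsum_of_norm_bounded hbs.hasSum hd

end Pool.Agent.Lib.MP_bf61d2_nt.Artin.LA
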