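import Mathlib
import Pool.Agent.Lib.MP_bf61d2_nt.Trim.Artin.Defs63
import Pool.Agent.Lib.MP_bf61d2_nt.Trim.Artin.Final63
import Pool.Agent.Lib.MP_bf61d2_nt.Trim.Artin.LA.DefsLA63
import Pool.Agent.Lib.MP_bf61d2_nt.Trim.Artin.LA.LTWL36
import Pool.Agent.Lib.MP_bf61d2_nt.Trim.Artin.LA.T2L63
import Pool.Agent.Lib.MP_bf61d2_nt.Trim.Artin.LA.T3L63
import Pool.Agent.Lib.MP_bf61d2_nt.Trim.Artin.LA.T4L63
import Pool.Agent.Lib.MP_bf61d2_nt.Trim.Artin.R7
import Pool.Agent.Lib.MP_bf61d2_nt.Trim.Places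
import Pool.Agent.Lib.MP_bf61d2_nt.Trim.Structure

set_option autoImplicit false

/-!
Twists of the L-function of an elliptic curve over a number field near the edge, local form: the
inequalities with the distribution of the normalised traces of Frobenius.
-/

namespace NumberField
end NumberField

namespace Pool.Agent.Lib.MP_bf61d2_nt.Perm
end Pool.Agent.Lib.MP_bf61d2_nt.Perm

namespace Pool.Agent.Lib.MP_bf61d2_nt.Artin
end Pool.Agent.Lib.MP_bf61d2_nt.Artin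

namespace Pool.Agent.Lib.MP_bf61d2_nt.Artin.LA

open NumberField IsDedekindDomain Filter Topology Polynomial Module

open Pool.Agent.Lib.MP_bf61d2_nt.Perm

open Pool.Agent.Lib.MP_bf61d2_nt.Artin

section Scale

lemma tendsto_inv_edge : Tendsto (fun σ : ℝ => 1 / (σ - 3 / 2)) (𝓝[>] (3 / 2)) atTop := by
  have h : Tendsto (fun σ : ℝ => σ - 3 / 2) (𝓝[>] (3 / 2)) (𝓝[>] 0) := by
    refine tendsto_nhdsWithin_iff.mpr ⟨?_, ?_⟩
    · have h : Tendsto (fun σ : ℝ => σ - 3 / 2) (𝓝 (3 / 2)) (𝓝 (3 / 2 - 3 / 2)) :=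
        tendsto_id.sub_const _
      rw [sub_self] at h
      exact h.mono_left nhdsWithin_le_nhds
    · filter_upwards [self_mem_nhdsWithin] with σ hσ
      have : (3 / 2 : ℝ) < σ := hσ
      exact (by linarith : (0 : ℝ) < σ - 3 / 2)
  simp only [one_div]
  exact tendsto_inv_nhdsGT_zero.comp h

end Scale

variable {K M : Type*} [Field K] [NumberField K] [Field M] [NumberField M] [Algebra K M]

/-- The logarithmic derivative and the sum over the places. -/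
lemma edge_unif {V : Type*} [AddCommGroup V] [Module ℂ V] [FiniteDimensional ℂ V]
    (ρ : Representation ℂ Gal(M/K) V) (Fr : HeightOneSpectrum (𝓞 K) → Gal(M/K))
    {S : Set (HeightOneSpectrum (𝓞 K))} (hS : S.Finite) :
    ∃ C : ℝ, 0 ≤ C ∧ ∀ (E : WeierstrassCurve K) (t σ : ℝ), 3 / 2 < σ →
    ‖logDeriv (LTw E ρ Fr S) (σ + t * Complex.I) +
      SD (K := K) (1 + (σ - 3 / 2)) (fun v => (cc E v : ℂ) *
        (ρ.character (Fr v) * ph t (nm v)))‖ ≤ C := by
  obtain ⟨C, hC, h⟩ := logDeriv_LTw_uniform ρ Fr hS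
  refine ⟨C, hC, fun E t σ hσ => ?_⟩
  have h1 := (h E (σ - 3 / 2) t (by linarith)).2.2
  rwa [add_sub_cancel] at h1

/-- The bound for the linear combinations, from the distribution of the traces. -/
theorem transport_edgeL [Fintype Gal(M/K)] (hch : StCHEBL K M)
    {Fr : HeightOneSpectrum (𝓞 K) → Gal(M/K)}
    (hFr : ∀ v, IsFr v (Fr v)) {S : Set (HeightOneSpectrum (𝓞 K))} (hS : S.Finite) {n : ℕ}
    {V : Fin n → Type*} [∀ j, AddCommGroup (V j)] [∀ j, Module ℂ (V j)]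
    [∀ j, FiniteDimensional ℂ (V j)] (ρ : ∀ j, Representation ℂ Gal(M/K) (V j)) (t : Fin n → ℝ)
    (c : Fin n → ℂ) {φ ψ : ℝ → ℝ} (hφ : Continuous φ) (hψ : Continuous ψ)
    (hφψ : ∀ x y : ℝ, |x| ≤ 2 → x * y ≤ φ x + ψ y) :
    ∃ B : ℝ, Tendsto (fun X : ℝ => X⁻¹ * ∫ u in (0 : ℝ)..X,
        (∑ᶠ g : Gal(M/K), ψ (∑ j, c j * ((ρ j).character g *
          Complex.exp (-(t j * u) * Complex.I))).re) / Nat.card Gal(M/K)) atTop (𝓝 B) ∧
      ∀ ε : ℝ, 0 < ε → ∀ᶠ σ : ℝ in 𝓝[>] (3 / 2), ∀ E : WeierstrassCurve K,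
        -(∑ j, c j * logDeriv (LTw E (ρ j) Fr S) (σ + t j * Complex.I)).re ≤
          logTraceSum E φ σ + (B + ε) / (σ - 3 / 2) := by
  obtain ⟨B, hB, hbd⟩ := transport_boundU hch hFr hφ hψ hφψ (fun j g => c j * (ρ j).character g)
    (fun j g h => by simp only [Representation.char_conj]) t
  refine ⟨B, hB.congr fun X => ?_, fun ε hε => ?_⟩
  · congr 1
    refine intervalIntegral.integral_congr fun u _ => ?_
    rw [finsum_eq_sum_of_fintype, Nat.card_eq_fintype_card]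
    congr 1
    refine Finset.sum_congr rfl fun g _ => ?_
    congr 2
    refine Finset.sum_congr rfl fun j _ => ?_
    rw [mul_assoc]
    congr 4
    push_cast
    ring
  choose C hC0 hC using fun j => edge_unif (ρ j) Fr hS
  obtain ⟨D, hD0, hD⟩ := logTraceSum_unif (K := K) hφ
  have h1 := tendsto_sub_three_halves.eventually (hbd (ε / 2) (half_pos hε))
  have h2 := tendsto_inv_edge.eventually
    (eventually_ge_atTop (((∑ j, ‖c j‖ * C j) + D) / (ε / 2)))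
  filter_upwards [h1, h2, self_mem_nhdsWithin] with σ h1 h2 hσ E
  have hσ' : 3 / 2 < σ := hσ
  replace h1 := h1 (fun v => cc E v) (fun v => abs_cc_le E v)
  rw [add_sub_cancel_left] at h1
  rw [div_le_iff₀ (half_pos hε)] at h2
  set Y : Fin n → ℂ := fun j => SD (K := K) (1 + (σ - 3 / 2)) (fun v => (cc E v : ℂ) *
    ((ρ j).character (Fr v) * ph (t j) (nm v))) with hY
  have e1 : (∑ j, SD (K := K) (1 + (σ - 3 / 2)) (fun v => ((cc E v : ℝ) : ℂ) *
      (c j * (ρ j).character (Fr v) * ph (t j) (nm v)))) = ∑ j, c j * Y j := by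
    refine Finset.sum_congr rfl fun j _ => ?_
    rw [hY]
    simp only [SD]
    rw [← tsum_mul_left]
    refine tsum_congr fun v => ?_
    ring
  rw [e1] at h1
  have h3 : ‖(∑ j, c j * logDeriv (LTw E (ρ j) Fr S) (σ + t j * Complex.I)) +
      ∑ j, c j * Y j‖ ≤ ∑ j, ‖c j‖ * C j := by
    rw [← Finset.sum_add_distrib]
    refine (norm_sum_le _ _).trans (Finset.sum_le_sum fun j _ => ?_)
    rw [← mul_add, norm_mul]
    exact mul_le_mul_of_nonneg_left (hC j E (t j) σ hσ') (norm_nonneg _)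
  have h4 := (abs_le.mp ((Complex.abs_re_le_norm _).trans h3)).1
  rw [Complex.add_re] at h4
  have h5 := (abs_le.mp (hD E σ hσ')).1
  have e2 : (B + ε) / (σ - 3 / 2) = (B + ε) * (1 / (σ - 3 / 2)) := by ring
  rw [e2]
  nlinarith

/-- The Bessel inequality with the second moment of the traces, uniformly in the imaginary
part. -/
theorem moment_edgeL [Fintype Gal(M/K)] (hch : StCHEBL K M)
    {Fr : HeightOneSpectrum (𝓞 K) → Gal(M/K)}
    (hFr : ∀ v, IsFr v (Fr v)) {S : Set (HeightOneSpectrum (𝓞 K))} (hS : S.Finite) {n : ℕ}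
    {V : Fin n → Type*} [∀ j, AddCommGroup (V j)] [∀ j, Module ℂ (V j)]
    [∀ j, FiniteDimensional ℂ (V j)] (ρ : ∀ j, Representation ℂ Gal(M/K) (V j)) (t : Fin n → ℝ)
    (hirr : ∀ j, (ρ j).IsIrreducible)
    (hne : ∀ i j, i ≠ j → t i = t j → IsEmpty ((ρ i).Equiv (ρ j))) {ε : ℝ} (hε : 0 < ε) :
    ∀ᶠ σ : ℝ in 𝓝[>] (3 / 2), ∀ (E : WeierstrassCurve K) (τ : ℝ),
      ∑ j, ‖logDeriv (LTw E (ρ j) Fr S) (σ + (t j + τ : ℝ) * Complex.I)‖ ^ 2 ≤
        (logTraceSum E (fun x => x ^ 2) σ + ε / (σ - 3 / 2)) / (σ - 3 / 2) ∧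
      logTraceSum E (fun x => x ^ 2) σ ≤ (4 + ε) / (σ - 3 / 2) := by
  classical
  have hcard : (Fintype.card Gal(M/K) : ℂ) ≠ 0 := Nat.cast_ne_zero.mpr Fintype.card_ne_zero
  have : Invertible (Nat.card Gal(M/K) : ℂ) := invertibleOfNonzero (by
    rwa [Nat.card_eq_fintype_card])
  have hort : ∀ i j, ∑ g, (ρ i).character g * (starRingEnd ℂ) ((ρ j).character g) =
      (Fintype.card Gal(M/K) : ℂ) * (if Nonempty ((ρ j).Equiv (ρ i)) then 1 else 0) := by
    intro i j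
    have := hirr i
    have := hirr j
    have h := Representation.char_orthonormal (ρ i) (ρ j)
    rw [← h, Nat.card_eq_fintype_card, mul_inv_cancel_left₀ hcard]
    refine Finset.sum_congr rfl fun g _ => ?_
    rw [character_inv]
  have hb := fun (ε : ℝ) (hε : 0 < ε) => bessel_momentU (fun f h => hch Fr hFr f h)
    (fun j g => (ρ j).character g)
    (fun j g h => by simp only [Representation.char_conj]) t
    (fun j => by rw [hort, if_pos ⟨.refl _⟩, mul_one])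
    (fun i j hij htt => by
      rw [hort, if_neg, mul_zero]
      rintro ⟨φ⟩
      exact (hne i j hij htt).false φ.symm) hε
  choose C hC0 hC using fun j => edge_unif (ρ j) Fr hS
  obtain ⟨D, hD0, hD⟩ := logTraceSum_unif (K := K) (φ := fun x => x ^ 2) (by fun_prop)
  obtain ⟨η, hη0, hη1⟩ : ∃ η : ℝ, 0 < η ∧ η * (4 + ε / 8) + (1 + η) * (ε / 8) ≤ ε / 2 := by
    refine ⟨min 1 (ε / (8 * (4 + ε / 8))), by positivity, ?_⟩
    set η : ℝ := min 1 (ε / (8 * (4 + ε / 8)))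
    have h1 : η ≤ 1 := min_le_left _ _
    have h2 : η * (4 + ε / 8) ≤ ε / 8 := by
      have h3 : η ≤ ε / (8 * (4 + ε / 8)) := min_le_right _ _
      calc η * (4 + ε / 8) ≤ ε / (8 * (4 + ε / 8)) * (4 + ε / 8) := by gcongr
        _ = ε / 8 := by field_simp
    nlinarith
  have h1 := tendsto_sub_three_halves.eventually (hb (ε / 8) (by linarith))
  have h2 := tendsto_inv_edge.eventually
    (eventually_ge_atTop (max 1 ((((1 + 1 / η) * ∑ j, C j ^ 2) + D) / (ε / 8))))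
  filter_upwards [h1, h2, self_mem_nhdsWithin] with σ h1 h2 hσ E τ
  have hσ' : 3 / 2 < σ := hσ
  replace h1 := h1 (fun v => cc E v) (fun v => abs_cc_le E v) τ
  rw [add_sub_cancel_left] at h1
  have h21 := (le_max_left _ _).trans h2
  have h22 := (le_max_right _ _).trans h2
  rw [div_le_iff₀ (by positivity)] at h22
  have e1 : ∀ a : ℝ, a / (σ - 3 / 2) = a * (1 / (σ - 3 / 2)) := fun a => by ring
  rw [e1 (logTraceSum E (fun x => x ^ 2) σ + ε / (σ - 3 / 2)), e1 ε, e1 (4 + ε)]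
  set Lg : ℝ := 1 / (σ - 3 / 2) with hLg
  set Y : Fin n → ℂ := fun j => SD (K := K) (1 + (σ - 3 / 2)) (fun v => (cc E v : ℂ) *
    ((ρ j).character (Fr v) * ph (t j + τ) (nm v))) with hY
  set A : ℝ := ∑' v : HeightOneSpectrum (𝓞 K), wd (1 + (σ - 3 / 2)) v * cc E v ^ 2 with hA
  obtain ⟨h11, h12⟩ := h1
  have hDσ0 : |logTraceSum E (fun x => x ^ 2) σ - A| ≤ D := hD E σ hσ'
  have hDσ := abs_le.mp hDσ0
  have hC2 : 0 ≤ ∑ j, C j ^ 2 := Finset.sum_nonneg fun j _ => sq_nonneg _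
  have hC3 : 0 ≤ (1 + 1 / η) * ∑ j, C j ^ 2 := by positivity
  have hA0 : 0 ≤ A := tsum_nonneg fun v => mul_nonneg (wd_pos _ v).le (sq_nonneg _)
  have hterm : ∀ j, ‖logDeriv (LTw E (ρ j) Fr S) (σ + (t j + τ : ℝ) * Complex.I)‖ ^ 2 ≤
      (1 + η) * ‖Y j‖ ^ 2 + (1 + 1 / η) * C j ^ 2 := by
    intro j
    have h6 := hC j E (t j + τ) σ hσ'
    set Z : ℂ := logDeriv (LTw E (ρ j) Fr S) (σ + (t j + τ : ℝ) * Complex.I) with hZ
    have h7 : ‖Z‖ ≤ ‖Y j‖ + C j := by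
      have h71 : Z = (Z + Y j) - Y j := by ring
      calc ‖Z‖ = ‖(Z + Y j) - Y j‖ := by rw [← h71]
        _ ≤ ‖Z + Y j‖ + ‖Y j‖ := norm_sub_le _ _
        _ ≤ _ := by linarith [h6]
    have h8 : ‖Z‖ ^ 2 ≤ (‖Y j‖ + C j) ^ 2 := pow_le_pow_left₀ (norm_nonneg _) h7 2
    have h9 : (1 + η) * ‖Y j‖ ^ 2 + (1 + 1 / η) * C j ^ 2 - (‖Y j‖ + C j) ^ 2 =
        η * (‖Y j‖ - 1 / η * C j) ^ 2 := by
      field_simp
      ring
    have h10 : 0 ≤ η * (‖Y j‖ - 1 / η * C j) ^ 2 := by positivity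
    linarith
  have hLL : Lg ≤ Lg ^ 2 := by nlinarith
  constructor
  · calc ∑ j, ‖logDeriv (LTw E (ρ j) Fr S) (σ + (t j + τ : ℝ) * Complex.I)‖ ^ 2
        ≤ ∑ j, ((1 + η) * ‖Y j‖ ^ 2 + (1 + 1 / η) * C j ^ 2) :=
          Finset.sum_le_sum fun j _ => hterm j
      _ = (1 + η) * ∑ j, ‖Y j‖ ^ 2 + (1 + 1 / η) * ∑ j, C j ^ 2 := by
          rw [Finset.sum_add_distrib, ← Finset.mul_sum, ← Finset.mul_sum]
      _ ≤ (1 + η) * ((A + ε / 8 * Lg) * Lg) + (1 + 1 / η) * ∑ j, C j ^ 2 := by gcongr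
      _ ≤ (1 + η) * ((A + ε / 8 * Lg) * Lg) + (ε / 8 * Lg ^ 2 - D * Lg) := by
          have h13 : D * 1 ≤ D * Lg := mul_le_mul_of_nonneg_left h21 hD0
          have h14 : ((1 + 1 / η) * ∑ j, C j ^ 2) * 1 ≤ ((1 + 1 / η) * ∑ j, C j ^ 2) * Lg :=
            mul_le_mul_of_nonneg_left h21 hC3
          have h15 : ((1 + 1 / η) * ∑ j, C j ^ 2 + D) * Lg ≤ Lg * (ε / 8) * Lg :=
            mul_le_mul_of_nonneg_right h22 (by linarith)
          nlinarith
      _ ≤ (A + ε * Lg - D) * Lg := by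
          have h16 : η * A * Lg ≤ η * ((4 + ε / 8) * Lg) * Lg := by gcongr
          have h17 : (η * (4 + ε / 8) + (1 + η) * (ε / 8)) * Lg ^ 2 ≤ ε / 2 * Lg ^ 2 :=
            mul_le_mul_of_nonneg_right hη1 (sq_nonneg _)
          have h18 : 0 ≤ ε * Lg ^ 2 := by positivity
          nlinarith
      _ ≤ _ := by
          refine mul_le_mul_of_nonneg_right ?_ (by linarith)
          linarith [hDσ.1]
  · have h13 : D ≤ ε / 8 * Lg := by linarith
    have h14 : 0 ≤ ε * Lg := by positivity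
    linarith [hDσ.2]

end Pool.Agent.Lib.MP_bf61d2_nt.Artin.LA
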