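import Mathlib
import Pool.Agent.Lib.MP_bf61d2_nt.Trim.Artin.D1x63
import Pool.Agent.Lib.MP_bf61d2_nt.Trim.Artin.Defs63
import Pool.Agent.Lib.MP_bf61d2_nt.Trim.Artin.Final63
import Pool.Agent.Lib.MP_bf61d2_nt.Trim.Artin.LA.D1L63
import Pool.Agent.Lib.MP_bf61d2_nt.Trim.Artin.LA.DefsLA63
import Pool.Agent.Lib.MP_bf61d2_nt.Trim.Artin.LA.T5L63
import Pool.Agent.Lib.MP_bf61d2_nt.Trim.Artin.Pair63
import Pool.Agent.Lib.MP_bf61d2_nt.Trim.Artin.V3x7
import Pool.Agent.Lib.MP_bf61d2_nt.Trim.Places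
import Pool.Agent.Lib.MP_bf61d2_nt.Trim.Structure

set_option autoImplicit false

/-!
Artin twists at the edge, local form: two points of the line.
-/

namespace NumberField
end NumberField

namespace Pool.Agent.Lib.MP_bf61d2_nt.Perm
end Pool.Agent.Lib.MP_bf61d2_nt.Perm

namespace Pool.Agent.Lib.MP_bf61d2_nt.Artin
end Pool.Agent.Lib.MP_bf61d2_nt.Artin

namespace Pool.Agent.Lib.MP_bf61d2_nt.Artin.LA

open NumberField IsDedekindDomain Filter Topology Polynomial Module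

open Pool.Agent.Lib.MP_bf61d2_nt.Perm

open Pool.Agent.Lib.MP_bf61d2_nt.Artin

/-- From the bounds with all unimodular coefficients to the absolute values. -/
lemma unif_pair {α I : Type*} {l : Filter α} {Y Y' : α → I → ℂ} {L : α → ℝ} {C : ℝ}
    (hC0 : 0 ≤ C) (hL : ∀ᶠ σ in l, 0 ≤ L σ)
    (hC : ∀ᶠ σ in l, ∀ i, ‖Y σ i‖ ≤ C * L σ ∧ ‖Y' σ i‖ ≤ C * L σ)
    (h : ∀ a b : ℂ, ‖a‖ = 1 → ‖b‖ = 1 → ∃ κ : ℝ, κ < 2 ∧ ∀ᶠ σ in l, ∀ i,
      (a * Y σ i + b * Y' σ i).re ≤ κ * L σ) :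
    ∃ κ : ℝ, κ < 2 ∧ ∀ᶠ σ in l, ∀ i, ‖Y σ i‖ + ‖Y' σ i‖ ≤ κ * L σ := by
  classical
  have h' : ∀ p : ℂ × ℂ, ∃ κ : ℝ, κ < 2 ∧ (‖p.1‖ = 1 → ‖p.2‖ = 1 → ∀ᶠ σ in l, ∀ i,
      (p.1 * Y σ i + p.2 * Y' σ i).re ≤ κ * L σ) := by
    intro p
    by_cases hp : ‖p.1‖ = 1 ∧ ‖p.2‖ = 1
    · obtain ⟨κ, hκ, h1⟩ := h p.1 p.2 hp.1 hp.2
      exact ⟨κ, hκ, fun _ _ => h1⟩
    · exact ⟨0, two_pos, fun h1 h2 => absurd ⟨h1, h2⟩ hp⟩
  choose κ hκ2 hκ using h'
  set r : ℂ × ℂ → ℝ := fun p => (2 - κ p) / (4 * (C + 1)) with hr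
  have hr0 : ∀ p, 0 < r p := fun p => by
    have := hκ2 p
    exact div_pos (by linarith) (by positivity)
  have hK : IsCompact (Metric.sphere (0 : ℂ) 1 ×ˢ Metric.sphere (0 : ℂ) 1) :=
    (isCompact_sphere _ _).prod (isCompact_sphere _ _)
  obtain ⟨T, hT1, hT2⟩ := hK.elim_nhds_subcover (fun p => Metric.ball p (r p))
    (fun p _ => Metric.ball_mem_nhds p (hr0 p))
  have hTne : T.Nonempty := by
    have h1 : ((1 : ℂ), (1 : ℂ)) ∈ Metric.sphere (0 : ℂ) 1 ×ˢ Metric.sphere (0 : ℂ) 1 := by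
      simp
    have h2 := hT2 h1
    simp only [Set.mem_iUnion] at h2
    obtain ⟨p, hp, -⟩ := h2
    exact ⟨p, hp⟩
  refine ⟨T.sup' hTne fun p => (2 + κ p) / 2, ?_, ?_⟩
  · rw [Finset.sup'_lt_iff]
    intro p _
    have := hκ2 p
    linarith
  have hev : ∀ᶠ σ in l, ∀ p ∈ T, ∀ i, (p.1 * Y σ i + p.2 * Y' σ i).re ≤ κ p * L σ := by
    rw [Filter.eventually_all_finset]
    intro p hp
    have h1 := hT1 p hp
    simp only [Set.mem_prod, mem_sphere_zero_iff_norm] at h1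
    exact hκ p h1.1 h1.2
  have hph : ∀ z : ℂ, ∃ a : ℂ, ‖a‖ = 1 ∧ (a * z).re = ‖z‖ := by
    intro z
    by_cases hz : z = 0
    · exact ⟨1, by simp, by simp [hz]⟩
    · have hz' : (0 : ℝ) < ‖z‖ := norm_pos_iff.mpr hz
      refine ⟨(starRingEnd ℂ) z / ‖z‖, ?_, ?_⟩
      · rw [norm_div, RCLike.norm_conj, Complex.norm_real, Real.norm_eq_abs, abs_of_pos hz',
          div_self hz'.ne']
      · rw [div_mul_eq_mul_div, mul_comm, Complex.mul_conj, Complex.normSq_eq_norm_sq]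
        rw [← Complex.ofReal_div, Complex.ofReal_re]
        field_simp
  filter_upwards [hL, hC, hev] with σ hL hC hev i
  replace hC := hC i
  obtain ⟨a, ha, ha'⟩ := hph (Y σ i)
  obtain ⟨b, hb, hb'⟩ := hph (Y' σ i)
  have h1 : ((a, b) : ℂ × ℂ) ∈ Metric.sphere (0 : ℂ) 1 ×ˢ Metric.sphere (0 : ℂ) 1 := by
    simp [ha, hb]
  have h2 := hT2 h1
  simp only [Set.mem_iUnion] at h2
  obtain ⟨p, hp, hab⟩ := h2
  rw [Metric.mem_ball, Prod.dist_eq, max_lt_iff, dist_eq_norm, dist_eq_norm] at hab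
  have h3 := hev p hp i
  have h4 : ‖Y σ i‖ + ‖Y' σ i‖ = (p.1 * Y σ i + p.2 * Y' σ i).re + ((a - p.1) * Y σ i).re +
      ((b - p.2) * Y' σ i).re := by
    rw [← ha', ← hb', ← Complex.add_re, ← Complex.add_re, ← Complex.add_re]
    congr 1
    ring
  have h5 : ((a - p.1) * Y σ i).re ≤ r p * (C * L σ) := by
    refine (Complex.re_le_norm _).trans ?_
    rw [norm_mul]
    exact mul_le_mul hab.1.le hC.1 (norm_nonneg _) (hr0 p).le
  have h6 : ((b - p.2) * Y' σ i).re ≤ r p * (C * L σ) := by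
    refine (Complex.re_le_norm _).trans ?_
    rw [norm_mul]
    exact mul_le_mul hab.2.le hC.2 (norm_nonneg _) (hr0 p).le
  have h7 : r p * (C * L σ) ≤ (2 - κ p) / 4 * L σ := by
    have h8 : r p * C ≤ (2 - κ p) / 4 := by
      have h9 := hκ2 p
      rw [hr]
      show (2 - κ p) / (4 * (C + 1)) * C ≤ (2 - κ p) / 4
      rw [div_mul_eq_mul_div, div_le_div_iff₀ (by positivity) (by norm_num)]
      nlinarith
    calc r p * (C * L σ) = (r p * C) * L σ := by ring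
      _ ≤ _ := mul_le_mul_of_nonneg_right h8 hL
  have h8 : (2 + κ p) / 2 ≤ T.sup' hTne fun p => (2 + κ p) / 2 :=
    Finset.le_sup' (fun p => (2 + κ p) / 2) hp
  have h9 : (2 + κ p) / 2 * L σ ≤ (T.sup' hTne fun p => (2 + κ p) / 2) * L σ :=
    mul_le_mul_of_nonneg_right h8 hL
  rw [h4]
  refine le_trans ?_ h9
  linarith

variable {K M : Type*} [Field K] [NumberField K] [Field M] [NumberField M] [Algebra K M]
  [Fintype Gal(M/K)]

/-- The trivial bound. -/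
lemma SD_triv (hch : StCHEBL K M)
    {Fr : HeightOneSpectrum (𝓞 K) → Gal(M/K)} (hFr : ∀ v, IsFr v (Fr v))
    {U : Type*} [AddCommGroup U] [Module ℂ U]
    (π : Representation ℂ Gal(M/K) U) (τ : ℝ) : ∃ C : ℝ, 0 ≤ C ∧ ∀ᶠ σ : ℝ in 𝓝[>] 1,
      ∀ E : WeierstrassCurve K, ‖SD (K := K) σ (fun v => (cc E v : ℂ) * (π.character (Fr v) * ph τ (nm v)))‖ ≤
        C * (1 / (σ - 1)) := by
  set A : ℝ := ∑ g, ‖π.character g‖ with hA
  have hA0 : 0 ≤ A := Finset.sum_nonneg fun _ _ => norm_nonneg _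
  refine ⟨2 * A * 2, by positivity, ?_⟩
  have h1 := hch Fr hFr (fun _ => 1) (fun _ _ => rfl) 0 1 one_pos
  filter_upwards [h1, self_mem_nhdsWithin] with σ h1 hσ E
  have hσ' : 1 < σ := hσ
  have hb : ∀ v : HeightOneSpectrum (𝓞 K),
      ‖(cc E v : ℂ) * (π.character (Fr v) * ph τ (nm v))‖ ≤ 2 * A := by
    intro v
    rw [norm_mul, norm_mul, norm_ph63, mul_one, Complex.norm_real, Real.norm_eq_abs]
    exact mul_le_mul (abs_cc_le E v) (Finset.single_le_sum (f := fun g => ‖π.character g‖)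
      (fun g _ => norm_nonneg _) (Finset.mem_univ _)) (norm_nonneg _) zero_le_two
  have h2 : ‖SD (K := K) σ (fun v => (cc E v : ℂ) * (π.character (Fr v) * ph τ (nm v)))‖ ≤
      2 * A * ∑' v : HeightOneSpectrum (𝓞 K), wd σ v := by
    rw [← tsum_mul_left]
    refine tsum_of_norm_bounded ((summable_wd (K := K) hσ').mul_left (2 * A)).hasSum fun v => ?_
    rw [norm_mul, Complex.norm_real, Real.norm_eq_abs, abs_of_pos (wd_pos _ v), mul_comm]
    exact mul_le_mul_of_nonneg_right (hb v) (wd_pos σ v).le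
  have h3 : ∑' v : HeightOneSpectrum (𝓞 K), wd σ v ≤ 2 * (1 / (σ - 1)) := by
    have e1 : SD (K := K) σ (fun v => (1 : ℂ) * ph 0 (nm v)) =
        ((∑' v : HeightOneSpectrum (𝓞 K), wd σ v : ℝ) : ℂ) := by
      rw [SD, Complex.ofReal_tsum]
      refine tsum_congr fun v => ?_
      rw [one_mul, show ph 0 (nm v) = 1 by simp [ph], mul_one]
    rw [if_pos rfl, e1] at h1
    have e2 : (∑ _g : Gal(M/K), (1 : ℂ)) / Fintype.card Gal(M/K) = 1 := by
      rw [Finset.sum_const, Finset.card_univ, nsmul_eq_mul, mul_one, div_self]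
      exact Nat.cast_ne_zero.mpr Fintype.card_ne_zero
    rw [e2, one_mul, ← Complex.ofReal_sub, Complex.norm_real, Real.norm_eq_abs] at h1
    have := (abs_le.mp h1).2
    linarith
  calc _ ≤ _ := h2
    _ ≤ 2 * A * (2 * (1 / (σ - 1))) := by gcongr
    _ = _ := by ring

/-- Two points of the line, off the real point. -/
theorem pair_edgeL (hch : StCHEBL K M)
    {Fr : HeightOneSpectrum (𝓞 K) → Gal(M/K)}
    (hFr : ∀ v, IsFr v (Fr v)) {S : Set (HeightOneSpectrum (𝓞 K))} (hS : S.Finite)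
    {V W : Type*} [AddCommGroup V] [Module ℂ V] [FiniteDimensional ℂ V] [AddCommGroup W]
    [Module ℂ W] [FiniteDimensional ℂ W] (ρ : Representation ℂ Gal(M/K) V)
    (ρ' : Representation ℂ Gal(M/K) W) (hi : ρ.IsIrreducible) (hi' : ρ'.IsIrreducible) {t t' : ℝ}
    (ht : t ≠ 0) (ht' : t' ≠ 0) (h : t = t' → ρ.character ≠ ρ'.character)
    (h' : t = -t' → ρ.character ≠ fun g => (starRingEnd ℂ) (ρ'.character g)) :
    ∃ κ : ℝ, κ < 2 ∧ ∀ᶠ σ : ℝ in 𝓝[>] (3 / 2), ∀ E : WeierstrassCurve K,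
      ‖logDeriv (LTw E ρ Fr S) (σ + t * Complex.I)‖ +
        ‖logDeriv (LTw E ρ' Fr S) (σ + t' * Complex.I)‖ ≤ κ / (σ - 3 / 2) := by
  have key : ∀ a b : ℂ, ‖a‖ = 1 → ‖b‖ = 1 → ∃ κ : ℝ, κ < 2 ∧
      ∀ᶠ σ : ℝ in 𝓝[>] 1, ∀ E : WeierstrassCurve K,
        (a * (SD (K := K) σ (fun v => (cc E v : ℂ) * (ρ.character (Fr v) * ph t (nm v)))) +
          b * (SD (K := K) σ (fun v => (cc E v : ℂ) *
            (ρ'.character (Fr v) * ph t' (nm v))))).re ≤ κ * (1 / (σ - 1)) := by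
    intro a b ha hb
    obtain ⟨B, hB, hbd⟩ := zonoid_boundU hch hFr
      ![fun g => a * ρ.character g, fun g => b * ρ'.character g]
      (fun j g h => by
        fin_cases j
        · exact congrArg (a * ·) (Representation.char_conj _ _ _)
        · exact congrArg (b * ·) (Representation.char_conj _ _ _)) ![t, t']
    have hB1 : B < 1 := by
      refine mean_pair_lt (fun g => a * ρ.character g) (fun g => b * ρ'.character g) ht ht'
        ?_ ?_ ?_ ?_ ?_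
      · simp only [norm_mul, ha, one_mul]
        exact sum_norm_char ρ hi
      · simp only [norm_mul, hb, one_mul]
        exact sum_norm_char ρ' hi'
      · intro htt
        have h1 := sum_char_conj hi hi' (h htt)
        have h2 : ∀ g, a * ρ.character g * (starRingEnd ℂ) (b * ρ'.character g) =
            a * (starRingEnd ℂ) b * (ρ.character g * (starRingEnd ℂ) (ρ'.character g)) :=
          fun g => by
          rw [map_mul]
          ring
        simp_rw [h2]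
        rw [← Finset.mul_sum, h1, mul_zero]
      · intro htt
        have h1 := sum_char_mul hi hi' (h' htt)
        have h2 : ∀ g, a * ρ.character g * (b * ρ'.character g) =
            a * b * (ρ.character g * ρ'.character g) := fun g => by ring
        simp_rw [h2]
        rw [← Finset.mul_sum, h1, mul_zero]
      · simpa [Fin.sum_univ_two] using hB
    refine ⟨1 + B, by linarith, ?_⟩
    filter_upwards [hbd (1 - B) (by linarith)] with σ hσ E
    replace hσ := hσ (fun v => cc E v) (fun v => abs_cc_le E v)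
    rw [Fin.sum_univ_two] at hσ
    have e1 : ∀ (z : ℂ) (χ : Gal(M/K) → ℂ) (τ : ℝ), SD (K := K) σ (fun v => (cc E v : ℂ) *
        (z * χ (Fr v) * ph τ (nm v))) = z * SD (K := K) σ (fun v => (cc E v : ℂ) *
        (χ (Fr v) * ph τ (nm v))) := by
      intro z χ τ
      simp only [SD]
      rw [← tsum_mul_left]
      refine tsum_congr fun v => ?_
      ring
    have e2 := e1 a ρ.character t
    have e3 := e1 b ρ'.character t'
    rw [← e2, ← e3]
    refine le_trans (le_of_eq ?_) ((le_abs_self _).trans (hσ.trans (le_of_eq (by ring))))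
    rfl
  obtain ⟨C₁, hC₁0, hC₁⟩ := SD_triv hch hFr ρ t
  obtain ⟨C₂, hC₂0, hC₂⟩ := SD_triv hch hFr ρ' t'
  have hpos : ∀ᶠ σ : ℝ in 𝓝[>] 1, 0 ≤ 1 / (σ - 1) := by
    filter_upwards [self_mem_nhdsWithin] with σ hσ
    have h1 : (1 : ℝ) < σ := hσ
    have h2 : 0 < σ - 1 := by linarith
    positivity
  obtain ⟨κ, hκ, hκ'⟩ := unif_pair (C := max C₁ C₂) (hC₁0.trans (le_max_left _ _)) hpos (by
    filter_upwards [hC₁, hC₂, hpos] with σ h1 h2 h3 E
    exact ⟨(h1 E).trans (mul_le_mul_of_nonneg_right (le_max_left _ _) h3),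
      (h2 E).trans (mul_le_mul_of_nonneg_right (le_max_right _ _) h3)⟩) key
  obtain ⟨C, hC0, hC⟩ := edge_unif ρ Fr hS
  obtain ⟨C', hC0', hC'⟩ := edge_unif ρ' Fr hS
  refine ⟨(2 + κ) / 2, by linarith, ?_⟩
  have h1 := tendsto_sub_three_halves.eventually hκ'
  have h3 := tendsto_inv_edge.eventually
    (eventually_ge_atTop ((C + C') / ((2 - κ) / 2)))
  filter_upwards [h1, h3, self_mem_nhdsWithin] with σ h1 h3 hσ E
  have hσ' : 3 / 2 < σ := hσ
  replace h1 := h1 E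
  rw [add_sub_cancel_left] at h1
  rw [div_le_iff₀ (by linarith)] at h3
  have h4 := hC E t σ hσ'
  have h5 := hC' E t' σ hσ'
  have e1 : (2 + κ) / 2 / (σ - 3 / 2) = (2 + κ) / 2 * (1 / (σ - 3 / 2)) := by ring
  rw [e1]
  have h6 : ∀ z w : ℂ, ‖z‖ ≤ ‖z + w‖ + ‖w‖ := fun z w => by
    calc ‖z‖ = ‖(z + w) - w‖ := by rw [add_sub_cancel_right]
      _ ≤ _ := norm_sub_le _ _
  have h7 := (h6 (logDeriv (LTw E ρ Fr S) (σ + t * Complex.I)) _).trans
    (add_le_add_left h4 _)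
  have h8 := (h6 (logDeriv (LTw E ρ' Fr S) (σ + t' * Complex.I)) _).trans
    (add_le_add_left h5 _)
  nlinarith

end Pool.Agent.Lib.MP_bf61d2_nt.Artin.LA
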