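import Mathlib
import Pool.Agent.Lib.MP_bf61d2_nt.Trim.Artin.Defs63
import Pool.Agent.Lib.MP_bf61d2_nt.Trim.Artin.LA.CHEBL38
import Pool.Agent.Lib.MP_bf61d2_nt.Trim.Artin.LA.DefsLA63
import Pool.Agent.Lib.MP_bf61d2_nt.Trim.Artin.LA.LTWL36
import Pool.Agent.Lib.MP_bf61d2_nt.Trim.Artin.LA.PairL63
import Pool.Agent.Lib.MP_bf61d2_nt.Trim.Artin.LA.T4L63
import Pool.Agent.Lib.MP_bf61d2_nt.Trim.Artin.LA.T5L63
import Pool.Agent.Lib.MP_bf61d2_nt.Trim.Artin.Public63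
import Pool.Agent.Lib.MP_bf61d2_nt.Trim.Places
import Pool.Agent.Lib.MP_bf61d2_nt.Trim.Structure

set_option autoImplicit false

/-!
Twists of the L-functions of the elliptic curves over a number field by complex representations of
finite Galois groups, local form, uniformly in the curve.
-/

namespace NumberField
end NumberField

namespace Pool.Agent.Lib.MP_bf61d2_nt.Perm
end Pool.Agent.Lib.MP_bf61d2_nt.Perm

namespace Pool.Agent.Lib.MP_bf61d2_nt.Artin
end Pool.Agent.Lib.MP_bf61d2_nt.Artin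

namespace Pool.Agent.Lib.MP_bf61d2_nt.Artin.LA

open NumberField IsDedekindDomain Filter Topology Polynomial Module

open Pool.Agent.Lib.MP_bf61d2_nt.Perm

open Pool.Agent.Lib.MP_bf61d2_nt.Artin

variable {K M : Type*} [Field K] [NumberField K] [Field M] [NumberField M] [Algebra K M]
  [IsGalois K M]

omit [IsGalois K M] in
/-- The product is holomorphic without zeros in the half plane of absolute convergence. -/
theorem holo_publicL (Fr : HeightOneSpectrum (𝓞 K) → Gal(M/K))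
    {S : Set (HeightOneSpectrum (𝓞 K))} (hS : S.Finite)
    {V : Type*} [AddCommGroup V] [Module ℂ V] [FiniteDimensional ℂ V]
    (ρ : Representation ℂ Gal(M/K) V) (E : WeierstrassCurve K) {s : ℂ} (hs : 3 / 2 < s.re) :
    DifferentiableAt ℂ (twistL E ρ Fr S) s ∧ twistL E ρ Fr S s ≠ 0 := by
  obtain ⟨C, -, h⟩ := logDeriv_LTw_uniform ρ Fr hS
  obtain ⟨h1, h2, -⟩ := h E (s.re - 3 / 2) s.im (by linarith)
  have e : (((3 / 2 + (s.re - 3 / 2) : ℝ) : ℂ) + s.im * Complex.I) = s := by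
    rw [add_sub_cancel]
    exact Complex.re_add_im s
  rw [e] at h1 h2
  exact ⟨h2, h1⟩

/-- The bound for the linear combinations, from the distribution of the traces. -/
theorem transport_publicL {Fr : HeightOneSpectrum (𝓞 K) → Gal(M/K)}
    (hFr : ∀ v, IsFrobenius v (Fr v)) {S : Set (HeightOneSpectrum (𝓞 K))} (hS : S.Finite) {n : ℕ}
    {V : Fin n → Type*} [∀ j, AddCommGroup (V j)] [∀ j, Module ℂ (V j)]
    [∀ j, FiniteDimensional ℂ (V j)] (ρ : ∀ j, Representation ℂ Gal(M/K) (V j)) (t : Fin n → ℝ)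
    (c : Fin n → ℂ) {φ ψ : ℝ → ℝ} (hφ : Continuous φ) (hψ : Continuous ψ)
    (hφψ : ∀ x y : ℝ, |x| ≤ 2 → x * y ≤ φ x + ψ y) :
    ∃ B : ℝ, Tendsto (fun X : ℝ => X⁻¹ * ∫ u in (0 : ℝ)..X,
        (∑ᶠ g : Gal(M/K), ψ (∑ j, c j * ((ρ j).character g *
          Complex.exp (-(t j * u) * Complex.I))).re) / Nat.card Gal(M/K)) atTop (𝓝 B) ∧
      ∀ ε : ℝ, 0 < ε → ∀ᶠ σ : ℝ in 𝓝[>] (3 / 2), ∀ E : WeierstrassCurve K,
        -(∑ j, c j * logDeriv (twistL E (ρ j) Fr S) (σ + t j * Complex.I)).re ≤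
          logTraceSum E φ σ + (B + ε) / (σ - 3 / 2) := by
  have hfd : FiniteDimensional K M := Module.Finite.of_restrictScalars_finite ℚ K M
  have := Fintype.ofFinite Gal(M/K)
  exact transport_edgeL (stCHEBL K M) (fun v => (hFr v).isFr) hS ρ t c hφ hψ hφψ

/-- The Bessel inequality with the second moment of the traces. -/
theorem moment_publicL {Fr : HeightOneSpectrum (𝓞 K) → Gal(M/K)}
    (hFr : ∀ v, IsFrobenius v (Fr v)) {S : Set (HeightOneSpectrum (𝓞 K))} (hS : S.Finite) {n : ℕ}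
    {V : Fin n → Type*} [∀ j, AddCommGroup (V j)] [∀ j, Module ℂ (V j)]
    [∀ j, FiniteDimensional ℂ (V j)] (ρ : ∀ j, Representation ℂ Gal(M/K) (V j)) (t : Fin n → ℝ)
    (hirr : ∀ j, (ρ j).IsIrreducible)
    (hne : ∀ i j, i ≠ j → t i = t j → IsEmpty ((ρ i).Equiv (ρ j))) {ε : ℝ} (hε : 0 < ε) :
    ∀ᶠ σ : ℝ in 𝓝[>] (3 / 2), ∀ (E : WeierstrassCurve K) (τ : ℝ),
      ∑ j, ‖logDeriv (twistL E (ρ j) Fr S) (σ + (t j + τ : ℝ) * Complex.I)‖ ^ 2 ≤
        (logTraceSum E (fun x => x ^ 2) σ + ε / (σ - 3 / 2)) / (σ - 3 / 2) ∧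
      logTraceSum E (fun x => x ^ 2) σ ≤ (4 + ε) / (σ - 3 / 2) := by
  have hfd : FiniteDimensional K M := Module.Finite.of_restrictScalars_finite ℚ K M
  have := Fintype.ofFinite Gal(M/K)
  exact moment_edgeL (stCHEBL K M) (fun v => (hFr v).isFr) hS ρ t hirr hne hε

/-- Two points of the line, off the real point. -/
theorem pair_publicL {Fr : HeightOneSpectrum (𝓞 K) → Gal(M/K)}
    (hFr : ∀ v, IsFrobenius v (Fr v)) {S : Set (HeightOneSpectrum (𝓞 K))} (hS : S.Finite)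
    {V W : Type*} [AddCommGroup V] [Module ℂ V] [FiniteDimensional ℂ V] [AddCommGroup W]
    [Module ℂ W] [FiniteDimensional ℂ W] (ρ : Representation ℂ Gal(M/K) V)
    (ρ' : Representation ℂ Gal(M/K) W) (hi : ρ.IsIrreducible) (hi' : ρ'.IsIrreducible) {t t' : ℝ}
    (ht : t ≠ 0) (ht' : t' ≠ 0) (h : t = t' → ρ.character ≠ ρ'.character)
    (h' : t = -t' → ρ.character ≠ fun g => (starRingEnd ℂ) (ρ'.character g)) :
    ∃ κ : ℝ, κ < 2 ∧ ∀ᶠ σ : ℝ in 𝓝[>] (3 / 2), ∀ E : WeierstrassCurve K,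
      ‖logDeriv (twistL E ρ Fr S) (σ + t * Complex.I)‖ +
        ‖logDeriv (twistL E ρ' Fr S) (σ + t' * Complex.I)‖ ≤ κ / (σ - 3 / 2) := by
  have hfd : FiniteDimensional K M := Module.Finite.of_restrictScalars_finite ℚ K M
  have := Fintype.ofFinite Gal(M/K)
  exact pair_edgeL (stCHEBL K M) (fun v => (hFr v).isFr) hS ρ ρ' hi hi' ht ht' h h'

end Pool.Agent.Lib.MP_bf61d2_nt.Artin.LA
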